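import Pool.Agent.P.MP_e94e4b_nt.Seg

/-! The large sieve inequality with constant `N + 2 Q ^ 2` and its arithmetic form. -/

namespace Pool.Agent.P.MP_e94e4b_nt

open Finset Real

/-- the additive character -/
noncomputable def ee (θ : ℝ) : ℂ := Complex.exp (((2 * π * θ : ℝ) : ℂ) * Complex.I)

theorem ee_add (a b : ℝ) : ee (a + b) = ee a * ee b := by
  rw [ee, ee, ee, ← Complex.exp_add]; congr 1; push_cast; ring

theorem ee_zero : ee 0 = 1 := by simp [ee]

theorem norm_ee (a : ℝ) : ‖ee a‖ = 1 := Complex.norm_exp_ofReal_mul_I _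

theorem ee_int (k : ℤ) : ee k = 1 := by
  rw [ee, ← Complex.exp_int_mul_two_pi_mul_I k]; congr 1; push_cast; ring

theorem conj_ee (a : ℝ) : (starRingEnd ℂ) (ee a) = ee (-a) := by
  rw [ee, ee, ← Complex.exp_conj]; congr 1
  simp only [map_mul, Complex.conj_ofReal, Complex.conj_I]; push_cast; ring

theorem ee_nat_mul (n : ℕ) (a : ℝ) : ee (n * a) = ee a ^ n := by
  induction n with
  | zero => simp [ee_zero]
  | succ n ih => rw [pow_succ, ← ih, ← ee_add]; congr 1; push_cast; ring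

theorem ee_sum {ι : Type*} (s : Finset ι) (f : ι → ℝ) : ee (∑ i ∈ s, f i) = ∏ i ∈ s, ee (f i) := by
  classical
  induction s using Finset.induction_on with
  | empty => simp [ee_zero]
  | insert a s ha ih => rw [sum_insert ha, prod_insert ha, ee_add, ih]

/-- distance to the nearest integer -/
noncomputable def dz (x : ℝ) : ℝ := |x - round x|

theorem dz_neg (x : ℝ) : dz (-x) = dz x := by
  have key : ∀ y : ℝ, dz (-y) ≤ dz y := fun y => by
    have := round_le (-y) (-round y)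
    rwa [Int.cast_neg, show -y - -(round y : ℝ) = -(y - round y) by ring, abs_neg] at this
  exact le_antisymm (key x) (by simpa using key (-x))

theorem four_dz_le (θ : ℝ) : 4 * dz θ ≤ ‖ee θ - 1‖ := by
  have h1 : ee θ = ee (θ - round θ) := by
    rw [sub_eq_add_neg, ee_add, ← Int.cast_neg, ee_int, mul_one]
  rw [h1, dz]
  have h2 := abs_sub_round θ
  generalize θ - round θ = x at h2
  rw [ee, mul_comm _ Complex.I, Complex.norm_exp_I_mul_ofReal_sub_one, norm_mul, Real.norm_eq_abs,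
    Real.norm_eq_abs, abs_two, show 2 * π * x / 2 = π * x by ring]
  have h3 : 2 / π * |π * x| ≤ |sin (π * x)| := Real.mul_abs_le_abs_sin (by
    rw [abs_mul, abs_of_pos pi_pos]; nlinarith [pi_pos])
  rw [abs_mul, abs_of_pos pi_pos, ← mul_assoc, div_mul_cancel₀ _ pi_ne_zero] at h3
  linarith

theorem norm_geom_le (n : ℕ) {θ : ℝ} (h : 0 < dz θ) :
    ‖∑ i ∈ range n, ee (i * θ)‖ ≤ 1 / (2 * dz θ) := by
  have h1 := four_dz_le θ
  have h2 : (∑ i ∈ range n, ee (i * θ)) * (ee θ - 1) = ee θ ^ n - 1 := by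
    simp only [ee_nat_mul]; exact geom_sum_mul _ _
  have h3 : ‖ee θ ^ n - 1‖ ≤ 2 := by
    refine (norm_sub_le _ _).trans ?_
    rw [norm_pow, norm_ee, one_pow, norm_one]; norm_num
  rw [← h2, norm_mul] at h3
  rw [le_div_iff₀ (by positivity)]
  nlinarith [norm_nonneg (∑ i ∈ range n, ee (i * θ))]

theorem sep_sum_pos {ι : Type*} (s : Finset ι) (x : ι → ℝ) {δ : ℝ} (hδ : 0 < δ)
    (h1 : ∀ i ∈ s, δ ≤ x i) (h2 : ∀ i ∈ s, ∀ j ∈ s, i ≠ j → δ ≤ |x i - x j|) :
    ∑ i ∈ s, 1 / x i ^ 2 ≤ 2 / δ ^ 2 := by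
  classical
  set k : ι → ℕ := fun i => ⌊x i / δ⌋₊ with hk
  have a1 : ∀ i ∈ s, k i * δ ≤ x i := fun i hi => by
    rw [← le_div_iff₀ hδ]; exact Nat.floor_le (div_nonneg (hδ.le.trans (h1 i hi)) hδ.le)
  have a2 : ∀ i, x i < (k i + 1) * δ := fun i => by
    rw [← div_lt_iff₀ hδ]; exact Nat.lt_floor_add_one _
  have a3 : ∀ i ∈ s, 0 < k i := fun i hi =>
    Nat.floor_pos.2 ((one_le_div hδ).2 (h1 i hi))
  have inj : Set.InjOn k s := fun i hi j hj h => by
    by_contra hne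
    have := h2 i hi j hj hne
    have b1 := a1 i hi
    have b2 := a1 j hj
    have b3 := a2 i
    have b4 := a2 j
    rw [h] at b1 b3
    rcases le_abs.1 this with h | h <;> linarith
  calc ∑ i ∈ s, 1 / x i ^ 2 ≤ ∑ i ∈ s, ((k i : ℝ) ^ 2)⁻¹ / δ ^ 2 := by
        refine sum_le_sum fun i hi => ?_
        have : (0 : ℝ) < k i := by exact_mod_cast a3 i hi
        rw [inv_eq_one_div, div_div, ← mul_pow]
        gcongr
        exact a1 i hi
    _ = (∑ m ∈ s.image k, ((m : ℝ) ^ 2)⁻¹) / δ ^ 2 := by rw [sum_image inj, sum_div]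
    _ ≤ 2 / δ ^ 2 := by
        gcongr
        refine le_trans (sum_le_sum_of_subset_of_nonneg (t := Ioo 0 ((s.image k).sup id + 1))
          (fun m hm => ?_) fun _ _ _ => by positivity) ?_
        · obtain ⟨i, hi, rfl⟩ := mem_image.1 hm
          exact mem_Ioo.2 ⟨a3 i hi, Nat.lt_succ_of_le (le_sup (f := id) hm)⟩
        · simpa using sum_Ioo_inv_sq_le (α := ℝ) 0 ((s.image k).sup id + 1)

theorem sep_sum {ι : Type*} (s : Finset ι) (x : ι → ℝ) {δ : ℝ} (hδ : 0 < δ)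
    (h1 : ∀ i ∈ s, δ ≤ |x i|) (h2 : ∀ i ∈ s, ∀ j ∈ s, i ≠ j → δ ≤ |x i - x j|) :
    ∑ i ∈ s, 1 / x i ^ 2 ≤ 4 / δ ^ 2 := by
  rw [← sum_filter_add_sum_filter_not s fun i => 0 ≤ x i]
  have a := sep_sum_pos (s.filter fun i => 0 ≤ x i) x hδ
    (fun i hi => by have := h1 i (mem_filter.1 hi).1; rwa [abs_of_nonneg (mem_filter.1 hi).2] at this)
    fun i hi j hj => h2 i (mem_filter.1 hi).1 j (mem_filter.1 hj).1
  have b := sep_sum_pos (s.filter fun i => ¬ 0 ≤ x i) (fun i => -x i) hδ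
    (fun i hi => by
      have := h1 i (mem_filter.1 hi).1; rwa [abs_of_neg (not_le.1 (mem_filter.1 hi).2)] at this)
    fun i hi j hj h => by
      rw [show -x i - -x j = -(x i - x j) by ring, abs_neg]
      exact h2 i (mem_filter.1 hi).1 j (mem_filter.1 hj).1 h
  simp only [neg_sq] at b
  have : 4 / δ ^ 2 = 2 / δ ^ 2 + 2 / δ ^ 2 := by ring
  linarith

theorem majorant (F : ℤ → ℝ) (hF : ∀ t, 0 ≤ F t) (a : ℤ) (n h : ℕ) :
    h * ∑ t ∈ Ico a (a + n), F t ≤
      ∑ i ∈ range h, ∑ j ∈ range (n + h - 1), F (a - h + 1 + i + j) := by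
  have key : ∀ i ∈ range h, ∑ t ∈ Ico a (a + n), F t ≤
      ∑ j ∈ range (n + h - 1), F (a - h + 1 + i + j) := by
    intro i hi
    rw [← sum_image (s := range (n + h - 1)) (g := fun j : ℕ => a - h + 1 + i + j) (f := F)
      (fun j _ j' _ h => by simpa using h)]
    refine sum_le_sum_of_subset_of_nonneg (fun t ht => ?_) fun t _ _ => hF t
    have := mem_Ico.1 ht
    have := mem_range.1 hi
    exact mem_image.2 ⟨(t - (a - h + 1 + i)).toNat, mem_range.2 (by omega), by omega⟩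
  have := card_nsmul_le_sum _ _ _ key
  rwa [card_range, nsmul_eq_mul] at this

/-- dual form of the large sieve inequality -/
theorem dual_large_sieve {ι : Type*} (R : Finset ι) (θ : ι → ℝ) (c : ι → ℂ) {δ : ℝ} (hδ : 0 < δ)
    (hs : ∀ r ∈ R, ∀ s ∈ R, r ≠ s → ∀ k : ℤ, δ ≤ |θ r - θ s - k|) (a : ℤ) (n h : ℕ) :
    h * ∑ t ∈ Ico a (a + n), ‖∑ r ∈ R, c r * ee (t * θ r)‖ ^ 2 ≤
      (h * (n + h - 1 : ℕ) + 1 / δ ^ 2) * ∑ r ∈ R, ‖c r‖ ^ 2 := by
  classical
  refine (majorant _ (fun t => by positivity) a n h).trans ?_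
  set n' := n + h - 1
  set B : ι → ι → ℝ := fun r s => if r = s then h * n' else 1 / (4 * dz (θ r - θ s) ^ 2) with hB
  have Bs : ∀ r s, B r s = B s r := fun r s => by
    simp only [hB, eq_comm (a := s)]
    rw [← dz_neg, neg_sub]
  have B0 : ∀ r s, 0 ≤ B r s := fun r s => by simp only [hB]; split_ifs <;> positivity
  have e1 : ((∑ i ∈ range h, ∑ j ∈ range n',
      ‖∑ r ∈ R, c r * ee ((a - h + 1 + i + j : ℤ) * θ r)‖ ^ 2 : ℝ) : ℂ) =
      ∑ r ∈ R, ∑ s ∈ R, c r * (starRingEnd ℂ) (c s) * ee ((a - h + 1 : ℤ) * (θ r - θ s)) *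
        ((∑ i ∈ range h, ee (i * (θ r - θ s))) * ∑ j ∈ range n', ee (j * (θ r - θ s))) := by
    push_cast
    simp only [← Complex.mul_conj', map_sum, sum_mul_sum, map_mul, conj_ee]
    simp only [mul_sum]
    rw [sum_congr rfl fun i _ => sum_comm, sum_comm]
    refine sum_congr rfl fun r _ => ?_
    rw [sum_congr rfl fun i _ => sum_comm, sum_comm]
    refine sum_congr rfl fun s _ => sum_congr rfl fun i _ => sum_congr rfl fun j _ => ?_
    rw [mul_mul_mul_comm, ← ee_add, mul_assoc _ (ee _), ← ee_add, ← ee_add]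
    congr 2
    ring
  have e2 : ∀ r ∈ R, ∀ s ∈ R, ‖c r * (starRingEnd ℂ) (c s) * ee ((a - h + 1 : ℤ) * (θ r - θ s)) *
        ((∑ i ∈ range h, ee (i * (θ r - θ s))) * ∑ j ∈ range n', ee (j * (θ r - θ s)))‖ ≤
      (‖c r‖ ^ 2 * B r s + ‖c s‖ ^ 2 * B s r) / 2 := by
    intro r hr s hs'
    have : ‖(∑ i ∈ range h, ee (i * (θ r - θ s))) * ∑ j ∈ range n', ee (j * (θ r - θ s))‖ ≤
        B r s := by
      simp only [hB]
      split_ifs with hrs
      · simp [hrs, ee_zero]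
      · have hd : 0 < dz (θ r - θ s) := hδ.trans_le (hs r hr s hs' hrs _)
        rw [norm_mul]
        refine (mul_le_mul (norm_geom_le _ hd) (norm_geom_le _ hd) (norm_nonneg _)
          (by positivity)).trans (le_of_eq ?_)
        field_simp; ring
    rw [norm_mul, norm_mul, norm_mul, norm_ee, mul_one, Complex.norm_conj, ← Bs r s]
    refine (mul_le_mul_of_nonneg_left this (by positivity)).trans ?_
    nlinarith [mul_nonneg (sq_nonneg (‖c r‖ - ‖c s‖)) (B0 r s)]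
  have e3 : ∀ r ∈ R, ∑ s ∈ R, B r s ≤ h * n' + 1 / δ ^ 2 := by
    intro r hr
    rw [← add_sum_erase _ _ hr]
    have := sep_sum (R.erase r) (fun s => θ r - θ s - round (θ r - θ s)) hδ
      (fun s hs' => hs r hr s (mem_of_mem_erase hs') (ne_of_mem_erase hs').symm _)
      fun s h1 s' h2 hne => by
        have := hs s' (mem_of_mem_erase h2) s (mem_of_mem_erase h1) hne.symm
          (round (θ r - θ s) - round (θ r - θ s'))
        refine this.trans (le_of_eq ?_)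
        congr 1; push_cast; ring
    have e : ∑ s ∈ R.erase r, B r s =
        (∑ s ∈ R.erase r, 1 / (θ r - θ s - round (θ r - θ s)) ^ 2) / 4 := by
      rw [sum_div]
      refine sum_congr rfl fun s hs' => ?_
      simp only [hB, if_neg (ne_of_mem_erase hs').symm, dz, sq_abs]
      rw [div_div, mul_comm]
    have e' : B r r = h * n' := by simp [hB]
    rw [e, e']
    have : 4 / δ ^ 2 = 4 * (1 / δ ^ 2) := by ring
    linarith
  refine (le_abs_self _).trans ?_
  rw [← Real.norm_eq_abs, ← Complex.norm_real, e1]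
  refine ((norm_sum_le _ _).trans (sum_le_sum fun r hr => (norm_sum_le _ _).trans
    (sum_le_sum fun s hs' => e2 r hr s hs'))).trans ?_
  simp only [add_div, sum_add_distrib]
  rw [sum_comm (f := fun r s => ‖c s‖ ^ 2 * B s r / 2), ← sum_add_distrib, mul_sum]
  refine sum_le_sum fun r hr => ?_
  rw [← sum_add_distrib]
  simp only [add_halves]
  rw [← mul_sum, mul_comm]
  exact mul_le_mul_of_nonneg_right (e3 r hr) (by positivity)

theorem root_sum {p : ℕ} (hp : 0 < p) {m : ℤ} (h : ¬ (p : ℤ) ∣ m) :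
    ∑ k ∈ Ico 1 p, ee (k * (m / p)) = -1 := by
  have hp' : (p : ℝ) ≠ 0 := by exact_mod_cast hp.ne'
  have h1 : ee (m / p) ≠ 1 := by
    intro h1
    have h2 := four_dz_le (m / p)
    rw [h1, sub_self, norm_zero, dz] at h2
    have h3 : (m : ℝ) / p - round ((m : ℝ) / p) = 0 := abs_nonpos_iff.1 (by linarith)
    refine h ⟨round ((m : ℝ) / p), ?_⟩
    rw [sub_eq_zero, div_eq_iff hp', mul_comm] at h3
    exact_mod_cast h3
  have h2 : (∑ i ∈ range p, ee (i * (m / p))) * (ee (m / p) - 1) = 0 := by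
    simp only [ee_nat_mul]
    rw [geom_sum_mul, ← ee_nat_mul, mul_div_cancel₀ _ hp', ee_int, sub_self]
  have h3 := (mul_eq_zero.1 h2).resolve_right (sub_ne_zero.2 h1)
  rw [range_eq_Ico, sum_eq_sum_Ico_succ_bot hp] at h3
  simp only [Nat.cast_zero, zero_mul, ee_zero, zero_add] at h3
  linear_combination h3

theorem sigma_sum {M : Type*} [CommSemiring M] (P : Finset ℕ) (W : Finset (Finset ℕ))
    (hW : ∀ S ∈ W, S ⊆ P) (F : ℕ → ℕ → M) (hF : ∀ p, F p 0 = 1) :
    ∑ r ∈ W.sigma fun S => Fintype.piFinset fun p : P => if p.1 ∈ S then Ico 1 p.1 else {0},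
      ∏ p : P, F p.1 (r.2 p) = ∑ S ∈ W, ∏ p ∈ S, ∑ k ∈ Ico 1 p, F p k := by
  rw [sum_sigma]
  refine sum_congr rfl fun S hS => ?_
  rw [← prod_univ_sum (fun p : P => if p.1 ∈ S then Ico 1 p.1 else {0}) fun p k => F p.1 k,
    prod_coe_sort P fun p => ∑ k ∈ (if p ∈ S then Ico 1 p else {0}), F p k]
  rw [← prod_subset (hW S hS) fun p _ hp => by simp [hp, hF]]
  exact prod_congr rfl fun p hp => by simp [hp]

theorem farey_sep {P : Finset ℕ} (hP : ∀ p ∈ P, p.Prime) {U : Finset ℕ} (hU : U ⊆ P)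
    {a b : P → ℕ} (ha : ∀ p, a p < p.1) (hb : ∀ p, b p < p.1)
    (h0 : ∀ p : P, p.1 ∉ U → a p = b p) (hne : a ≠ b) (k : ℤ) :
    1 ≤ (∏ p ∈ U, (p : ℝ)) * |∑ p : P, (a p : ℝ) / p.1 - ∑ p : P, (b p : ℝ) / p.1 - k| := by
  obtain ⟨q, hq⟩ := Function.ne_iff.1 hne
  have hqU : q.1 ∈ U := by by_contra h; exact hq (h0 q h)
  have hqp := hP q.1 q.2
  set m : ℤ := ∑ p : P, ((a p : ℤ) - b p) * (∏ r ∈ U.erase p.1, r : ℕ) - k * (∏ p ∈ U, p : ℕ)
    with hm
  have e : (∏ p ∈ U, (p : ℝ)) * (∑ p : P, (a p : ℝ) / p.1 - ∑ p : P, (b p : ℝ) / p.1 - k) = m := by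
    rw [hm, ← sum_sub_distrib, mul_sub, mul_sum]
    push_cast
    congr 1
    · refine sum_congr rfl fun p _ => ?_
      by_cases h : p.1 ∈ U
      · have : (p.1 : ℝ) ≠ 0 := by exact_mod_cast (hP p.1 p.2).ne_zero
        rw [← mul_prod_erase U (fun r => (r : ℝ)) h]
        field_simp
      · rw [h0 p h]; simp
    · ring
  have hm0 : m ≠ 0 := by
    intro h
    have h1 : (q.1 : ℤ) ∣ ((a q : ℤ) - b q) * (∏ r ∈ U.erase q.1, r : ℕ) := by
      rw [hm, ← add_sum_erase _ _ (mem_univ q), add_sub_assoc, add_eq_zero_iff_eq_neg] at h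
      rw [h, dvd_neg]
      refine dvd_sub (dvd_sum fun p hp => Dvd.dvd.mul_left ?_ _) (Dvd.dvd.mul_left ?_ _)
      · exact Int.natCast_dvd_natCast.2 (dvd_prod_of_mem _
          (mem_erase.2 ⟨fun h => ne_of_mem_erase hp (Subtype.ext h.symm), hqU⟩))
      · exact Int.natCast_dvd_natCast.2 (dvd_prod_of_mem _ hqU)
    rcases (Nat.prime_iff_prime_int.1 hqp).dvd_or_dvd h1 with h2 | h2
    · have := ha q
      have := hb q
      have := Int.eq_zero_of_abs_lt_dvd h2 (abs_lt.2 ⟨by omega, by omega⟩)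
      omega
    · obtain ⟨r, hr, h3⟩ := (hqp.prime.dvd_finsetProd_iff _).1 (Int.natCast_dvd_natCast.1 h2)
      exact ne_of_mem_erase hr
        ((Nat.prime_dvd_prime_iff_eq hqp (hP r (hU (mem_of_mem_erase hr)))).1 h3).symm
  rw [← abs_of_nonneg (a := ∏ p ∈ U, (p : ℝ)) (by positivity), ← abs_mul, e]
  exact_mod_cast Int.one_le_abs hm0

/-- the arithmetic large sieve -/
theorem large_sieve {z : ℕ} {α β : ℕ → ℤ} (ho : Ok z α β) (x : ℝ) {Y Q : ℝ} (hY : 0 ≤ Y)
    (hQ : 1 ≤ Q) : Sv z α β x Y * G z Q ≤ Y + 1 + 2 * Q ^ 2 := by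
  classical
  set P := PZ z with hP
  set W := P.powerset.filter fun S : Finset ℕ => ∏ p ∈ S, (p : ℝ) ≤ Q with hW
  have hWP : ∀ S ∈ W, S ⊆ P := fun S hS => mem_powerset.1 (mem_filter.1 hS).1
  have hG : G z Q = ∑ S ∈ W, ∏ p ∈ S, 2 / ((p : ℝ) - 2) := by rw [hW, sum_filter]; rfl
  set R := W.sigma fun S => Fintype.piFinset fun p : P => if p.1 ∈ S then Ico 1 p.1 else {0}
    with hR
  set γ : ℕ → ℕ → ℂ := fun p k => if k = 0 then 1 else
    -((1 / ((p : ℝ) - 2) : ℝ) : ℂ) * (ee (k * ((-α p : ℤ) / p)) + ee (k * ((-β p : ℤ) / p))) with hγ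
  have pp : ∀ p ∈ P, p.Prime := fun p hp => (mem_PZ.1 hp).1
  have hsep : ∀ r ∈ R, ∀ s ∈ R, r ≠ s → ∀ k : ℤ,
      1 / Q ^ 2 ≤ |∑ p : P, (r.2 p : ℝ) / p.1 - ∑ p : P, (s.2 p : ℝ) / p.1 - k| := by
    rintro ⟨S, a⟩ hr ⟨T, b⟩ hs hne k
    obtain ⟨hS, ha⟩ := mem_sigma.1 hr
    obtain ⟨hT, hb⟩ := mem_sigma.1 hs
    have key : ∀ (S : Finset ℕ) (a : P → ℕ), a ∈ (Fintype.piFinset fun p : P =>
        if p.1 ∈ S then Ico 1 p.1 else {0}) → ∀ p : P, a p < p.1 ∧ (a p = 0 ↔ p.1 ∉ S) := by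
      intro S a ha p
      have h1 := Fintype.mem_piFinset.1 ha p
      have h2 := (pp p.1 p.2).pos
      split_ifs at h1 with h
      · have := mem_Ico.1 h1
        exact ⟨this.2, fun h' => by omega, fun h' => absurd h h'⟩
      · have := mem_singleton.1 h1
        exact ⟨by omega, fun _ => h, fun _ => this⟩
    have hab : a ≠ b := by
      rintro rfl
      refine hne ?_
      obtain rfl : S = T := by
        ext p
        by_cases hp : p ∈ P
        · exact not_iff_not.1 ((key S a ha ⟨p, hp⟩).2.symm.trans (key T a hb ⟨p, hp⟩).2)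
        · exact iff_of_false (fun h => hp (hWP S hS h)) fun h => hp (hWP T hT h)
      rfl
    have h1 := farey_sep pp (union_subset (hWP S hS) (hWP T hT)) (fun p => (key S a ha p).1)
      (fun p => (key T b hb p).1) (fun p hp => by
        rw [mem_union, not_or] at hp
        rw [(key S a ha p).2.2 hp.1, (key T b hb p).2.2 hp.2]) hab k
    have h2 : ∏ p ∈ S ∪ T, (p : ℝ) ≤ Q ^ 2 := by
      have h3 : 1 ≤ ∏ p ∈ S ∩ T, (p : ℝ) := Finset.one_le_prod fun p hp => by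
        exact_mod_cast (pp p (hWP S hS (mem_inter.1 hp).1)).pos
      have h4 := prod_union_inter (s₁ := S) (s₂ := T) (f := fun p => (p : ℝ))
      have h5 := mul_le_mul (mem_filter.1 hS).2 (mem_filter.1 hT).2 (by positivity) (by linarith)
      have h6 : 0 ≤ ∏ p ∈ S ∪ T, (p : ℝ) := by positivity
      nlinarith
    rw [div_le_iff₀ (by positivity), mul_comm]
    exact h1.trans (mul_le_mul_of_nonneg_right h2 (abs_nonneg _))
  have hnorm : ∑ r ∈ R, ‖∏ p : P, γ p.1 (r.2 p)‖ ^ 2 = G z Q := by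
    simp only [norm_prod, ← prod_pow]
    rw [hR, sigma_sum P W hWP (fun p k => ‖γ p k‖ ^ 2) (fun p => by simp [hγ]), hG]
    refine sum_congr rfl fun S hS => prod_congr rfl fun p hp => ?_
    have hp' := hWP S hS hp
    have h5 : (5 : ℝ) ≤ p := by exact_mod_cast (mem_PZ.1 hp').2.1
    have h0 := (pp p hp').pos
    have r1 := root_sum h0 (ho p hp')
    have r2 := root_sum h0 (m := -(α p - β p)) (by rw [dvd_neg]; exact ho p hp')
    apply Complex.ofReal_injective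
    have e : ∀ k ∈ Ico 1 p, ((‖γ p k‖ ^ 2 : ℝ) : ℂ) = ((1 / ((p : ℝ) - 2) : ℝ) : ℂ) ^ 2 *
        (2 + ee (k * ((α p - β p : ℤ) / p)) + ee (k * ((-(α p - β p) : ℤ) / p))) := by
      intro k hk
      have : k ≠ 0 := by have := mem_Ico.1 hk; omega
      rw [Complex.ofReal_pow, ← Complex.mul_conj']
      simp only [hγ, if_neg this, map_mul, map_neg, map_add, conj_ee, Complex.conj_ofReal]
      have a1 := ee_add (k * ((-α p : ℤ) / p)) (-(k * ((-α p : ℤ) / p)))
      have a2 := ee_add (k * ((-β p : ℤ) / p)) (-(k * ((-β p : ℤ) / p)))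
      have a3 := ee_add (k * ((-α p : ℤ) / p)) (-(k * ((-β p : ℤ) / p)))
      have a4 := ee_add (k * ((-β p : ℤ) / p)) (-(k * ((-α p : ℤ) / p)))
      rw [add_neg_cancel, ee_zero] at a1 a2
      rw [show (k : ℝ) * ((-α p : ℤ) / p) + -(k * ((-β p : ℤ) / p)) = k * ((-(α p - β p) : ℤ) / p) by
        push_cast; ring] at a3
      rw [show (k : ℝ) * ((-β p : ℤ) / p) + -(k * ((-α p : ℤ) / p)) = k * ((α p - β p : ℤ) / p) by
        push_cast; ring] at a4
      rw [a3, a4]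
      linear_combination (-((1 / ((p : ℝ) - 2) : ℝ) : ℂ) ^ 2) * (a1 + a2)
    rw [Complex.ofReal_sum, sum_congr rfl e, ← mul_sum, sum_add_distrib, sum_add_distrib, r1, r2,
      sum_const, Nat.card_Ico, nsmul_eq_mul, Nat.cast_sub h0]
    have : ((p : ℂ) - 2) ≠ 0 := by
      have : ((p : ℝ) - 2) ≠ 0 := by linarith
      exact_mod_cast this
    push_cast
    field_simp
    ring
  have hval : ∀ t ∈ SS z α β x Y,
      ∑ r ∈ R, (∏ p : P, γ p.1 (r.2 p)) * ee (t * ∑ p : P, (r.2 p : ℝ) / p.1) = G z Q := by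
    intro t ht
    simp only [mul_sum, ee_sum, ← prod_mul_distrib]
    rw [hR, sigma_sum P W hWP (fun p k => γ p k * ee (t * (k / p))) (fun p => by simp [hγ, ee_zero]),
      hG]
    push_cast
    refine sum_congr rfl fun S hS => prod_congr rfl fun p hp => ?_
    have hp' := hWP S hS hp
    have h0 := (pp p hp').pos
    have r1 := root_sum h0 ((mem_SS.1 ht).2 p hp').1
    have r2 := root_sum h0 ((mem_SS.1 ht).2 p hp').2
    have e : ∀ k ∈ Ico 1 p, γ p k * ee (t * (k / p)) = -((1 / ((p : ℝ) - 2) : ℝ) : ℂ) *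
        (ee (k * ((t - α p : ℤ) / p)) + ee (k * ((t - β p : ℤ) / p))) := by
      intro k hk
      have : k ≠ 0 := by have := mem_Ico.1 hk; omega
      simp only [hγ, if_neg this]
      rw [mul_assoc, add_mul, ← ee_add, ← ee_add]
      congr 3 <;> (push_cast; ring)
    rw [sum_congr rfl e, ← mul_sum, sum_add_distrib, r1, r2]
    push_cast
    ring
  set n := (seg x Y).card with hn
  set h := ⌈Q ^ 2⌉₊ with hh
  have hQ2 : 1 ≤ Q ^ 2 := one_le_pow₀ hQ
  have h1 : Q ^ 2 ≤ h := Nat.le_ceil _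
  have h2 : (h : ℝ) < Q ^ 2 + 1 := Nat.ceil_lt_add_one (by positivity)
  have h3 : 1 ≤ h := by exact_mod_cast hQ2.trans h1
  have key := dual_large_sieve R (fun r => ∑ p : P, (r.2 p : ℝ) / p.1)
    (fun r => ∏ p : P, γ p.1 (r.2 p)) (δ := 1 / Q ^ 2) (by positivity) hsep ⌈x⌉ n h
  have hseg : Ico ⌈x⌉ (⌈x⌉ + n) = seg x Y := by
    have h3 : ⌈x⌉ ≤ ⌈x + Y⌉ := Int.ceil_mono (by linarith)
    rw [hn, seg, Int.card_Ico, Int.toNat_of_nonneg (by omega)]
    congr 1; ring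
  rw [hnorm, hseg] at key
  have h4 : Sv z α β x Y * G z Q ^ 2 ≤ ∑ t ∈ seg x Y,
      ‖∑ r ∈ R, (∏ p : P, γ p.1 (r.2 p)) * ee (t * ∑ p : P, (r.2 p : ℝ) / p.1)‖ ^ 2 := by
    refine le_trans (le_of_eq ?_) (sum_le_sum_of_subset_of_nonneg (s := SS z α β x Y)
      (fun t ht => (mem_SS.1 ht).1) fun _ _ _ => by positivity)
    rw [sum_congr rfl fun t ht => by rw [hval t ht, Complex.norm_real, Real.norm_eq_abs, sq_abs],
      sum_const, nsmul_eq_mul, Sv]
  have h5 : (n : ℝ) ≤ Y + 1 := card_seg_le x hY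
  have h6 : ((n + h - 1 : ℕ) : ℝ) = n + h - 1 := by rw [Nat.cast_sub (by omega)]; push_cast; ring
  rw [h6, show 1 / (1 / Q ^ 2) ^ 2 = Q ^ 2 * Q ^ 2 by field_simp] at key
  have hh0 : (0 : ℝ) < h := by linarith
  rcases (G_nonneg z Q).eq_or_lt with h7 | h7
  · rw [← h7, mul_zero]; positivity
  refine le_of_mul_le_mul_right (le_of_mul_le_mul_left ?_ hh0) h7
  refine le_trans (le_of_eq (by ring)) (((mul_le_mul_of_nonneg_left h4 hh0.le).trans key).trans ?_)
  rw [← mul_assoc]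
  refine mul_le_mul_of_nonneg_right ?_ h7.le
  nlinarith

/-- upper bound from the large sieve -/
theorem UX_of_TX {z : ℕ} {X τ e : ℝ} (hX : 1024 ≤ X) (h : TX z X τ) (hτ : τ < 1)
    (he : 1 + 75 / 8192 ≤ (1 + e) * (1 - τ)) : UX z X e := by
  intro Y α β x hY ho
  have h1 : √(X / 1024) ^ 2 = X / 1024 := sq_sqrt (by positivity)
  have h2 := h √(X / 1024) (sqrt_nonneg _) (by rw [h1]; linarith)
  have h3 := large_sieve ho x (Y := Y) (by linarith) (Q := √(X / 1024))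
    (one_le_sqrt.2 (by linarith))
  have h4 := mul_le_mul_of_nonneg_left h2 (Sv_nonneg z α β x Y)
  have hV := V_pos z
  rw [h1] at h3
  have h5 : Sv z α β x Y * (1 - τ) ≤ (Y + 1 + 2 * (X / 1024)) * V z := by
    rw [← div_le_iff₀ hV, mul_div_assoc]; linarith
  refine le_of_mul_le_mul_right (h5.trans ?_) (sub_pos.2 hτ)
  rw [mul_assoc (Y * V z)]
  refine le_trans ?_ (mul_le_mul_of_nonneg_left he (mul_nonneg (by linarith) hV.le))
  rw [mul_right_comm]
  exact mul_le_mul_of_nonneg_right (by linarith) hV.le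

end Pool.Agent.P.MP_e94e4b_nt
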