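import Mathlib

/-! An explicit Mertens type estimate on windows. -/

namespace Pool.Agent.P.MP_e94e4b_nt

open Finset Real
open ArithmeticFunction (vonMangoldt vonMangoldt_sum vonMangoldt_nonneg vonMangoldt_apply_prime)

noncomputable def H (n : ℕ) : ℝ := ∑ m ∈ Ioc 0 n, 1 / (m : ℝ)
noncomputable def Lg (n : ℕ) : ℝ := ∑ m ∈ Ioc 0 n, 1 / (m : ℝ) * log m
noncomputable def Mv (n : ℕ) : ℝ := ∑ d ∈ Ioc 0 n, vonMangoldt d / d
noncomputable def Ps (n : ℕ) : ℝ := ∑ d ∈ Ioc 0 n, vonMangoldt d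

theorem sum_div_succ (f : ℕ → ℝ) (n d : ℕ) : ∑ m ∈ Ioc 0 ((n + 1) / d), f (d * m) =
    ∑ m ∈ Ioc 0 (n / d), f (d * m) + if d ∣ n + 1 then f (n + 1) else 0 := by
  split_ifs with h
  · rw [Nat.succ_div_of_dvd h, sum_Ioc_succ_top (Nat.zero_le _), ← Nat.succ_div_of_dvd h,
      Nat.mul_div_cancel' h]
  · rw [Nat.succ_div_of_not_dvd h, add_zero]

theorem conv (f : ℕ → ℝ) {T n : ℕ} (h : n ≤ T) : ∑ j ∈ Ioc 0 n, f j * log j =
    ∑ d ∈ Ioc 0 T, vonMangoldt d * ∑ m ∈ Ioc 0 (n / d), f (d * m) := by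
  induction n with
  | zero => simp
  | succ n ih =>
    rw [sum_Ioc_succ_top (Nat.zero_le _), ih (by omega)]
    simp only [sum_div_succ, mul_add, sum_add_distrib, mul_ite, mul_zero]
    congr 1
    rw [← sum_filter, ← sum_mul, mul_comm, ← vonMangoldt_sum]
    congr 2
    ext d
    simp only [Nat.mem_divisors, mem_filter, mem_Ioc]
    exact ⟨fun h' => ⟨⟨Nat.pos_of_dvd_of_pos h'.1 (by omega),
      (Nat.le_of_dvd (by omega) h'.1).trans h⟩, h'.1⟩, fun h' => ⟨h'.2, by omega⟩⟩

theorem log_fact {T n : ℕ} (h : n ≤ T) :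
    log n.factorial = ∑ d ∈ Ioc 0 T, vonMangoldt d * (n / d : ℕ) := by
  have := conv (fun _ => 1) h
  simp only [one_mul, sum_const, Nat.card_Ioc, Nat.sub_zero, nsmul_eq_mul, mul_one] at this
  rw [← this]
  clear this h
  induction n with
  | zero => simp
  | succ n ih =>
    rw [sum_Ioc_succ_top (Nat.zero_le _), ← ih, Nat.factorial_succ, Nat.cast_mul,
      log_mul (by positivity) (by positivity), add_comm]

theorem Ps_sub {a b : ℕ} (h : a ≤ b) : Ps b = Ps a + ∑ d ∈ Ioc a b, vonMangoldt d := by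
  rw [Ps, Ps, sum_Ioc_consecutive _ (Nat.zero_le _) h]

theorem Ps_nonneg (n : ℕ) : 0 ≤ Ps n := sum_nonneg fun _ _ => vonMangoldt_nonneg

theorem Ps_le (n : ℕ) : Ps n ≤ log 4 * n := by
  induction n using Nat.strong_induction_on with
  | _ n ih =>
  rcases Nat.lt_or_ge n 2 with h | h
  · have : 0 < log 4 := log_pos (by norm_num)
    interval_cases n <;> simp [Ps, this.le]
  set a := n / 2 with ha
  have h1 : n.choose a ≤ 4 ^ a := by
    rcases Nat.even_or_odd' n with ⟨b, rfl | rfl⟩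
    · rw [show a = b by omega, show 4 = 2 ^ 2 from rfl, ← pow_mul]; exact Nat.choose_le_two_pow _ _
    · rw [show a = b by omega]; exact Nat.choose_middle_le_pow b
  have an : a ≤ n := by omega
  have h2 : log (n.choose a) ≤ a * log 4 := by
    rw [← log_pow]
    exact log_le_log (by exact_mod_cast Nat.choose_pos an) (by exact_mod_cast h1)
  have h3 : log n.factorial = log (n.choose a) + log a.factorial + log (n - a).factorial := by
    have := (Nat.choose_pos an).ne'
    rw [← Nat.choose_mul_factorial_mul_factorial an, Nat.cast_mul, Nat.cast_mul,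
      log_mul (by positivity) (by positivity), log_mul (by positivity) (by positivity)]
  rw [log_fact le_rfl, log_fact an, log_fact (Nat.sub_le n a)] at h3
  have h4 : ∑ d ∈ Ioc (n - a) n, vonMangoldt d ≤ ∑ d ∈ Ioc 0 n, (vonMangoldt d * (n / d : ℕ) -
      vonMangoldt d * (a / d : ℕ) - vonMangoldt d * ((n - a) / d : ℕ)) := by
    refine le_trans (sum_le_sum fun d hd => ?_) (sum_le_sum_of_subset_of_nonneg
      (Ioc_subset_Ioc_left (Nat.zero_le (n - a))) fun d hd _ => ?_)
    · obtain ⟨h5, h6⟩ := mem_Ioc.1 hd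
      rw [Nat.div_eq_of_lt h5, Nat.div_eq_of_lt (by omega : a < d)]
      have : (1 : ℝ) ≤ (n / d : ℕ) := by exact_mod_cast Nat.div_pos h6 (by omega)
      simpa using le_mul_of_one_le_right vonMangoldt_nonneg this
    · have := Nat.div_add_div_le_add_div (x := a) (y := n - a) (z := d)
      rw [Nat.add_sub_cancel' an] at this
      have : ((a / d : ℕ) : ℝ) + ((n - a) / d : ℕ) ≤ (n / d : ℕ) := by exact_mod_cast this
      nlinarith [vonMangoldt_nonneg (n := d)]
  rw [sum_sub_distrib, sum_sub_distrib] at h4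
  have h5 := ih (n - a) (by omega)
  rw [Nat.cast_sub an] at h5
  rw [Ps_sub (Nat.sub_le n a)]
  linarith

theorem Lg_eq {T n : ℕ} (h : n ≤ T) : Lg n = ∑ d ∈ Ioc 0 T, vonMangoldt d / d * H (n / d) := by
  rw [Lg, conv (fun j => 1 / (j : ℝ)) h]
  refine sum_congr rfl fun d _ => ?_
  rw [H, div_eq_mul_one_div, mul_assoc]
  congr 1
  rw [mul_sum]
  refine sum_congr rfl fun m _ => ?_
  push_cast
  rw [one_div_mul_one_div]

theorem log_succ_lo {x : ℝ} (h : 0 < x) : 2 / (2 * x + 1) ≤ log (x + 1) - log x := by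
  have := le_log_one_add_of_nonneg (x := 1 / x) (by positivity)
  rw [← log_div (by positivity) h.ne', add_div, div_self h.ne']
  refine le_trans (le_of_eq ?_) this
  field_simp
  ring

theorem log_le_half {x : ℝ} (h : 1 ≤ x) : log x ≤ (x - 1 / x) / 2 := by
  have := self_le_sinh_iff.2 (log_nonneg h)
  rwa [sinh_log (by linarith), ← one_div] at this

theorem log_succ_up {x : ℝ} (h : 0 < x) : log (x + 1) - log x ≤ (1 / x + 1 / (x + 1)) / 2 := by
  rw [← log_div (by positivity) h.ne']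
  refine (log_le_half ((one_le_div h).2 (by linarith))).trans (le_of_eq ?_)
  field_simp
  ring

theorem two_le_log {x : ℝ} (h : 8 ≤ x) : 2 ≤ log x := by
  have := log_le_log (by norm_num) h
  rw [show (8 : ℝ) = 2 ^ 3 by norm_num, log_pow] at this
  have := log_two_gt_d9
  push_cast at *
  linarith

theorem sq_lo {x : ℝ} (h : 8 ≤ x) :
    1 / (x + 1) * log (x + 1) ≤ (log (x + 1) ^ 2 - log x ^ 2) / 2 := by
  have h1 := log_succ_lo (x := x) (by linarith)
  have h2 := log_succ_up (x := x) (by linarith)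
  have h3 := two_le_log (x := x + 1) (by linarith)
  have h4 : 1 / (x + 1) ≤ 1 / x := one_div_le_one_div_of_le (by linarith) (by linarith)
  have h5 : 1 / (x + 1) + (1 / x) ^ 2 / 4 ≤ 2 / (2 * x + 1) := by
    rw [div_pow, div_div, div_add_div _ _ (by positivity) (by positivity),
      div_le_div_iff₀ (by positivity) (by positivity)]
    nlinarith [mul_nonneg (sub_nonneg.2 h) (sq_nonneg x)]
  set u := log (x + 1) - log x with hu
  have h6 : 0 ≤ u := le_trans (by positivity) h1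
  have h7 : u ^ 2 ≤ (1 / x) ^ 2 := pow_le_pow_left₀ h6 (by linarith) 2
  rw [show log x = log (x + 1) - u by ring]
  nlinarith [mul_le_mul_of_nonneg_left (show (1 / x) ^ 2 / 4 ≤ u - 1 / (x + 1) by linarith)
    (show 0 ≤ log (x + 1) by linarith), sq_nonneg (1 / x)]

theorem sq_up {x : ℝ} (h : 8 ≤ x) : (log (x + 1) ^ 2 - log x ^ 2) / 2 ≤ 1 / x * log x := by
  have h1 := log_succ_lo (x := x) (by linarith)
  have h2 := log_succ_up (x := x) (by linarith)
  have h3 := two_le_log h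
  have h4 : 1 / (x + 1) ≤ 1 / x := one_div_le_one_div_of_le (by linarith) (by linarith)
  have h5 : 1 / (x + 1) + (1 / x) ^ 2 / 2 ≤ 1 / x := by
    rw [div_pow, div_div, div_add_div _ _ (by positivity) (by positivity),
      div_le_div_iff₀ (by positivity) (by positivity)]
    nlinarith [mul_nonneg (sub_nonneg.2 h) (sq_nonneg x)]
  set u := log (x + 1) - log x with hu
  have h6 : 0 ≤ u := le_trans (by positivity) h1
  have h7 : u ^ 2 ≤ (1 / x) ^ 2 := pow_le_pow_left₀ h6 (by linarith) 2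
  rw [show log (x + 1) = log x + u by ring]
  nlinarith [mul_le_mul_of_nonneg_left (show (1 / x) ^ 2 / 4 ≤ 1 / x - u by linarith)
    (show 0 ≤ log x by linarith), sq_nonneg (1 / x)]

theorem Lg_mono {a : ℕ} (h : 8 ≤ a) {n : ℕ} (hn : a ≤ n) :
    Lg n - log n ^ 2 / 2 ≤ Lg a - log a ^ 2 / 2 ∧
      Lg a - log (a + 1) ^ 2 / 2 ≤ Lg n - log (n + 1) ^ 2 / 2 := by
  induction n, hn using Nat.le_induction with
  | base => exact ⟨le_rfl, le_rfl⟩
  | succ n hn ih =>
    have h8 : (8 : ℝ) ≤ n := by exact_mod_cast h.trans hn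
    have h1 := sq_lo h8
    have h2 := sq_up (x := n + 1) (by linarith)
    rw [Lg, sum_Ioc_succ_top (Nat.zero_le _), ← Lg]
    push_cast
    constructor <;> linarith [ih.1, ih.2]

theorem div_bounds (t : ℕ) {k : ℕ} (hk : 0 < k) :
    ((t / k : ℕ) : ℝ) ≤ t / k ∧ (t : ℝ) / k ≤ (t / k : ℕ) + 1 := by
  refine ⟨Nat.cast_div_le, ?_⟩
  rw [div_le_iff₀ (by exact_mod_cast hk)]
  exact_mod_cast (by rw [mul_comm]; exact (Nat.lt_mul_div_succ t hk).le : t ≤ (t / k + 1) * k)

theorem log_B : 11.09 ≤ log 65535 ∧ log 65536 ≤ 11.091 := by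
  have h1 := log_succ_up (x := 65535) (by norm_num)
  have : log 65536 = 16 * log 2 := by
    rw [show (65536 : ℝ) = 2 ^ 16 by norm_num, log_pow]; norm_num
  have := log_two_gt_d9
  have := log_two_lt_d9
  norm_num at *
  constructor <;> linarith

theorem Lg_win (k : ℕ) (hk : 0 < k) (hk' : k ≤ 30) : ∃ A : ℝ, ∀ t : ℕ, 65535 ≤ t →
    A - k / 5900 ≤ Lg (t / k) - (log t - log k) ^ 2 / 2 ∧
      Lg (t / k) - (log t - log k) ^ 2 / 2 ≤ A := by
  set a := 65535 / k with ha
  have k0 : (0 : ℝ) < k := by exact_mod_cast hk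
  have k30 : (k : ℝ) ≤ 30 := by exact_mod_cast hk'
  have a8 : 8 ≤ a := (Nat.le_div_iff_mul_le hk).2 (by omega)
  have a8' : (8 : ℝ) ≤ a := by exact_mod_cast a8
  refine ⟨Lg a - log a ^ 2 / 2, fun t ht => ?_⟩
  have h0 : a ≤ t / k := Nat.div_le_div_right ht
  obtain ⟨h1, h2⟩ := Lg_mono a8 h0
  obtain ⟨h3, h4⟩ := div_bounds t hk
  have t0 : (0 : ℝ) < t := by exact_mod_cast (by omega : 0 < t)
  have n8 : (8 : ℝ) ≤ (t / k : ℕ) := by exact_mod_cast a8.trans h0
  rw [← log_div t0.ne' k0.ne']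
  have l0 := two_le_log n8
  have h5 : log (t / k : ℕ) ^ 2 ≤ log (t / k) ^ 2 :=
    pow_le_pow_left₀ (by linarith) (log_le_log (by linarith) h3) 2
  have h6 : log (t / k) ^ 2 ≤ log ((t / k : ℕ) + 1) ^ 2 :=
    pow_le_pow_left₀ (log_nonneg (by linarith)) (log_le_log (by linarith) h4) 2
  have h7 := sq_up a8'
  have h8 : log a ≤ 11.091 := le_trans (log_le_log (by linarith)
    (by exact_mod_cast (Nat.div_le_self _ _).trans (by norm_num))) log_B.2
  have h9 := (div_bounds 65535 hk).2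
  rw [div_le_iff₀ k0, ← ha] at h9
  have h10 : 1 / (a : ℝ) * log a ≤ k / 5900 := by
    rw [one_div_mul_eq_div, div_le_div_iff₀ (by linarith) (by norm_num)]
    push_cast at h9
    nlinarith
  constructor <;> linarith

theorem H_win {n k : ℕ} (hk : 0 < k) (hk' : k ≤ 30) (hn : 4096 ≤ n) :
    -(k / (n - 30)) ≤ H (n / k) - (log n - log k) - eulerMascheroniConstant ∧
      H (n / k) - (log n - log k) - eulerMascheroniConstant ≤ k / (n - 30) := by
  have k0 : (0 : ℝ) < k := by exact_mod_cast hk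
  have k30 : (k : ℝ) ≤ 30 := by exact_mod_cast hk'
  have n0 : (4096 : ℝ) ≤ n := by exact_mod_cast hn
  obtain ⟨h3, h4⟩ := div_bounds n hk
  set m := n / k with hm
  have m0 : 0 < m := Nat.div_pos (by omega) hk
  have m0' : (0 : ℝ) < m := by exact_mod_cast m0
  have e : H m = harmonic m := by
    rw [harmonic_eq_sum_Icc, H]
    push_cast
    simp only [one_div]
    rfl
  have h1 := eulerMascheroniSeq_lt_eulerMascheroniConstant m
  have h2 := eulerMascheroniConstant_lt_eulerMascheroniSeq' m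
  rw [eulerMascheroniSeq] at h1
  rw [eulerMascheroniSeq', if_neg m0.ne'] at h2
  have h5 := log_succ_up m0'
  have h6 : 1 / ((m : ℝ) + 1) ≤ 1 / m := one_div_le_one_div_of_le m0' (by linarith)
  have h7 : 1 / (m : ℝ) ≤ k / (n - 30) := by
    rw [div_le_div_iff₀ m0' (by linarith)]
    rw [div_le_iff₀ k0] at h4
    linarith
  have h8 := log_le_log m0' h3
  have h9 := log_le_log (by positivity) h4
  rw [← log_div (by positivity) k0.ne', e]
  constructor <;> linarith

/-- the invariant of the majorant computation -/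
def Inv (η : ℕ → ℝ) (n : ℕ) (m w : ℝ) : Prop := 0 ≤ m ∧ ∀ t : ℕ, 0 < t →
  ∑ d ∈ Ioc (t / (n + 1)) t, vonMangoldt d / d * η (t / d) + m * Ps (t / (n + 1)) / t ≤ log 4 * w

theorem Inv.zero (η : ℕ → ℝ) : Inv η 0 0 0 := ⟨le_rfl, fun t _ => by simp⟩

theorem Inv.step {η : ℕ → ℝ} {n : ℕ} {m w m' w' : ℝ} (h : Inv η n m w) (h1 : m ≤ m')
    (h2 : (n + 2) * η (n + 1) ≤ m') (h3 : w + (m' - m) / (n + 1) ≤ w') : Inv η (n + 1) m' w' := by
  have m0 := h.1.trans h1
  refine ⟨m0, fun t ht => ?_⟩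
  have t0 : (0 : ℝ) < t := by exact_mod_cast ht
  have a1 : t / (n + 1 + 1) ≤ t / (n + 1) := Nat.div_le_div_left (by omega) (by omega)
  have a2 := h.2 t ht
  rw [← sum_Ioc_consecutive _ a1 (Nat.div_le_self _ _)]
  have a3 : ∑ d ∈ Ioc (t / (n + 1 + 1)) (t / (n + 1)), vonMangoldt d / d * η (t / d) ≤
      ∑ d ∈ Ioc (t / (n + 1 + 1)) (t / (n + 1)), m' / t * vonMangoldt d := by
    refine sum_le_sum fun d hd => ?_
    obtain ⟨b1, b2⟩ := mem_Ioc.1 hd
    have d0 : 0 < d := Nat.zero_lt_of_lt b1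
    rw [Nat.div_lt_iff_lt_mul (by omega)] at b1
    rw [Nat.le_div_iff_mul_le (by omega)] at b2
    have e : t / d = n + 1 := Nat.div_eq_of_lt_le (by rwa [mul_comm]) (by rwa [mul_comm])
    have d0' : (0 : ℝ) < d := by exact_mod_cast d0
    have b3 : (t : ℝ) ≤ d * (n + 2) := by exact_mod_cast b1.le
    rw [e, div_mul_eq_mul_div, mul_div_assoc, mul_comm]
    refine mul_le_mul_of_nonneg_right ?_ vonMangoldt_nonneg
    have b4 : η (n + 1) ≤ m' / (n + 2) := by rw [le_div_iff₀ (by positivity)]; linarith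
    refine (div_le_div_of_nonneg_right b4 d0'.le).trans ?_
    rw [div_div]
    exact div_le_div_of_nonneg_left m0 t0 (by linarith)
  rw [← mul_sum] at a3
  have a4 := Ps_sub a1
  have a5 : Ps (t / (n + 1)) / t ≤ log 4 / (n + 1) := by
    have := (div_bounds t (Nat.succ_pos n)).1
    have l4 : 0 < log 4 := log_pos (by norm_num)
    rw [div_le_iff₀ t0]
    refine (Ps_le _).trans ((mul_le_mul_of_nonneg_left this l4.le).trans (le_of_eq ?_))
    push_cast
    ring
  have a6 := mul_le_mul_of_nonneg_left a5 (sub_nonneg.2 h1)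
  have a7 := mul_le_mul_of_nonneg_left h3 (log_pos (by norm_num : (1 : ℝ) < 4)).le
  have e1 : m' * Ps (t / (n + 1)) / t = m' * Ps (t / (n + 1 + 1)) / t +
      m' / t * ∑ d ∈ Ioc (t / (n + 1 + 1)) (t / (n + 1)), vonMangoldt d := by rw [a4]; ring
  have e2 : (m' - m) * (Ps (t / (n + 1)) / t) =
      m' * Ps (t / (n + 1)) / t - m * Ps (t / (n + 1)) / t := by ring
  have e3 : log 4 * (w + (m' - m) / (n + 1)) = log 4 * w + (m' - m) * (log 4 / (n + 1)) := by ring
  linarith

theorem Inv.fin {η : ℕ → ℝ} {n : ℕ} {m w M w' : ℝ} (h : Inv η n m w) (h1 : m ≤ M)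
    (h2 : ∀ j : ℕ, n ≤ j → (j + 2) * η (j + 1) ≤ M) (h3 : w + (M - m) / (n + 1) ≤ w') (t : ℕ)
    (ht : n < t) : ∑ d ∈ Ioc 0 t, vonMangoldt d / d * η (t / d) ≤ log 4 * w' := by
  have : ∀ j, n + 1 ≤ j → Inv η j M w' := by
    intro j hj
    induction j, hj using Nat.le_induction with
    | base => exact h.step h1 (h2 n le_rfl) h3
    | succ j hj ih => exact ih.step le_rfl (h2 j (by omega)) (by simp)
  have := (this t ht).2 t (by omega)
  rw [Nat.div_eq_of_lt (Nat.lt_succ_self t)] at this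
  simpa [Ps] using this

/-- force the evaluation of a number -/
@[irreducible] def frc (x : ℕ) (k : ℕ → Bool) : Bool := Nat.casesOn x (k 0) fun n => k n.succ

theorem frc_true {x : ℕ} {k : ℕ → Bool} (h : frc x k = true) : k x = true := by
  unfold frc at h
  cases x <;> exact h

/-- the majorant computation, scale `2 ^ 40` -/
noncomputable def goM (a b : ℕ → ℕ) (M W : ℕ) (f : ℕ) : ℕ → ℕ → ℕ → ℕ → ℕ → Bool :=
  Nat.rec (fun n _ _ m w => Nat.ble m M && Nat.ble (w + (M - m) / (n + 1) + 1) W)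
    (fun _ ih n P Q m w =>
      frc (n + 1) fun n' =>
      frc (P + a n' * 1099511627776 / n' + 1) fun P' =>
      frc (Q + b n' * 1099511627776 / n') fun Q' =>
      frc (max m ((n' + 1) * (P' - Q'))) fun m' =>
      frc (w + (m' - m) / n' + 1) fun w' => ih n' P' Q' m' w') f

theorem cast_div_lt (a : ℕ) {b : ℕ} (hb : 0 < b) : (a : ℝ) / b ≤ (a / b : ℕ) + 1 :=
  (div_bounds a hb).2

theorem cast_sub_ge (a b : ℕ) : (a : ℝ) - b ≤ (a - b : ℕ) := by
  rcases le_total b a with h | h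
  · rw [Nat.cast_sub h]
  · exact le_trans (sub_nonpos.2 (by exact_mod_cast h)) (Nat.cast_nonneg _)

theorem goM_spec (a b : ℕ → ℕ) (M W : ℕ) (η : ℕ → ℝ)
    (hη : ∀ n : ℕ, η (n + 1) = η n + (a (n + 1) - b (n + 1)) * 1099511627776 / (n + 1))
    (f : ℕ) : ∀ n P Q m w : ℕ, η n ≤ P - Q → Inv η n m w → goM a b M W f n P Q m w = true →
      (∀ j : ℕ, n + f ≤ j → (j + 2) * η (j + 1) ≤ M) → ∀ t, n + f < t →
      ∑ d ∈ Ioc 0 t, vonMangoldt d / d * η (t / d) ≤ log 4 * W := by
  induction f with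
  | zero =>
    intro n P Q m w _ h2 h3 h4
    simp only [goM, Nat.rec_zero, Bool.and_eq_true, Nat.ble_eq] at h3
    refine h2.fin (by exact_mod_cast h3.1) h4 (le_trans ?_ (Nat.cast_le.2 h3.2))
    have := cast_div_lt (M - m) (Nat.succ_pos n)
    rw [Nat.cast_sub h3.1] at this
    push_cast at this ⊢
    linarith
  | succ f ih =>
    intro n P Q m w h1 h2 h3 h4
    rw [← add_assoc, add_right_comm] at h4 ⊢
    iterate 5 replace h3 := frc_true h3
    have h5 : η (n + 1) ≤ (P + a (n + 1) * 1099511627776 / (n + 1) + 1 : ℕ) -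
        (Q + b (n + 1) * 1099511627776 / (n + 1) : ℕ) := by
      have a1 := cast_div_lt (a (n + 1) * 1099511627776) (Nat.succ_pos n)
      have a2 := (div_bounds (b (n + 1) * 1099511627776) (Nat.succ_pos n)).1
      rw [hη, sub_mul, sub_div]
      simp only [Nat.cast_add, Nat.cast_mul, Nat.cast_ofNat, Nat.cast_one, Nat.succ_eq_add_one]
        at a1 a2 ⊢
      linarith
    refine ih _ _ _ _ _ h5 (h2.step (Nat.cast_le.2 (le_max_left _ _))
      (le_trans ?_ (Nat.cast_le.2 (le_max_right _ _))) ?_) h3 h4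
    · rw [Nat.cast_mul, show ((n + 1 + 1 : ℕ) : ℝ) = n + 2 by push_cast; ring]
      exact mul_le_mul_of_nonneg_left (h5.trans (cast_sub_ge _ _)) (by positivity)
    · generalize (n + 1 + 1) * _ = x
      have := cast_div_lt (max m x - m) (Nat.succ_pos n)
      rw [Nat.cast_sub (le_max_left _ _)] at this
      simp only [Nat.cast_add, Nat.cast_one, Nat.succ_eq_add_one] at this ⊢
      linarith

/-- the indicator of divisibility -/
def iv (k n : ℕ) : ℕ := if n % k = 0 then 1 else 0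

theorem H_succ {k : ℕ} (hk : 0 < k) (n : ℕ) :
    H ((n + 1) / k) = H (n / k) + k * (iv k (n + 1) / (n + 1)) := by
  have := sum_div_succ (fun j => k / (j : ℝ)) n k
  have k0 : (k : ℝ) ≠ 0 := by exact_mod_cast hk.ne'
  simp only [Nat.cast_mul, div_mul_cancel_left₀ k0, ← one_div] at this
  rw [H, H, this, iv]
  simp only [Nat.dvd_iff_mod_eq_zero]
  split_ifs <;> simp [div_eq_mul_inv]

noncomputable def Phi (n : ℕ) : ℝ := 100 * H (n / 1) - 100 / 2 * H (n / 2) - 100 / 3 * H (n / 3) -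
  100 / 5 * H (n / 5) + 37 / 6 * H (n / 6) - 5 / 10 * H (n / 10) - 33 / 15 * H (n / 15) -
  4 / 30 * H (n / 30)

noncomputable def kap : ℝ := 100 / 2 * log 2 + 100 / 3 * log 3 + 100 / 5 * log 5 - 37 / 6 * log 6 +
  5 / 10 * log 10 + 33 / 15 * log 15 + 4 / 30 * log 30

theorem kap_bd : 99.9798394 ≤ kap ∧ kap ≤ 99.9798396 := by
  have h6 : log 6 = log 2 + log 3 := by rw [← log_mul] <;> norm_num
  have h10 : log 10 = log 2 + log 5 := by rw [← log_mul] <;> norm_num
  have h15 : log 15 = log 3 + log 5 := by rw [← log_mul] <;> norm_num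
  have h30 : log 30 = log 6 + log 5 := by rw [← log_mul] <;> norm_num
  have := log_two_gt_d9
  have := log_two_lt_d9
  have := log_three_gt_d9
  have := log_three_lt_d9
  have := log_five_gt_d9
  have := log_five_lt_d9
  rw [kap]
  constructor <;> linarith

def ep (n : ℕ) : ℕ := 100 * iv 1 n + 37 * iv 6 n
def em (n : ℕ) : ℕ :=
  100 * iv 2 n + 100 * iv 3 n + 100 * iv 5 n + 5 * iv 10 n + 33 * iv 15 n + 4 * iv 30 n

theorem Phi_succ (n : ℕ) : Phi (n + 1) = Phi n + (ep (n + 1) - em (n + 1)) / (n + 1) := by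
  simp only [Phi, ep, em]
  rw [H_succ (k := 1), H_succ (k := 2), H_succ (k := 3), H_succ (k := 5), H_succ (k := 6),
    H_succ (k := 10), H_succ (k := 15), H_succ (k := 30)] <;> try norm_num
  ring

theorem Phi_tail {n : ℕ} (hn : 4096 ≤ n) :
    (n + 1) * (Phi n - kap) ≤ 483 ∧ (n + 1) * (kap - Phi n) ≤ 483 := by
  have n0 : (4096 : ℝ) ≤ n := by exact_mod_cast hn
  have h1 := H_win (k := 1) (by norm_num) (by norm_num) hn
  have h2 := H_win (k := 2) (by norm_num) (by norm_num) hn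
  have h3 := H_win (k := 3) (by norm_num) (by norm_num) hn
  have h5 := H_win (k := 5) (by norm_num) (by norm_num) hn
  have h6 := H_win (k := 6) (by norm_num) (by norm_num) hn
  have h10 := H_win (k := 10) (by norm_num) (by norm_num) hn
  have h15 := H_win (k := 15) (by norm_num) (by norm_num) hn
  have h30 := H_win (k := 30) (by norm_num) (by norm_num) hn
  simp only [div_eq_mul_inv _ ((n : ℝ) - 30), Nat.cast_ofNat, Nat.cast_one, log_one]
    at h1 h2 h3 h5 h6 h10 h15 h30
  have e : (n + 1 : ℝ) * (479 * (n - 30 : ℝ)⁻¹) ≤ 483 := by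
    rw [← div_eq_mul_inv, ← mul_div_assoc, div_le_iff₀ (by linarith)]; linarith
  constructor <;> refine le_trans (mul_le_mul_of_nonneg_left ?_ (by linarith)) e <;>
    rw [Phi, kap] <;> linarith [h1.1, h1.2, h2.1, h2.2, h3.1, h3.2, h5.1, h5.2, h6.1, h6.2, h10.1,
      h10.2, h15.1, h15.2, h30.1, h30.2]

theorem eta_up (t : ℕ) (ht : 4096 < t) :
    ∑ d ∈ Ioc 0 t, vonMangoldt d / d * ((Phi (t / d) - kap) * 1099511627776) ≤
      log 4 * (10140000000000 : ℕ) := by
  refine goM_spec ep em (483 * 1099511627776) _ (fun n => (Phi n - kap) * 1099511627776)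
    (fun n => by rw [Phi_succ]; ring) 4096 0 0 109928995960000 0 0 ?_ ?_ (by decide +kernel)
    (fun j hj => ?_) t ht
  · have := kap_bd.1
    simp only [Phi, Nat.zero_div, H, Ioc_self, sum_empty]
    push_cast
    linarith
  · simpa using Inv.zero _
  · have := (Phi_tail (n := j + 1) (by omega)).1
    push_cast at this ⊢
    linarith

theorem eta_lo (t : ℕ) (ht : 4096 < t) :
    ∑ d ∈ Ioc 0 t, vonMangoldt d / d * ((kap - Phi (t / d)) * 1099511627776) ≤
      log 4 * (14660000000000 : ℕ) := by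
  refine goM_spec em ep (483 * 1099511627776) _ (fun n => (kap - Phi n) * 1099511627776)
    (fun n => by rw [Phi_succ]; ring) 4096 0 109928996190000 0 0 0 ?_ ?_ (by decide +kernel)
    (fun j hj => ?_) t ht
  · have := kap_bd.2
    simp only [Phi, Nat.zero_div, H, Ioc_self, sum_empty]
    push_cast
    linarith
  · simpa using Inv.zero _
  · have := (Phi_tail (n := j + 1) (by omega)).2
    push_cast at this ⊢
    linarith

theorem Phi_sum (t : ℕ) : ∑ d ∈ Ioc 0 t, vonMangoldt d / d * Phi (t / d) =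
    100 * Lg (t / 1) - 100 / 2 * Lg (t / 2) - 100 / 3 * Lg (t / 3) -
      100 / 5 * Lg (t / 5) + 37 / 6 * Lg (t / 6) - 5 / 10 * Lg (t / 10) - 33 / 15 * Lg (t / 15) -
      4 / 30 * Lg (t / 30) := by
  simp only [Lg_eq (Nat.div_le_self t _), mul_sum, ← sum_sub_distrib, ← sum_add_distrib, Phi]
  refine sum_congr rfl fun d _ => ?_
  simp only [Nat.div_div_eq_div_mul, mul_comm d]
  ring

/-- the window estimate -/
theorem Mv_win {s t : ℕ} (hs : 65535 ≤ s) (ht : s ≤ t) : Mv t - Mv s ≤ log t - log s + 0.314 := by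
  have h1 := eta_up s (by omega)
  have h2 := eta_lo t (by omega)
  have e : ∀ t, ∑ d ∈ Ioc 0 t, vonMangoldt d / d * ((Phi (t / d) - kap) * 1099511627776) =
      (∑ d ∈ Ioc 0 t, vonMangoldt d / d * Phi (t / d) - kap * Mv t) * 1099511627776 := fun t => by
    rw [Mv, mul_sum, ← sum_sub_distrib, sum_mul]
    exact sum_congr rfl fun _ _ => by ring
  have e' : ∑ d ∈ Ioc 0 t, vonMangoldt d / d * ((kap - Phi (t / d)) * 1099511627776) =
      -∑ d ∈ Ioc 0 t, vonMangoldt d / d * ((Phi (t / d) - kap) * 1099511627776) := by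
    rw [← sum_neg_distrib]
    exact sum_congr rfl fun _ _ => by ring
  rw [e', e, Phi_sum] at h2
  rw [e, Phi_sum] at h1
  obtain ⟨A1, a1⟩ := Lg_win 1 (by norm_num) (by norm_num)
  obtain ⟨A2, a2⟩ := Lg_win 2 (by norm_num) (by norm_num)
  obtain ⟨A3, a3⟩ := Lg_win 3 (by norm_num) (by norm_num)
  obtain ⟨A5, a5⟩ := Lg_win 5 (by norm_num) (by norm_num)
  obtain ⟨A6, a6⟩ := Lg_win 6 (by norm_num) (by norm_num)
  obtain ⟨A10, a10⟩ := Lg_win 10 (by norm_num) (by norm_num)
  obtain ⟨A15, a15⟩ := Lg_win 15 (by norm_num) (by norm_num)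
  obtain ⟨A30, a30⟩ := Lg_win 30 (by norm_num) (by norm_num)
  have ht' := hs.trans ht
  have l4 : log 4 ≤ 1.38629437 := by
    rw [show (4 : ℝ) = 2 ^ 2 by norm_num, log_pow]
    have := log_two_lt_d9
    push_cast
    linarith
  have key : kap * (Mv t - Mv s - (log t - log s)) ≤ 31.36 := by
    have b1 := (a1 t ht').2
    have b2 := (a2 t ht').1
    have b3 := (a3 t ht').1
    have b5 := (a5 t ht').1
    have b6 := (a6 t ht').2
    have b10 := (a10 t ht').1
    have b15 := (a15 t ht').1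
    have b30 := (a30 t ht').1
    have c1 := (a1 s hs).1
    have c2 := (a2 s hs).2
    have c3 := (a3 s hs).2
    have c5 := (a5 s hs).2
    have c6 := (a6 s hs).1
    have c10 := (a10 s hs).2
    have c15 := (a15 s hs).2
    have c30 := (a30 s hs).2
    simp only [Nat.cast_ofNat, Nat.cast_one, log_one] at *
    have e2 : kap * (log t - log s) = 100 / 2 * (log 2 * (log t - log s)) +
      100 / 3 * (log 3 * (log t - log s)) + 100 / 5 * (log 5 * (log t - log s)) -
      37 / 6 * (log 6 * (log t - log s)) + 5 / 10 * (log 10 * (log t - log s)) +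
      33 / 15 * (log 15 * (log t - log s)) + 4 / 30 * (log 30 * (log t - log s)) := by
      rw [kap]; ring
    rw [mul_sub, e2]
    linarith
  have := kap_bd.1
  by_contra h
  nlinarith

end Pool.Agent.P.MP_e94e4b_nt
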