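import Pool.Agent.P.MP_e94e4b_nt.LS

/-! The scale invariant induction for sieving levels `z ≥ 1024`. -/

namespace Pool.Agent.P.MP_e94e4b_nt

open Finset Real

/-- the dimension condition -/
def HK (K : ℝ) : Prop :=
  ∀ w z : ℕ, 1024 ≤ w → w ≤ z → V w * log w ^ 2 ≤ K * V (z + 1) * log z ^ 2

/-- the sieve parameter in units of `1 / 40` -/
noncomputable def idx (X : ℝ) (w : ℕ) : ℕ := ⌊40 * log X / log w⌋₊

theorem log_nat_pos {w : ℕ} (h : 2 ≤ w) : 0 < log w := log_pos (by exact_mod_cast h)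

theorem idx_lt {X : ℝ} {w : ℕ} (h : 2 ≤ w) : 40 * log X < (idx X w + 1) * log w := by
  rw [← div_lt_iff₀ (log_nat_pos h)]; exact Nat.lt_floor_add_one _

theorem log_pos_of_idx {X : ℝ} {w : ℕ} (h : 2 ≤ w) (hi : 1 ≤ idx X w) : 0 < log X := by
  have := Nat.floor_pos.1 hi
  rw [one_le_div (log_nat_pos h)] at this
  linarith [log_nat_pos h]

theorem idx_le {X : ℝ} {w : ℕ} (h : 2 ≤ w) (hX : 0 ≤ log X) : idx X w * log w ≤ 40 * log X := by
  rw [← le_div_iff₀ (log_nat_pos h)]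
  exact Nat.floor_le (div_nonneg (by linarith) (log_nat_pos h).le)

theorem le_idx {X : ℝ} {w i : ℕ} (h : 2 ≤ w) (hi : i * log w ≤ 40 * log X) : i ≤ idx X w :=
  Nat.le_floor ((le_div_iff₀ (log_nat_pos h)).2 hi)

theorem idx_anti {X : ℝ} {w z : ℕ} (h : 2 ≤ w) (hz : w ≤ z) (hX : 0 ≤ log X) :
    idx X z ≤ idx X w := by
  refine Nat.floor_mono (div_le_div_of_nonneg_left (by linarith) (log_nat_pos h) ?_)
  exact log_le_log (by exact_mod_cast (by omega : 0 < w)) (by exact_mod_cast hz)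

theorem idx_div {X : ℝ} (hX : 0 < X) {w : ℕ} (h : 2 ≤ w) (k : ℕ) :
    idx (X / w ^ k) w = idx X w - 40 * k := by
  have := (log_nat_pos h).ne'
  rw [idx, idx, ← Nat.floor_sub_natCast, log_div hX.ne' (by positivity), log_pow]
  congr 1
  push_cast
  field_simp

theorem idx_base {X : ℝ} (hX : 0 ≤ log X) : idx X 1024 * log 2 ≤ 4 * log X := by
  have := idx_le (w := 1024) (by norm_num) hX
  rw [show ((1024 : ℕ) : ℝ) = 2 ^ 10 by norm_num, log_pow] at this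
  push_cast at this
  linarith

theorem W_le {K : ℝ} (hK : HK K) (K0 : 0 ≤ K) {X : ℝ} {w z : ℕ} (hw : 1024 ≤ w) (hz : w ≤ z)
    (hX : 0 ≤ log X) : V w * (idx X z : ℝ) ^ 2 ≤ K * V z * (idx X w + 1) ^ 2 := by
  have h1 := hK w z hw hz
  have h2 := idx_le (w := z) (by omega) hX
  have h3 := idx_lt (X := X) (w := w) (by omega)
  have l1 := log_nat_pos (w := w) (by omega)
  have l2 := log_nat_pos (w := z) (by omega)
  have h4 : (idx X z * log z) ^ 2 ≤ ((idx X w + 1) * log w) ^ 2 :=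
    pow_le_pow_left₀ (by positivity) (by linarith) 2
  have h5 : K * V (z + 1) ≤ K * V z := mul_le_mul_of_nonneg_left (V_succ_le (by omega)) K0
  have h6 : 0 ≤ K * V z := mul_nonneg K0 (V_pos z).le
  refine le_of_mul_le_mul_right ?_ (pow_pos l1 2)
  calc V w * (idx X z : ℝ) ^ 2 * log w ^ 2 = V w * log w ^ 2 * (idx X z : ℝ) ^ 2 := by ring
    _ ≤ K * V z * log z ^ 2 * (idx X z : ℝ) ^ 2 := mul_le_mul_of_nonneg_right
        (h1.trans (mul_le_mul_of_nonneg_right h5 (by positivity))) (by positivity)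
    _ = K * V z * (idx X z * log z) ^ 2 := by ring
    _ ≤ K * V z * ((idx X w + 1) * log w) ^ 2 := by gcongr
    _ = _ := by ring

theorem chain_up {K : ℝ} (hK : HK K) (K0 : 0 ≤ K) {X Y : ℝ} (hY : 0 ≤ Y) {z a : ℕ}
    (hz : 1024 ≤ z) (ha : 1 ≤ a) (hi : a ≤ idx X z) (e φ μ b : ℕ → ℝ) (c : ℝ)
    (hφ : ∀ j, a ≤ j → φ (j + 1) ≤ φ j) (m0 : ∀ j, 0 ≤ μ j) (m1 : ∀ j, a ≤ j → φ j + b j ≤ μ j)
    (m2 : ∀ j : ℕ, a ≤ j →
      (j + 2) ^ 2 * μ (j + 1) + (j + 1) ^ 2 * (φ j - φ (j + 1)) ≤ (j + 1) ^ 2 * μ j)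
    (m3 : K * (idx X z + 1) ^ 2 * μ (idx X z) ≤ (idx X z : ℝ) ^ 2 * (c + φ (idx X z)))
    (h0 : e 1024 ≤ Y * V 1024 * b (idx X 1024))
    (h1 : ∀ w, 1024 ≤ w → w < z → e (w + 1) ≤ e w + (Y * V w - Y * V (w + 1)) * φ (idx X w)) :
    e z ≤ Y * V z * c := by
  have hX := (log_pos_of_idx (by omega) (ha.trans hi)).le
  set i := idx X z with hidef
  have i0 : (0 : ℝ) < i := by exact_mod_cast (by omega : 0 < i)
  have pot : ∀ j j' : ℕ, a ≤ j → j ≤ j' → φ j' ≤ φ j ∧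
      (j + 1) ^ 2 * (φ j - φ j') ≤ (j + 1) ^ 2 * μ j - (j' + 1) ^ 2 * μ j' := by
    intro j j' h h'
    induction j', h' using Nat.le_induction with
    | base => simp
    | succ n hn ih =>
      have b1 := hφ n (h.trans hn)
      have b2 := m2 n (h.trans hn)
      have b3 : ((j : ℝ) + 1) ^ 2 ≤ (n + 1) ^ 2 := by gcongr
      have b4 := mul_le_mul_of_nonneg_right b3 (sub_nonneg.2 b1)
      refine ⟨b1.trans ih.1, ?_⟩
      push_cast
      rw [add_assoc, one_add_one_eq_two]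
      linarith [ih.2]
  have key := abel hz e (fun w => Y * V w) (fun w => φ (idx X w))
    (fun w => Y * V z * K / i ^ 2 * ((idx X w + 1) ^ 2 * μ (idx X w))) h1 fun w h h' => by
      have b1 := W_le hK K0 (w := w + 1) (z := z) (by omega) h' hX
      obtain ⟨b2, b3⟩ := pot (idx X (w + 1)) (idx X w)
        (hi.trans (idx_anti (by omega) h' hX)) (idx_anti (by omega) (Nat.le_succ w) hX)
      rw [← mul_sub]
      refine le_trans ?_ (mul_le_mul_of_nonneg_left b3 (by have := V_pos z; positivity))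
      rw [← mul_assoc]
      refine mul_le_mul_of_nonneg_right ?_ (sub_nonneg.2 b2)
      rw [div_mul_eq_mul_div, le_div_iff₀ (by positivity)]
      nlinarith [mul_le_mul_of_nonneg_left b1 hY]
  simp only [← hidef] at key
  have b1 := W_le hK K0 le_rfl hz hX
  have b2 := m1 _ (hi.trans (idx_anti (by omega) hz hX))
  have b3 : Y * V 1024 * μ (idx X 1024) ≤
      Y * V z * K / i ^ 2 * ((idx X 1024 + 1) ^ 2 * μ (idx X 1024)) := by
    rw [← mul_assoc]
    refine mul_le_mul_of_nonneg_right ?_ (m0 _)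
    rw [div_mul_eq_mul_div, le_div_iff₀ (by positivity)]
    nlinarith [mul_le_mul_of_nonneg_left b1 hY]
  have b4 : Y * V z * K / i ^ 2 * ((i + 1) ^ 2 * μ i) ≤ Y * V z * (c + φ i) := by
    rw [div_mul_eq_mul_div, div_le_iff₀ (by positivity)]
    nlinarith [mul_le_mul_of_nonneg_left m3 (mul_nonneg hY (V_pos z).le)]
  nlinarith [mul_le_mul_of_nonneg_left b2 (mul_nonneg hY (V_pos 1024).le)]

theorem chain_T {K : ℝ} (hK : HK K) (K0 : 0 < K) {X : ℝ} {z : ℕ}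
    (hz : 1024 ≤ z) (hi : 1 ≤ idx X z) (e φ ν b : ℕ → ℝ) (c : ℝ)
    (hφ : ∀ j, φ (j + 1) ≤ φ j) (m0 : ∀ j, 0 ≤ ν j) (m1 : ∀ j, ν j + b j ≤ φ j)
    (m2 : ∀ j : ℕ,
      (j + 2) ^ 2 * ν j ≤ (j + 1) ^ 2 * ν (j + 1) + (j + 2) ^ 2 * (φ j - φ (j + 1)))
    (m3 : K * (idx X z + 1) ^ 2 * φ (idx X z) ≤
      K * (idx X z + 1) ^ 2 * c + (idx X z : ℝ) ^ 2 * ν (idx X z))
    (h0 : e 1024 ≤ b (idx X 1024) / V 1024)
    (h1 : ∀ w, 1024 ≤ w → w < z →
      e (w + 1) ≤ e w + (-(1 / V w) - -(1 / V (w + 1))) * φ (idx X w)) :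
    e z ≤ c / V z := by
  have hX := (log_pos_of_idx (by omega) hi).le
  set i := idx X z with hidef
  have Vz := V_pos z
  have pot : ∀ j j' : ℕ, j ≤ j' → φ j' ≤ φ j ∧
      ν j / (j + 1) ^ 2 - ν j' / (j' + 1) ^ 2 ≤ (φ j - φ j') / (j + 1) ^ 2 := by
    intro j j' h'
    induction j', h' using Nat.le_induction with
    | base => simp
    | succ n hn ih =>
      have b1 := hφ n
      have b2 : ν n / (n + 1) ^ 2 - ν (n + 1) / (n + 2) ^ 2 ≤ (φ n - φ (n + 1)) / (n + 1) ^ 2 := by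
        rw [sub_le_iff_le_add, div_add_div _ _ (by positivity) (by positivity),
          div_le_div_iff₀ (by positivity) (by positivity)]
        nlinarith [mul_le_mul_of_nonneg_left (m2 n) (by positivity : (0 : ℝ) ≤ (n + 1) ^ 2)]
      have b3 : (φ n - φ (n + 1)) / ((n : ℝ) + 1) ^ 2 ≤ (φ n - φ (n + 1)) / (j + 1) ^ 2 :=
        div_le_div_of_nonneg_left (sub_nonneg.2 b1) (by positivity) (by gcongr)
      refine ⟨b1.trans ih.1, ?_⟩
      push_cast
      rw [add_assoc, one_add_one_eq_two]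
      have b4 : (φ j - φ (n + 1)) / ((j : ℝ) + 1) ^ 2 =
          (φ j - φ n) / (j + 1) ^ 2 + (φ n - φ (n + 1)) / (j + 1) ^ 2 := by ring
      linarith [ih.2]
  have wb : ∀ w, 1024 ≤ w → w ≤ z → (i : ℝ) ^ 2 / (K * V z) / (idx X w + 1) ^ 2 ≤ 1 / V w := by
    intro w h h'
    have := V_pos w
    rw [div_div, div_le_div_iff₀ (by positivity) this, one_mul, mul_comm]
    exact W_le hK K0.le h h' hX
  have key := abel hz e (fun w => -(1 / V w)) (fun w => φ (idx X w))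
    (fun w => -((i : ℝ) ^ 2 / (K * V z) * (ν (idx X w) / (idx X w + 1) ^ 2))) h1 fun w h h' => by
      obtain ⟨b2, b3⟩ := pot (idx X (w + 1)) (idx X w) (idx_anti (by omega) (Nat.le_succ w) hX)
      have b4 := mul_le_mul_of_nonneg_left b3 (by positivity : (0 : ℝ) ≤ (i : ℝ) ^ 2 / (K * V z))
      have b5 := mul_le_mul_of_nonneg_right (wb (w + 1) (by omega) h') (sub_nonneg.2 b2)
      rw [div_mul_eq_mul_div, mul_div_assoc] at b5
      linarith
  simp only [← hidef] at key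
  have b1 := mul_le_mul_of_nonneg_right (wb 1024 le_rfl hz) (m0 (idx X 1024))
  rw [div_mul_eq_mul_div, mul_div_assoc] at b1
  have b2 := mul_le_mul_of_nonneg_left (m1 (idx X 1024)) (one_div_pos.2 (V_pos 1024)).le
  have b3 : 1 / V z * φ i - (i : ℝ) ^ 2 / (K * V z) * (ν i / (i + 1) ^ 2) ≤ c / V z := by
    have : 1 / V z * φ i - (i : ℝ) ^ 2 / (K * V z) * (ν i / (i + 1) ^ 2) =
        (K * (i + 1) ^ 2 * φ i - (i : ℝ) ^ 2 * ν i) / (K * (i + 1) ^ 2) / V z := by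
      field_simp
    rw [this]
    refine div_le_div_of_nonneg_right ?_ Vz.le
    rw [div_le_iff₀ (by positivity)]
    linarith
  rw [div_eq_mul_one_div] at h0
  linarith

/-- the conditions on the tables of the scale invariant induction -/
structure Tabs (K : ℝ) (u l τ μ μ' ν u0 l0 τ0 : ℕ → ℝ) : Prop where
  bu : ∀ (J : ℕ) (X : ℝ), 0 < X → J * log 2 ≤ 4 * log X → UX 1024 X (u0 J)
  bl : ∀ (J : ℕ) (X : ℝ), 0 < X → J * log 2 ≤ 4 * log X → LX 1024 X (l0 J)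
  bt : ∀ (J : ℕ) (X : ℝ), 0 < X → J * log 2 ≤ 4 * log X → TX 1024 X (τ0 J)
  au : ∀ i, u (i + 1) ≤ u i
  al : ∀ i, l (i + 1) ≤ l i
  at' : ∀ i, τ (i + 1) ≤ τ i
  l1 : 1 ≤ l 0
  t1 : 1 ≤ τ 0
  mu0 : ∀ j, 0 ≤ μ j
  mu1 : ∀ j, 40 ≤ j → l (j - 40) + u0 j ≤ μ j
  mu2 : ∀ j : ℕ, 40 ≤ j →
    (j + 2) ^ 2 * μ (j + 1) + (j + 1) ^ 2 * (l (j - 40) - l (j + 1 - 40)) ≤ (j + 1) ^ 2 * μ j
  mu3 : ∀ i : ℕ, 40 ≤ i → K * (i + 1) ^ 2 * μ i ≤ (i : ℝ) ^ 2 * (u i + l (i - 40)) ∨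
    (τ i < 1 ∧ 1 + 75 / 8192 ≤ (1 + u i) * (1 - τ i))
  ml0 : ∀ j, 0 ≤ μ' j
  ml1 : ∀ j, 80 ≤ j → u (j - 40) + l0 j ≤ μ' j
  ml2 : ∀ j : ℕ, 80 ≤ j →
    (j + 2) ^ 2 * μ' (j + 1) + (j + 1) ^ 2 * (u (j - 40) - u (j + 1 - 40)) ≤ (j + 1) ^ 2 * μ' j
  ml3 : ∀ i : ℕ, 1 ≤ l i ∨ (80 ≤ i ∧ K * (i + 1) ^ 2 * μ' i ≤ (i : ℝ) ^ 2 * (l i + u (i - 40)))
  nu0 : ∀ j, 0 ≤ ν j
  nu1 : ∀ j, ν j + τ0 j ≤ τ (j - 80)
  nu2 : ∀ j : ℕ,
    (j + 2) ^ 2 * ν j ≤ (j + 1) ^ 2 * ν (j + 1) + (j + 2) ^ 2 * (τ (j - 80) - τ (j + 1 - 80))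
  nu3 : ∀ i : ℕ, K * (i + 1) ^ 2 * τ (i - 80) ≤ K * (i + 1) ^ 2 * τ i + (i : ℝ) ^ 2 * ν i

theorem asym_idx {K : ℝ} (hK : HK K) (K0 : 0 < K) {u l τ μ μ' ν u0 l0 τ0 : ℕ → ℝ}
    (h : Tabs K u l τ μ μ' ν u0 l0 τ0) (z : ℕ) : 1024 ≤ z → ∀ X : ℝ, 0 < X →
      LX z X (l (idx X z)) ∧ TX z X (τ (idx X z)) ∧ (40 ≤ idx X z → UX z X (u (idx X z))) := by
  induction z using Nat.strong_induction_on with
  | _ z ih =>
  intro hz X hX
  have au := antitone_nat_of_succ_le h.au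
  have al := antitone_nat_of_succ_le h.al
  have at' := antitone_nat_of_succ_le h.at'
  have hT : TX z X (τ (idx X z)) := by
    rcases Nat.eq_zero_or_pos (idx X z) with h0 | h0
    · rw [h0]; exact TX_triv z h.t1
    intro Q hQ hXQ
    have := chain_T hK K0 hz h0 (fun w => 1 / V w - G w Q) (fun j => τ (j - 80)) ν τ0 _
      (fun j => at' (by omega)) h.nu0 h.nu1 h.nu2 (h.nu3 _) (by
        have := h.bt _ X hX (idx_base (log_pos_of_idx (by omega) h0).le) Q hQ hXQ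
        rw [sub_div] at this
        linarith)
      fun w hw hw' => G_step (by omega) (fun _ => by
        have := (ih w hw' hw (X / w ^ 2) (by positivity)).2.1
        rwa [idx_div hX (by omega)] at this) hQ hXQ
    rw [sub_div]
    linarith
  refine ⟨?_, hT, fun h40 => ?_⟩
  · rcases h.ml3 (idx X z) with h1 | ⟨h1, h2⟩
    · exact LX_triv z hX.le h1
    intro Y α β x hY ho
    have hl := (log_pos_of_idx (w := z) (X := X) (by omega) (by omega)).le
    have := chain_up hK K0.le (Y := Y) (by linarith) hz (by norm_num) h1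
      (fun w => Y * V w - Sv w α β x Y) (fun j => u (j - 40)) μ' l0 _
      (fun j _ => au (by omega)) h.ml0 h.ml1 h.ml2 h2 (by
        have := h.bl _ X hX (idx_base hl) Y α β x hY (ho.mono hz)
        linarith)
      fun w hw hw' => lo_step (by omega) (fun _ => by
        have := (ih w hw' hw (X / w ^ 1) (by positivity)).2.2
        have h3 := idx_anti (w := w) (by omega) hw'.le hl
        rw [idx_div hX (by omega), pow_one] at this
        exact this (by omega)) hY (ho.mono hw') x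
    linarith
  have hl := (log_pos_of_idx (w := z) (X := X) (by omega) (by omega)).le
  rcases h.mu3 _ h40 with h1 | ⟨h1, h2⟩
  · intro Y α β x hY ho
    have := chain_up hK K0.le (Y := Y) (by linarith) hz (by norm_num) h40
      (fun w => Sv w α β x Y - Y * V w) (fun j => l (j - 40)) μ u0 _
      (fun j _ => al (by omega)) h.mu0 h.mu1 h.mu2 h1 (by
        have := h.bu _ X hX (idx_base hl) Y α β x hY (ho.mono hz)
        linarith)
      fun w hw hw' => up_step (by omega) (fun _ => by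
        have := (ih w hw' hw (X / w ^ 1) (by positivity)).1
        rwa [idx_div hX (by omega), pow_one] at this) hY (ho.mono hw') x
    linarith
  · refine UX_of_TX ?_ hT h1 h2
    have h3 := idx_le (w := z) (by omega) hl
    have h4 : (40 : ℝ) ≤ idx X z := by exact_mod_cast h40
    have h5 := log_nat_pos (w := z) (by omega)
    have h6 : log z ≤ log X := by nlinarith
    rw [log_le_log_iff (by exact_mod_cast (by omega : 0 < z)) hX] at h6
    exact le_trans (by exact_mod_cast hz) h6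

theorem asym {K : ℝ} (hK : HK K) (K0 : 0 < K) {u l τ μ μ' ν u0 l0 τ0 : ℕ → ℝ}
    (h : Tabs K u l τ μ μ' ν u0 l0 τ0) {z : ℕ} (hz : 1024 ≤ z) {X : ℝ} (hX : 0 < X) {i : ℕ}
    (hi : i * log z ≤ 40 * log X) : LX z X (l i) ∧ (40 ≤ i → UX z X (u i)) := by
  have h1 := le_idx (by omega) hi
  obtain ⟨h2, -, h3⟩ := asym_idx hK K0 h z hz X hX
  exact ⟨h2.mono hX.le le_rfl (antitone_nat_of_succ_le h.al h1),
    fun h4 => (h3 (h4.trans h1)).mono hX.le le_rfl (antitone_nat_of_succ_le h.au h1)⟩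

end Pool.Agent.P.MP_e94e4b_nt
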