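import Pool.Agent.P.MP_e94e4b_nt.Seg

/-! The weighted sieve with logarithmic weights. -/

namespace Pool.Agent.P.MP_e94e4b_nt

open Finset Real
open ArithmeticFunction (cardFactors cardFactors_eq_sum_factorization)

/-- the conclusion for one `N` -/
def Good (N : ℕ) : Prop :=
  ∃ k : ℕ, 2 ≤ k ∧ k ≤ 2 * N ∧
    cardFactors (N ^ 2 + k + 1) + cardFactors ((N + 1) ^ 2 - k) ≤ 7 ∧
    cardFactors (N ^ 2 + k + 1) ≤ 5 ∧ cardFactors ((N + 1) ^ 2 - k) ≤ 5

theorem richert {n : ℕ} (hn : 0 < n) (P : Finset ℕ) (kk : ℕ → ℕ) {L : ℝ} (hL : 0 < L)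
    (h1 : ∀ p, p.Prime → p ∣ n → log p < L → p ∈ P ∧ n.factorization p ≤ kk p)
    (h2 : ∀ p ∈ P, log p ≤ L) :
    (cardFactors n : ℝ) ≤ log n / L +
      ∑ p ∈ P, (1 - log p / L) * ((Icc 1 (kk p)).filter fun k => p ^ k ∣ n).card := by
  classical
  have w0 : ∀ p ∈ P, 0 ≤ (1 - log p / L) * ((Icc 1 (kk p)).filter fun k => p ^ k ∣ n).card :=
    fun p hp => mul_nonneg (sub_nonneg.2 ((div_le_one hL).2 (h2 p hp))) (Nat.cast_nonneg _)
  rw [cardFactors_eq_sum_factorization, log_nat_eq_sum_factorization, Finsupp.sum, Finsupp.sum,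
    Nat.cast_sum, sum_div, ← sub_le_iff_le_add', ← sum_sub_distrib]
  refine le_trans (sum_le_sum (g := fun p => if p ∈ P then
    (1 - log p / L) * ((Icc 1 (kk p)).filter fun k => p ^ k ∣ n).card else 0) fun p hp => ?_) ?_
  · have hp' := Nat.mem_primeFactors.1 hp
    have e : (n.factorization p : ℝ) - n.factorization p * log p / L =
        (1 - log p / L) * n.factorization p := by ring
    rw [e]
    by_cases h : log p < L
    · obtain ⟨h3, h4⟩ := h1 p hp'.1 hp'.2.1 h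
      rw [if_pos h3]
      refine mul_le_mul_of_nonneg_left ?_ (sub_nonneg.2 ((div_le_one hL).2 h.le))
      have : Icc 1 (n.factorization p) ⊆ (Icc 1 (kk p)).filter fun k => p ^ k ∣ n := fun k hk =>
        mem_filter.2 ⟨mem_Icc.2 ⟨(mem_Icc.1 hk).1, (mem_Icc.1 hk).2.trans h4⟩,
          (hp'.1.pow_dvd_iff_le_factorization hn.ne').2 (mem_Icc.1 hk).2⟩
      have := card_le_card this
      rw [Nat.card_Icc] at this
      exact_mod_cast this
    · refine le_trans (mul_nonpos_of_nonpos_of_nonneg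
        (sub_nonpos.2 ((one_le_div hL).2 (not_lt.1 h))) (Nat.cast_nonneg _)) ?_
      split_ifs with h3
      · exact w0 p h3
      · exact le_rfl
  · rw [← sum_filter]
    exact sum_le_sum_of_subset_of_nonneg (fun p hp => (mem_filter.1 hp).2) fun p hp _ => w0 p hp

theorem cnt_triv {z q : ℕ} (hq : 0 < q) {A B : ℤ} (hB : IsCoprime B q) (α β : ℕ → ℤ) (x : ℝ)
    {Y : ℝ} (hY : 0 ≤ Y) :
    (((SS z α β x Y).filter fun t => (q : ℤ) ∣ A + B * t).card : ℝ) ≤ Y / q + 1 := by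
  obtain ⟨c, hc⟩ := exists_class hB A
  obtain ⟨α', β', x', -, e⟩ := class_count (z := 5) hq (by simp [PZ_five]) (α := α) (β := β)
    (by simp [Ok, PZ_five]) c x Y
  refine le_trans ?_ (e.le.trans (Sv_le 5 α' β' x' (by positivity)))
  exact_mod_cast card_le_card fun t ht => mem_filter.2
    ⟨mem_SS.2 ⟨(mem_SS.1 (mem_filter.1 ht).1).1, by simp [Sif, PZ_five]⟩,
      (hc t).1 (mem_filter.1 ht).2⟩

theorem cnt_prime {z p : ℕ} (hp : p.Prime) (hz : z ≤ p) {A B : ℤ} (hB : IsCoprime B p)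
    {α β : ℕ → ℤ} (ho : Ok z α β) (x : ℝ) {X Y e : ℝ} (hY : X ≤ 25 / 8 * Y) (h : UX z (X / p) e) :
    (((SS z α β x Y).filter fun t => (p : ℤ) ∣ A + B * t).card : ℝ) ≤ Y / p * V z * (1 + e) := by
  obtain ⟨c, hc⟩ := exists_class hB A
  obtain ⟨α', β', x', o, e⟩ := class_count hp.pos (coprime_of_prime_le hp hz) ho c x Y
  rw [filter_congr fun t _ => hc t, e]
  exact h _ _ _ _ (by rw [← mul_div_assoc]; gcongr) o

theorem coprime_six {p : ℕ} (hp : p.Prime) (h5 : 5 ≤ p) : IsCoprime (6 : ℤ) p := by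
  refine Nat.isCoprime_iff_coprime (m := 6).2 ?_
  rw [show 6 = 2 * 3 from rfl]
  exact Nat.Coprime.mul_left ((Nat.coprime_primes Nat.prime_two hp).2 (by omega))
    ((Nat.coprime_primes Nat.prime_three hp).2 (by omega))

theorem cnt_pow {z p kk : ℕ} (hp : p.Prime) (hz : z ≤ p) (h5 : 5 ≤ p) {A B : ℤ}
    (hB : IsCoprime B p) {α β : ℕ → ℤ} (ho : Ok z α β) (x : ℝ) {X Y e ex : ℝ} (hX : 0 < X)
    (hY : X ≤ 25 / 8 * Y) (h : UX z (X / p) e)
    (hex : 5 / 4 / p + (kk - 1 : ℕ) * (25 / 8 * (p / X)) ≤ V z * ex) :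
    ∑ k ∈ Icc 1 kk, (((SS z α β x Y).filter fun t => ((p ^ k : ℕ) : ℤ) ∣ A + B * t).card : ℝ) ≤
      Y / p * V z * (1 + e + ex) := by
  have hp5 : (5 : ℝ) ≤ p := by exact_mod_cast h5
  have Y0 : 0 < Y := by linarith
  refine le_trans (sum_le_sum_of_subset_of_nonneg (t := insert 1 (Ico 2 (kk + 1)))
    (fun k hk => ?_) fun _ _ _ => Nat.cast_nonneg _) ?_
  · have := mem_Icc.1 hk
    rw [mem_insert, mem_Ico]; omega
  rw [sum_insert (by simp), pow_one]
  have h1 := cnt_prime hp hz hB ho x hY h (A := A)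
  have h2 : ∑ k ∈ Ico 2 (kk + 1),
      (((SS z α β x Y).filter fun t => ((p ^ k : ℕ) : ℤ) ∣ A + B * t).card : ℝ) ≤
      ∑ k ∈ Ico 2 (kk + 1), (Y * (1 / p) ^ k + 1) := sum_le_sum fun k _ => by
    refine (cnt_triv (pow_pos hp.pos k) (by push_cast; exact hB.pow_right) α β x Y0.le).trans
      (le_of_eq ?_)
    push_cast
    rw [one_div_pow, mul_one_div]
  rw [sum_add_distrib, ← mul_sum, sum_const, Nat.card_Ico, nsmul_eq_mul, mul_one,
    show kk + 1 - 2 = kk - 1 by omega] at h2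
  have h3 : ∑ k ∈ Ico 2 (kk + 1), (1 / (p : ℝ)) ^ k ≤ 1 / p * (5 / 4 / p) := by
    refine (geom_sum_Ico_le_of_lt_one (by positivity) (by
      rw [div_lt_one (by linarith)]; linarith)).trans ?_
    have : 1 / (p : ℝ) ≤ 1 / 5 := one_div_le_one_div_of_le (by norm_num) hp5
    rw [div_le_iff₀ (by linarith), show 1 / (p : ℝ) * (5 / 4 / p) = (1 / p) ^ 2 * (5 / 4) by ring,
      mul_assoc]
    exact le_mul_of_one_le_right (by positivity) (by linarith)
  have h4 : ((kk - 1 : ℕ) : ℝ) ≤ Y / p * ((kk - 1 : ℕ) * (25 / 8 * (p / X))) := by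
    rw [show Y / p * ((kk - 1 : ℕ) * (25 / 8 * (p / X))) = (kk - 1 : ℕ) * (25 / 8 * Y / X) by
      field_simp]
    exact le_mul_of_one_le_right (Nat.cast_nonneg _) ((one_le_div hX).2 hY)
  have h5 := mul_le_mul_of_nonneg_left hex (by positivity : 0 ≤ Y / p)
  have h6 := mul_le_mul_of_nonneg_left h3 Y0.le
  have e : Y * (1 / p * (5 / 4 / p)) = Y / p * (5 / 4 / p) := by ring
  nlinarith

theorem setup (N z : ℕ) : ∃ (c : ℤ) (α β : ℕ → ℤ), Ok z α β ∧ ∀ t : ℤ, Sif z α β t →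
    ∀ p : ℕ, p.Prime → p < z → ¬ (p : ℤ) ∣ (N ^ 2 + N + 1 - c) + -6 * t ∧
      ¬ (p : ℤ) ∣ (N ^ 2 + N + 1 + c) + 6 * t := by
  classical
  set M : ℤ := N ^ 2 + N + 1 with hM
  have hodd : M % 2 = 1 := by
    have : Even ((N : ℤ) * (N + 1)) := Int.even_mul_succ_self N
    obtain ⟨r, hr⟩ := this
    have : M = 2 * r + 1 := by rw [hM]; linarith
    omega
  obtain ⟨c, hc⟩ : ∃ c : ℤ, c % 2 = 0 ∧ (M - c) % 3 ≠ 0 ∧ (M + c) % 3 ≠ 0 := by
    by_cases h : M % 3 = 0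
    · exact ⟨2, by omega⟩
    · exact ⟨0, by omega⟩
  have k1 : ∀ p : ℕ, ∃ a b : ℤ, p ∈ PZ z → ¬ (p : ℤ) ∣ a - b ∧ ∀ t : ℤ, ¬ (p : ℤ) ∣ t - a →
      ¬ (p : ℤ) ∣ t - b → ¬ (p : ℤ) ∣ (M - c) + -6 * t ∧ ¬ (p : ℤ) ∣ (M + c) + 6 * t := by
    intro p
    by_cases hp : p ∈ PZ z
    · obtain ⟨h1, h2, -⟩ := mem_PZ.1 hp
      obtain ⟨a, ha⟩ := exists_class (coprime_six h1 h2).neg_left (M - c)
      obtain ⟨b, hb⟩ := exists_class (coprime_six h1 h2) (M + c)
      by_cases hab : (p : ℤ) ∣ a - b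
      · refine ⟨a, a + 1, fun _ => ⟨fun h => ?_, fun t h3 _ => ⟨fun h => h3 ((ha t).1 h), fun h => ?_⟩⟩⟩
        · rw [show a - (a + 1) = -1 by ring, dvd_neg] at h
          exact h1.one_lt.ne' (by exact_mod_cast Int.eq_one_of_dvd_one (by positivity) h)
        · have := dvd_sub ((hb t).1 h) hab
          exact h3 (by rwa [show t - b - (a - b) = t - a by ring] at this)
      · exact ⟨a, b, fun _ => ⟨hab, fun t h3 h4 => ⟨fun h => h3 ((ha t).1 h),
          fun h => h4 ((hb t).1 h)⟩⟩⟩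
    · exact ⟨0, 0, fun h => absurd h hp⟩
  choose α β h using k1
  refine ⟨c, α, β, fun p hp => (h p hp).1, fun t ht p hp hz => ?_⟩
  by_cases h5 : 5 ≤ p
  · have hp' := mem_PZ.2 ⟨hp, h5, hz⟩
    exact (h p hp').2 t (ht p hp').1 (ht p hp').2
  · have := hp.two_le
    have h4 : p ≠ 4 := by rintro rfl; exact absurd hp (by norm_num)
    obtain rfl | rfl : p = 2 ∨ p = 3 := by omega
    · push_cast; omega
    · push_cast; omega

theorem layer (P : Finset ℕ) (J : ℕ → ℕ) {a b : ℕ} (g φ cum : ℕ → ℝ)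
    (hJ : ∀ p ∈ P, a ≤ J p ∧ J p ≤ b) (h0 : φ b = 0) (h1 : ∀ j, a ≤ j → j < b → φ (j + 1) ≤ φ j)
    (h2 : ∀ j, a ≤ j → j < b → ∑ p ∈ P.filter fun p => J p ≤ j, g p ≤ cum j) :
    ∑ p ∈ P, g p * φ (J p) ≤ ∑ j ∈ Ico a b, (φ j - φ (j + 1)) * cum j := by
  have e : ∀ p ∈ P, g p * φ (J p) =
      ∑ j ∈ Ico a b, if J p ≤ j then (φ j - φ (j + 1)) * g p else 0 := by
    intro p hp
    rw [← sum_filter, ← sum_mul, mul_comm]
    congr 1
    have : (Ico a b).filter (fun j => J p ≤ j) = Ico (J p) b := by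
      ext j; have := hJ p hp; simp only [mem_filter, mem_Ico]; omega
    have h3 := sum_Ico_sub (fun j => -φ j) (hJ p hp).2
    rw [this, sum_congr rfl (g := fun j => -φ (j + 1) - -φ j) fun j _ => by ring, h3, h0]
    ring
  rw [sum_congr rfl e, sum_comm]
  refine sum_le_sum fun j hj => ?_
  obtain ⟨h3, h4⟩ := mem_Ico.1 hj
  rw [← sum_filter, ← mul_sum]
  exact mul_le_mul_of_nonneg_left (h2 j h3 h4) (sub_nonneg.2 (h1 j h3 h4))

theorem weighted {N z i jz jy : ℕ} {lam : ℝ} (hl : 0 < lam) (hN : 12 ≤ N) (hz : 5 ≤ z)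
    (hi1 : i * lam ≤ log (N + 1)) (hi2 : log (N + 1) < (i + 1) * lam)
    (hj0 : 1 ≤ jz) (hjz : jz * lam ≤ log z) (hjy : jy ≤ i) {l : ℝ} (hL : LX z (N + 1) l)
    (l1 : l ≤ 1) (uu ex φ cum : ℕ → ℝ)
    (hU : ∀ j, jz ≤ j → j < jy → ∀ X : ℝ, 0 < X → (i - j - 1 : ℕ) * lam ≤ log X → UX z X (uu j))
    (hex : ∀ j, jz ≤ j → j < jy → ∀ p : ℕ, z ≤ p → j * lam ≤ log p →
      (i - j - 1 : ℕ) * lam ≤ log ((N + 1) / p) →
      5 / 4 / p + (2 * (i + 1) / j - 1 : ℕ) * (25 / 8 * (p / (N + 1))) ≤ V z * ex j)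
    (hφ : ∀ j, jz ≤ j → j < jy → (jy - j) * (1 + uu j + ex j) ≤ jy * φ j)
    (hφ' : ∀ j, jz ≤ j → j < jy → φ (j + 1) ≤ φ j) (hφ0 : φ jy = 0)
    (hcum : ∀ j, jz ≤ j → j < jy → ∀ s : Finset ℕ,
      (∀ p ∈ s, p.Prime ∧ z ≤ p ∧ log p < (j + 1) * lam) → ∑ p ∈ s, 2 / (p : ℝ) ≤ cum j)
    (hfin : jy * ∑ j ∈ Ico jz jy, (φ j - φ (j + 1)) * cum j < (8 * jy - 4 * (i + 1)) * (1 - l)) :
    Good N := by
  classical
  by_contra hbad
  obtain ⟨c, α, β, ho, hs⟩ := setup N z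
  set M : ℤ := N ^ 2 + N + 1 with hM
  set Y : ℝ := (2 * N + 1) / 6 with hY
  set x : ℝ := (-N - c) / 6 with hx
  have hN' : (12 : ℝ) ≤ N := by exact_mod_cast hN
  have hXY : (N : ℝ) + 1 ≤ 25 / 8 * Y := by rw [hY]; linarith
  have Y0 : 0 < Y := by positivity
  have Vz := V_pos z
  set D := SS z α β x Y with hD
  have T0 : 0 ≤ ∑ j ∈ Ico jz jy, (φ j - φ (j + 1)) * cum j := sum_nonneg fun j hj =>
    mul_nonneg (sub_nonneg.2 (hφ' j (mem_Ico.1 hj).1 (mem_Ico.1 hj).2))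
      (by simpa using hcum j (mem_Ico.1 hj).1 (mem_Ico.1 hj).2 ∅ (by simp))
  have c0 : (0 : ℝ) < 8 * jy - 4 * (i + 1) := by
    by_contra h
    have := mul_nonpos_of_nonpos_of_nonneg (not_lt.1 h) (sub_nonneg.2 l1)
    have := mul_nonneg (Nat.cast_nonneg (α := ℝ) jy) T0
    linarith
  have jy0 : (0 : ℝ) < jy := by have := Nat.cast_nonneg (α := ℝ) i; linarith
  have jyi : (jy : ℝ) ≤ i := by exact_mod_cast hjy
  set L := jy * lam with hLdef
  have L0 : 0 < L := by positivity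
  set P := (Ico z ⌈exp L⌉₊).filter Nat.Prime with hP
  have memP : ∀ p, p ∈ P ↔ p.Prime ∧ z ≤ p ∧ log p < L := fun p => by
    rw [hP, mem_filter, mem_Ico, Nat.lt_ceil]
    constructor
    · rintro ⟨⟨h1, h2⟩, h3⟩
      exact ⟨h3, h1, (log_lt_iff_lt_exp (by exact_mod_cast h3.pos)).2 h2⟩
    · rintro ⟨h1, h2, h3⟩
      exact ⟨⟨h2, (log_lt_iff_lt_exp (by exact_mod_cast h1.pos)).1 h3⟩, h1⟩
  set J : ℕ → ℕ := fun p => ⌊log p / lam⌋₊ with hJ
  have J1 : ∀ p : ℕ, J p * lam ≤ log p := fun p => by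
    rw [← le_div_iff₀ hl]; exact Nat.floor_le (div_nonneg (log_natCast_nonneg p) hl.le)
  have J2 : ∀ p : ℕ, log p < (J p + 1) * lam := fun p => by
    rw [← div_lt_iff₀ hl]; exact Nat.lt_floor_add_one _
  have J3 : ∀ p ∈ P, jz ≤ J p ∧ J p < jy := fun p hp => by
    obtain ⟨h1, h2, h3⟩ := (memP p).1 hp
    refine ⟨Nat.le_floor ((le_div_iff₀ hl).2 (hjz.trans (log_le_log ?_ ?_))), ?_⟩
    · exact_mod_cast (by omega : 0 < z)
    · exact_mod_cast h2
    · exact_mod_cast lt_of_mul_lt_mul_right ((J1 p).trans_lt h3) hl.le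
  set kk : ℕ → ℕ := fun p => 2 * (i + 1) / J p with hkk
  set Wt : ℤ → ℝ := fun a => ∑ p ∈ P, (1 - log p / L) *
    ((Icc 1 (kk p)).filter fun k => ((p ^ k : ℕ) : ℤ) ∣ a).card with hWt
  have w0 : ∀ p ∈ P, 0 ≤ 1 - log p / L := fun p hp =>
    sub_nonneg.2 ((div_le_one L0).2 ((memP p).1 hp).2.2.le)
  have Wt0 : ∀ a, 0 ≤ Wt a := fun a => sum_nonneg fun p hp => mul_nonneg (w0 p hp) (by positivity)
  have R : ∀ n : ℕ, 0 < n → n ≤ (N + 1) ^ 2 → (∀ p : ℕ, p.Prime → p < z → ¬ (p : ℤ) ∣ n) →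
      (cardFactors n : ℝ) ≤ 2 * (i + 1) / jy + Wt n := by
    intro n h0 h1 h2
    have hlog : log n < 2 * (i + 1) * lam := by
      have : log n ≤ log ((N + 1) ^ 2) := log_le_log (by exact_mod_cast h0) (by exact_mod_cast h1)
      rw [log_pow] at this
      push_cast at this
      linarith
    refine (richert h0 P kk L0 (fun p hp hd hL' => ?_) fun p hp => ((memP p).1 hp).2.2.le).trans
      (add_le_add ?_ (le_of_eq ?_))
    · have hp' : p ∈ P := (memP p).2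
        ⟨hp, not_lt.1 fun h => h2 p hp h (Int.natCast_dvd_natCast.2 hd), hL'⟩
      refine ⟨hp', (Nat.le_div_iff_mul_le (by have := J3 p hp'; omega)).2 ?_⟩
      have h3 : log ((p : ℝ) ^ n.factorization p) ≤ log n := log_le_log
        (pow_pos (by exact_mod_cast hp.pos) _) (by exact_mod_cast Nat.ordProj_le p h0.ne')
      rw [log_pow] at h3
      have h4 := mul_le_mul_of_nonneg_left (J1 p) (Nat.cast_nonneg (n.factorization p))
      have h5 : (n.factorization p : ℝ) * J p < 2 * (i + 1) :=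
        lt_of_mul_lt_mul_right (by linarith) hl.le
      exact_mod_cast h5.le
    · rw [hLdef, div_le_div_iff₀ L0 jy0]
      nlinarith
    · simp only [hWt, Int.natCast_dvd_natCast]
  have key : ∀ t ∈ D, 8 - 4 * ((i : ℝ) + 1) / jy ≤ Wt (M - c + -6 * t) + Wt (M + c + 6 * t) := by
    intro t ht
    obtain ⟨h1, h2⟩ := mem_SS.1 ht
    obtain ⟨h3, h4⟩ := mem_seg.1 h1
    have h5 : -(N : ℤ) ≤ c + 6 * t := by
      have : -(N : ℝ) ≤ c + 6 * t := by rw [hx] at h3; linarith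
      exact_mod_cast this
    have h6 : c + 6 * t < N + 1 := by
      have : (c : ℝ) + 6 * t < N + 1 := by rw [hx, hY] at h4; linarith
      exact_mod_cast this
    set d := (c + 6 * t).natAbs with hd
    have hsq : (N + 1) ^ 2 = N ^ 2 + 2 * N + 1 := by ring
    have e1 : ((N ^ 2 + (N + d) + 1 : ℕ) : ℤ) = M + d := by rw [hM]; push_cast; ring
    have e2 : (((N + 1) ^ 2 - (N + d) : ℕ) : ℤ) = M - d := by
      rw [Nat.cast_sub (by omega), hM]; push_cast; ring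
    have e3 : (M + d = M - c + -6 * t ∧ M - d = M + c + 6 * t) ∨
        (M + d = M + c + 6 * t ∧ M - d = M - c + -6 * t) := by omega
    have r1 := R (N ^ 2 + (N + d) + 1) (by omega) (by omega) fun p hp hz => by
      rw [e1]
      rcases e3 with h | h <;> rw [h.1]
      exacts [(hs t h2 p hp hz).1, (hs t h2 p hp hz).2]
    have r2 := R ((N + 1) ^ 2 - (N + d)) (by omega) (by omega) fun p hp hz => by
      rw [e2]
      rcases e3 with h | h <;> rw [h.2]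
      exacts [(hs t h2 p hp hz).2, (hs t h2 p hp hz).1]
    rw [e1] at r1
    rw [e2] at r2
    have e4 : Wt (M - c + -6 * t) + Wt (M + c + 6 * t) = Wt (M + d) + Wt (M - d) := by
      rcases e3 with h | h <;> rw [h.1, h.2]
      exact add_comm _ _
    have u2 : (2 : ℝ) ≤ 2 * (i + 1) / jy := by rw [le_div_iff₀ jy0]; linarith
    have e5 : 4 * ((i : ℝ) + 1) / jy = 2 * (2 * (i + 1) / jy) := by ring
    have := Wt0 (M + d)
    have := Wt0 (M - d)
    have h7 : 8 ≤ cardFactors (N ^ 2 + (N + d) + 1) + cardFactors ((N + 1) ^ 2 - (N + d)) ∨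
        6 ≤ cardFactors (N ^ 2 + (N + d) + 1) ∨ 6 ≤ cardFactors ((N + 1) ^ 2 - (N + d)) := by
      by_contra h
      exact hbad ⟨N + d, by omega, by omega, by omega, by omega, by omega⟩
    rw [e4, e5]
    rcases h7 with h | h | h
    · have : (8 : ℝ) ≤ cardFactors (N ^ 2 + (N + d) + 1) + cardFactors ((N + 1) ^ 2 - (N + d)) := by
        exact_mod_cast h
      linarith
    · have : (6 : ℝ) ≤ cardFactors (N ^ 2 + (N + d) + 1) := by exact_mod_cast h
      linarith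
    · have : (6 : ℝ) ≤ cardFactors ((N + 1) ^ 2 - (N + d)) := by exact_mod_cast h
      linarith
  have side : ∀ A B : ℤ, (∀ p : ℕ, p.Prime → 5 ≤ p → IsCoprime B p) →
      ∑ t ∈ D, Wt (A + B * t) ≤ Y * V z / 2 * ∑ p ∈ P, 2 / (p : ℝ) * φ (J p) := by
    intro A B hB
    simp only [hWt]
    rw [sum_comm, mul_sum]
    refine sum_le_sum fun p hp => ?_
    obtain ⟨h1, h2, h3⟩ := (memP p).1 hp
    obtain ⟨h4, h5⟩ := J3 p hp
    have p0 : (0 : ℝ) < p := by exact_mod_cast h1.pos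
    have h6 : ((i - J p - 1 : ℕ) : ℝ) * lam ≤ log ((N + 1) / p) := by
      rw [log_div (by positivity) p0.ne', Nat.sub_sub, Nat.cast_sub (by omega)]
      push_cast
      linarith [J2 p]
    have h7 := cnt_pow h1 h2 (hz.trans h2) (hB p h1 (hz.trans h2)) ho x (A := A) (by positivity) hXY
      (hU _ h4 h5 _ (by positivity) h6) (hex _ h4 h5 p h2 (J1 p) h6)
    have h8 : 0 ≤ Y / p * V z * (1 + uu (J p) + ex (J p)) :=
      le_trans (sum_nonneg fun _ _ => Nat.cast_nonneg _) h7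
    have h9 : ∑ t ∈ D, (((Icc 1 (kk p)).filter fun k => ((p ^ k : ℕ) : ℤ) ∣ A + B * t).card : ℝ) =
        ∑ k ∈ Icc 1 (kk p), ((D.filter fun t => ((p ^ k : ℕ) : ℤ) ∣ A + B * t).card : ℝ) := by
      simp only [card_filter, Nat.cast_sum]
      exact sum_comm
    rw [← mul_sum, h9]
    refine (mul_le_mul_of_nonneg_left h7 (w0 p hp)).trans ?_
    have h10 : 1 - log p / L ≤ (jy - J p) / jy := by
      rw [sub_div, div_self jy0.ne', sub_le_sub_iff_left, hLdef, div_le_div_iff₀ jy0 L0]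
      nlinarith [J1 p]
    refine (mul_le_mul_of_nonneg_right h10 h8).trans ?_
    have h11 := mul_le_mul_of_nonneg_left (hφ _ h4 h5) (by positivity : 0 ≤ Y / p * V z / jy)
    refine le_trans (le_of_eq ?_) (h11.trans (le_of_eq ?_))
    · ring
    · field_simp
  have s1 := side (M - c) (-6) fun p h1 h2 => (coprime_six h1 h2).neg_left
  have s2 := side (M + c) 6 fun p h1 h2 => coprime_six h1 h2
  have s3 := layer P J (fun p => 2 / (p : ℝ)) φ cum (fun p hp => ⟨(J3 p hp).1, (J3 p hp).2.le⟩)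
    hφ0 hφ' fun j h1 h2 => hcum j h1 h2 _ fun p hp => by
      obtain ⟨h3, h4⟩ := mem_filter.1 hp
      obtain ⟨h5, h6, -⟩ := (memP p).1 h3
      refine ⟨h5, h6, (J2 p).trans_le ?_⟩
      gcongr
  have s4 := card_nsmul_le_sum _ _ _ key
  rw [nsmul_eq_mul, sum_add_distrib] at s4
  have s5 : Y * V z * (1 - l) ≤ D.card := hL Y α β x hXY ho
  have s6 : (8 - 4 * ((i : ℝ) + 1) / jy) * jy = 8 * jy - 4 * (i + 1) := by field_simp
  have s7 := mul_le_mul_of_nonneg_left s3 (by positivity : 0 ≤ Y * V z)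
  have s8 : D.card * (8 * (jy : ℝ) - 4 * (i + 1)) ≤
      Y * V z * (jy * ∑ j ∈ Ico jz jy, (φ j - φ (j + 1)) * cum j) := by
    rw [← s6, ← mul_assoc, mul_comm (jy : ℝ), ← mul_assoc]
    exact mul_le_mul_of_nonneg_right (by linarith) jy0.le
  have s9 := mul_lt_mul_of_pos_left hfin (by positivity : 0 < Y * V z)
  nlinarith [mul_le_mul_of_nonneg_right s5 c0.le]

end Pool.Agent.P.MP_e94e4b_nt
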