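import Pool.Agent.P.MP_e94e4b_nt.DP
import Pool.Agent.P.MP_e94e4b_nt.Weight

/-! The numerical form of the weighted sieve inequality, and the main loop. -/

namespace Pool.Agent.P.MP_e94e4b_nt

open Finset Real

theorem SP_le_logV {w n : ℕ} (h5 : 5 ≤ w) (h : w ≤ n) : SP n - SP w ≤ log (V w) - log (V n) := by
  induction n, h using Nat.le_induction with
  | base => simp
  | succ n hn ih =>
    by_cases hp : n.Prime
    · have := (logV_succ hp (by omega)).1
      rw [SP, PZ_succ_of_prime hp (by omega), sum_insert (self_notMem_PZ n), ← SP]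
      linarith
    · rw [SP, PZ_succ_of_not hp, V_succ_of_not hp]
      exact ih

theorem SP_sub {w n : ℕ} (hw : 1024 ≤ w) (h : w ≤ n) :
    SP (n + 1) - SP w ≤ log (17 / 16) + 2 * (log (log n) - log (log w)) := by
  have h1 := SP_le_logV (w := w) (n := n + 1) (by omega) (by omega)
  have l1 := log_nat_pos (w := w) (by omega)
  have l2 := log_nat_pos (w := n) (by omega)
  have V1 := V_pos w
  have V2 := V_pos (n + 1)
  have h2 := log_le_log (by positivity) (hK w n hw h)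
  rw [log_mul (by positivity) (by positivity), log_mul (by positivity) (by positivity),
    log_mul (by positivity) (by positivity), log_pow, log_pow] at h2
  push_cast at h2
  linarith

noncomputable def cumA (j : ℕ) : ℕ := sumTo (fun n => cond (isP n)
  (cond (Nat.blt (Nat.pow n 4) (Nat.pow 2 (Nat.succ j))) (Nat.succ (Nat.div (Nat.mul 2 SC) n)) 0) 0)
  1024

noncomputable def cumB (j : ℕ) : ℕ := 68299075231263 +
  sumTo (fun a => cond (Nat.ble 40 a) (SC / a + SC / (a + 1) + 2) 0) (j + 1)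

noncomputable def cumT (j : ℕ) : ℕ := cond (Nat.ble 40 j) (cumA 39 + cumB j) (cumA j)

theorem cumA_spec {j : ℕ} (hj : j < 40) (s : Finset ℕ)
    (hs : ∀ p ∈ s, p.Prime ∧ 5 ≤ p ∧ 4 * log p < (j + 1) * log 2) :
    (∑ p ∈ s, 2 / (p : ℝ)) * SC ≤ cumA j := by
  have h1 : ∀ p ∈ s, p ^ 4 < 2 ^ (j + 1) := fun p hp => by
    have p0 : (0 : ℝ) < p := by exact_mod_cast (hs p hp).1.pos
    have : log (p ^ 4) < log (2 ^ (j + 1)) := by
      rw [log_pow, log_pow]; exact_mod_cast (hs p hp).2.2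
    exact_mod_cast (log_lt_log_iff (by positivity) (by positivity)).1 this
  have h2 : ∀ p ∈ s, p < 1024 := fun p hp => lt_of_pow_lt_pow_left₀ 4 (by norm_num)
    ((h1 p hp).trans_le ((Nat.pow_le_pow_right (by norm_num) hj).trans (by norm_num)))
  rw [cumA, sumTo_eq, Nat.cast_sum, sum_mul]
  refine le_trans (sum_le_sum fun p hp => ?_) (sum_le_sum_of_subset_of_nonneg
    (fun p hp => mem_range.2 (h2 p hp)) fun _ _ _ => Nat.cast_nonneg _)
  rw [(isP_iff (h2 p hp)).2 ⟨(hs p hp).1, (hs p hp).2.1⟩, cond_true,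
    show Nat.blt (Nat.pow p 4) (Nat.pow 2 (Nat.succ j)) = true from Nat.blt_eq ▸ h1 p hp, cond_true]
  have := cast_div_lt (2 * SC) (hs p hp).1.pos
  rw [div_mul_eq_mul_div]
  exact_mod_cast this

theorem cumB_spec {j : ℕ} (hj : 39 ≤ j) :
    (log (17 / 16) + 2 * (log (j + 1) - log 40)) * SC ≤ cumB j := by
  induction j, hj using Nat.le_induction with
  | base =>
    have := log_le_half (x := 17 / 16) (by norm_num)
    have h : (68299075231263 : ℝ) ≤ cumB 39 := by exact_mod_cast Nat.le_add_right _ _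
    refine le_trans ?_ h
    norm_num [SC] at this ⊢
    linarith
  | succ n hn ih =>
    have e : cumB (n + 1) = cumB n + (SC / (n + 1) + SC / (n + 1 + 1) + 2) := by
      rw [cumB, cumB, sumTo_eq, sumTo_eq, sum_range_succ _ (n + 1),
        Nat.ble_eq_true_of_le (by omega), cond_true, ← add_assoc]
    have h1 := cast_div_lt SC (Nat.succ_pos n)
    have h2 := cast_div_lt SC (Nat.succ_pos (n + 1))
    have h3 := mul_le_mul_of_nonneg_right (log_succ_up (x := n + 1) (by positivity)) SC_pos.le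
    rw [e]
    rw [div_eq_mul_one_div] at h1 h2
    simp only [Nat.succ_eq_add_one, Nat.cast_add, Nat.cast_one, Nat.cast_ofNat] at h1 h2 ⊢
    linarith

theorem sum_add_SP {z : ℕ} {s : Finset ℕ} (hs : ∀ p ∈ s, z ≤ p) :
    ∑ p ∈ s, 2 / (p : ℝ) + SP z = ∑ p ∈ s ∪ PZ z, 2 / (p : ℝ) := by
  rw [sum_union (disjoint_left.2 fun p h1 h2 => by
    have := hs p h1; have := (mem_PZ.1 h2).2.2; omega), SP]

theorem cum_big {w z j : ℕ} {lam : ℝ} (hw : 1024 ≤ w) (hl : log w = 40 * lam) (hj : 39 ≤ j)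
    (h5 : 5 ≤ z) (hz : z ≤ w) (s : Finset ℕ)
    (hs : ∀ p ∈ s, p.Prime ∧ z ≤ p ∧ log p < (j + 1) * lam) :
    (∑ p ∈ s, 2 / (p : ℝ) + SP z - SP w) * SC ≤ cumB j := by
  obtain ⟨n, h1, h2⟩ := exists_max_image (insert w s) id (insert_nonempty _ _)
  have l1 := log_nat_pos (w := w) (by omega)
  have wn : w ≤ n := h2 w (mem_insert_self _ _)
  have j0 : (39 : ℝ) ≤ j := by exact_mod_cast hj
  have h3 : log n ≤ (j + 1) * lam := by
    rcases mem_insert.1 h1 with rfl | h
    · nlinarith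
    · exact (hs n h).2.2.le
  have h4 : ∑ p ∈ s, 2 / (p : ℝ) + SP z ≤ SP (n + 1) := by
    rw [sum_add_SP fun p hp => (hs p hp).2.1]
    refine sum_le_sum_of_subset_of_nonneg (union_subset (fun p hp => ?_) (PZ_mono (by omega)))
      fun _ _ _ => by positivity
    exact mem_PZ.2 ⟨(hs p hp).1, h5.trans (hs p hp).2.1,
      Nat.lt_succ_of_le (h2 p (mem_insert_of_mem hp))⟩
  have h6 := log_le_log (log_nat_pos (by omega)) h3
  have h7 := SP_sub hw wn
  have l0 : 0 < lam := by linarith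
  rw [hl, log_mul (by norm_num) l0.ne'] at h7
  rw [log_mul (by positivity) l0.ne'] at h6
  exact le_trans (mul_le_mul_of_nonneg_right (by linarith) SC_pos.le) (cumB_spec hj)

theorem log_1024 : log (1024 : ℕ) = 40 * (log 2 / 4) := by
  rw [show ((1024 : ℕ) : ℝ) = 2 ^ 10 by norm_num, log_pow]; push_cast; ring

theorem cum_mid {z j low : ℕ} (h5 : 5 ≤ z) (hz : z ≤ 1024) (hl : low ≤ SP z * SC) (s : Finset ℕ)
    (hs : ∀ p ∈ s, p.Prime ∧ z ≤ p ∧ log p < (j + 1) * (log 2 / 4)) :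
    ∑ p ∈ s, 2 / (p : ℝ) ≤ (cumT j - low : ℕ) / SC := by
  rcases s.eq_empty_or_nonempty with rfl | ⟨p0, h0⟩
  · simp only [sum_empty]; positivity
  rw [le_div_iff₀ SC_pos]
  refine le_trans ?_ (cast_sub_ge _ _)
  rw [cumT]
  rcases Nat.lt_or_ge j 40 with h | h
  · have := cumA_spec h (s ∪ PZ z) fun p hp => by
      rcases mem_union.1 hp with h1 | h1
      · exact ⟨(hs p h1).1, h5.trans (hs p h1).2.1, by linarith [(hs p h1).2.2]⟩
      · obtain ⟨h2, h3, h4⟩ := mem_PZ.1 h1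
        have : log p ≤ log p0 := log_le_log (by exact_mod_cast h2.pos)
          (by exact_mod_cast h4.le.trans (hs p0 h0).2.1)
        exact ⟨h2, h3, by linarith [(hs p0 h0).2.2]⟩
    rw [← sum_add_SP fun p hp => (hs p hp).2.1] at this
    rw [show Nat.ble 40 j = false from Bool.eq_false_iff.2 fun h' => by
      have := Nat.le_of_ble_eq_true h'; omega, cond_false]
    linarith
  · have h1 := cum_big le_rfl log_1024 (by omega) h5 hz s hs
    have h2 := cumA_spec (j := 39) (by norm_num) (PZ 1024) fun p hp => by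
      obtain ⟨h2, h3, h4⟩ := mem_PZ.1 hp
      have : log p < log (1024 : ℕ) := log_lt_log (by exact_mod_cast h2.pos) (by exact_mod_cast h4)
      rw [log_1024] at this
      exact ⟨h2, h3, by push_cast; linarith⟩
    rw [Nat.ble_eq_true_of_le h, cond_true, Nat.cast_add]
    rw [← SP] at h2
    linarith

noncomputable def goW (ph cm : ℕ → ℕ) (k : ℕ → Bool) (jz f : ℕ) : ℕ → ℕ → Bool :=
  Nat.rec (fun _ acc => k acc) (fun f ih pb acc => frc (Nat.add jz f) fun j => frc (ph j) fun a =>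
    frc (cond (Nat.ble a pb) pb a) fun p2 =>
    frc (Nat.add acc (Nat.mul (Nat.sub p2 pb) (cm j))) fun acc' => ih p2 acc') f

theorem goW_spec (ph cm : ℕ → ℕ) (k : ℕ → Bool) (jz f : ℕ) : ∀ pb acc,
    goW ph cm k jz f pb acc = true → ∃ φ : ℕ → ℕ, φ (jz + f) = pb ∧
      (∀ a, jz ≤ a → a < jz + f → φ (a + 1) ≤ φ a ∧ ph a ≤ φ a) ∧
      k (acc + ∑ a ∈ Ico jz (jz + f), (φ a - φ (a + 1)) * cm a) = true := by
  induction f with
  | zero => exact fun pb acc h => ⟨fun _ => pb, rfl, fun a _ _ => by omega, by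
      rw [add_zero, Ico_self, sum_empty]; exact h⟩
  | succ f ih =>
    intro pb acc h
    iterate 4 replace h := frc_true h
    obtain ⟨φ, h1, h2, h3⟩ := ih _ _ h
    have h4 := cond_max (ph (jz + f)) pb
    have e1 : ∀ a, a ≤ jz + f → Function.update φ (jz + f + 1) pb a = φ a := fun a ha =>
      Function.update_of_ne (by omega) _ _
    have e2 : Function.update φ (jz + f + 1) pb (jz + f + 1) = pb := Function.update_self _ _ _
    refine ⟨Function.update φ (jz + f + 1) pb, e2, fun a h5 h6 => ?_, ?_⟩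
    · rcases Nat.lt_or_ge a (jz + f) with h7 | h7
      · rw [e1 a h7.le, e1 _ h7]; exact h2 a h5 h7
      · obtain rfl : a = jz + f := by omega
        rw [e2, e1 _ le_rfl, h1]
        exact ⟨h4.2, h4.1⟩
    · rw [← add_assoc jz, sum_Ico_succ_top (Nat.le_add_right _ _), e2, e1 _ le_rfl, h1,
        sum_congr rfl (g := fun a => (φ a - φ (a + 1)) * cm a) fun a ha => by
          rw [e1 a (mem_Ico.1 ha).2.le, e1 _ (mem_Ico.1 ha).2], add_comm (∑ _ ∈ _, _), ← add_assoc]
      exact h3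

def exN (W i j : ℕ) : ℕ := Nat.succ (Nat.div (Nat.mul (Nat.add (Nat.succ (Nat.div (Nat.mul 5 (pw j)) 4))
  (Nat.mul (Nat.sub (Nat.div (Nat.mul 2 (Nat.succ i)) j) 1)
    (Nat.succ (Nat.div (Nat.mul 25 (pw (Nat.sub (Nat.sub i j) 1))) 8)))) SC) W)

def phN (U : ℕ → ℕ) (W i jy j : ℕ) : ℕ := Nat.succ (Nat.div (Nat.mul (Nat.sub jy j)
  (Nat.add (Nat.add SC (U (Nat.sub (Nat.sub i j) 1))) (exN W i j))) jy)

noncomputable def chk (U : ℕ → ℕ) (li W : ℕ) (cm : ℕ → ℕ) (jz i jy : ℕ) : Bool :=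
  Nat.ble 1 jz && Nat.ble jz jy && Nat.ble jy i && Nat.ble 1 W && goW (phN U W i jy) cm
    (fun acc => Nat.blt (acc * jy) ((8 * jy - 4 * (i + 1)) * (SC - li) * SC)) jz (jy - jz) 0 0

theorem chk_spec {U cm : ℕ → ℕ} {li W jz i jy : ℕ} (h : chk U li W cm jz i jy = true)
    {N z a0 : ℕ} {lam : ℝ} (hl : 0 < lam) (hN : 12 ≤ N) (hz : 5 ≤ z)
    (hi1 : i * lam ≤ log (N + 1)) (hi2 : log (N + 1) < (i + 1) * lam) (hjz : jz * lam ≤ log z)
    (hL : LX z (N + 1) (li / SC)) (a1 : a0 ≤ jz) (a2 : a0 ≤ i - jy)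
    (hU : ∀ a : ℕ, a0 ≤ a → a < i → ∀ X : ℝ, 0 < X → a * lam ≤ log X → UX z X (U a / SC))
    (hA : ∀ a : ℕ, a0 ≤ a → ∀ x : ℝ, 0 < x → a * lam ≤ log x → W ≤ V z * pw a * x)
    (hc : ∀ j, jz ≤ j → j < jy → ∀ s : Finset ℕ,
      (∀ p ∈ s, p.Prime ∧ z ≤ p ∧ log p < (j + 1) * lam) → ∑ p ∈ s, 2 / (p : ℝ) ≤ cm j / SC) :
    Good N := by
  simp only [chk, Bool.and_eq_true, Nat.ble_eq] at h
  obtain ⟨⟨⟨⟨h1, h2⟩, h3⟩, h4⟩, h⟩ := h
  obtain ⟨φ, h5, h6, h7⟩ := goW_spec _ _ _ _ _ _ _ h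
  rw [Nat.add_sub_cancel' h2] at h5 h6 h7
  rw [Nat.blt_eq, zero_add] at h7
  have b1 : 4 * (i + 1) < 8 * jy := by
    by_contra h8
    rw [Nat.sub_eq_zero_of_le (not_lt.1 h8)] at h7
    simp at h7
  have b2 : li < SC := by
    by_contra h8
    rw [Nat.sub_eq_zero_of_le (not_lt.1 h8)] at h7
    simp at h7
  have S0 := SC_pos
  have W0 : (0 : ℝ) < W := by exact_mod_cast h4
  refine weighted hl hN hz hi1 hi2 h1 hjz h3 hL ((div_le_one S0).2 (by exact_mod_cast b2.le))
    (fun j => U (i - j - 1) / SC) (fun j => exN W i j / SC) (fun j => φ j / SC) (fun j => cm j / SC)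
    (fun j c1 c2 X => hU _ (by omega) (by omega) X) (fun j c1 c2 p c3 c4 c5 => ?_)
    (fun j c1 c2 => ?_) (fun j c1 c2 => ?_) (by simp [h5]) hc ?_
  · have p0 : (0 : ℝ) < p := by exact_mod_cast (by omega : 0 < p)
    have d1 := hA j (by omega) p p0 c4
    have d2 := hA (i - j - 1) (by omega) _ (by positivity) c5
    have d3 := cast_div_lt (5 * pw j) (by norm_num : 0 < 4)
    have d4 := cast_div_lt (25 * pw (i - j - 1)) (by norm_num : 0 < 8)
    have d5 := cast_div_lt ((5 * pw j / 4 + 1 + (2 * (i + 1) / j - 1) *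
      (25 * pw (i - j - 1) / 8 + 1)) * SC) h4
    have e : exN W i j = (5 * pw j / 4 + 1 + (2 * (i + 1) / j - 1) *
      (25 * pw (i - j - 1) / 8 + 1)) * SC / W + 1 := rfl
    rw [← Nat.cast_succ, Nat.succ_eq_add_one, ← e, Nat.cast_mul, mul_div_right_comm,
      ← le_div_iff₀ S0] at d5
    refine le_trans ?_ (mul_le_mul_of_nonneg_left d5 (V_pos z).le)
    generalize 2 * (i + 1) / j - 1 = k
    rw [← mul_div_assoc (V z), le_div_iff₀ W0]
    rw [← div_le_iff₀ p0] at d1
    rw [← mul_div_assoc, le_div_iff₀ p0, ← div_le_iff₀ (by positivity)] at d2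
    have d6 := mul_le_mul_of_nonneg_left d3 (V_pos z).le
    have d7 := mul_le_mul_of_nonneg_left d4 (V_pos z).le
    simp only [Nat.cast_add, Nat.cast_mul, Nat.cast_one, Nat.cast_ofNat] at d6 d7 ⊢
    have d8 : 25 / 8 * (W * p / (N + 1) : ℝ) ≤ V z * ((25 * pw (i - j - 1) / 8 : ℕ) + 1) := by
      linarith
    have d9 := mul_le_mul_of_nonneg_left d8 (Nat.cast_nonneg (α := ℝ) k)
    have e2 : (5 / 4 / p + k * (25 / 8 * (p / (N + 1))) : ℝ) * W =
        5 / 4 * (W / p) + k * (25 / 8 * (W * p / (N + 1))) := by ring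
    rw [e2]
    linarith
  · have d1 := cast_div_lt ((jy - j) * (SC + U (i - j - 1) + exN W i j)) (by omega : 0 < jy)
    have d2 : ((((jy - j) * (SC + U (i - j - 1) + exN W i j)) / jy + 1 : ℕ) : ℝ) ≤ φ j :=
      Nat.cast_le.2 (h6 j c1 c2).2
    rw [Nat.cast_succ] at d2
    replace d1 := d1.trans d2
    rw [div_le_iff₀ (by exact_mod_cast (by omega : 0 < jy)), Nat.cast_mul, Nat.cast_sub c2.le] at d1
    push_cast at d1
    rw [← mul_div_assoc, le_div_iff₀ S0]
    refine le_trans (le_of_eq ?_) (d1.trans (le_of_eq (mul_comm _ _)))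
    field_simp
  · exact div_le_div_of_nonneg_right (Nat.cast_le.2 (h6 j c1 c2).1) S0.le
  · have d1 := (Nat.cast_lt (α := ℝ)).2 h7
    have d2 : ∑ j ∈ Ico jz jy, (((φ j - φ (j + 1)) * cm j : ℕ) : ℝ) =
        ∑ j ∈ Ico jz jy, ((φ j : ℝ) / SC - φ (j + 1) / SC) * (cm j / SC) * SC ^ 2 :=
      sum_congr rfl fun j hj => by
        rw [Nat.cast_mul, Nat.cast_sub (h6 j (mem_Ico.1 hj).1 (mem_Ico.1 hj).2).1]
        field_simp
    rw [Nat.cast_mul, Nat.cast_mul, Nat.cast_mul, Nat.cast_sub b1.le, Nat.cast_sub b2.le,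
      Nat.cast_sum, d2, ← sum_mul] at d1
    push_cast at d1
    refine lt_of_mul_lt_mul_right ?_ (sq_nonneg (SC : ℝ))
    refine lt_of_eq_of_lt (by ring) (d1.trans_eq ?_)
    field_simp

/-- all `N` up to `2 ^ (i / 4)` are done -/
def Done (i : ℕ) : Prop := ∀ N : ℕ, 12 ≤ N → log (N + 1) < i * (log 2 / 4) → Good N

theorem Done_14 : Done 14 := fun N h1 h2 => by
  have : (13 : ℝ) ≤ N + 1 := by exact_mod_cast Nat.succ_le_succ h1
  have h3 : log (2 ^ 14) ≤ log ((N + 1) ^ 4) := log_le_log (by norm_num)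
    (le_trans (by norm_num) (pow_le_pow_left₀ (by norm_num) this 4))
  rw [log_pow, log_pow] at h3
  push_cast at *
  linarith

/-- the checks at one sieving level -/
noncomputable def cks (CT z u l W low i0 n : ℕ) : Bool := frc (Nat.log2 (z ^ 4)) fun jz =>
  allTo (fun k => frc (i0 + k) fun i => cond (Nat.blt i 440)
    (chk (gt u) (gt l i) W (fun j => Nat.sub (gt CT j) low) jz i (6 * i / 7)) false) n

theorem cks_spec {CT z u l t W low C i0 n : ℕ} (hCT : ∀ j < 440, gt CT j = cumT j) (h5 : 5 ≤ z)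
    (hz : z ≤ 1024) (h : DI z u l t W low C) (h0 : Done i0)
    (h1 : cks CT z u l W low i0 n = true) : Done (i0 + n) := by
  replace h1 := frc_true h1
  have h2 := allTo_spec h1
  clear h1
  induction n with
  | zero => exact h0
  | succ n ih =>
    intro N hN h3
    rcases lt_or_ge (log (N + 1)) ((i0 + n : ℕ) * (log 2 / 4)) with h4 | h4
    · exact ih (fun i hi => h2 i (by omega)) N hN h4
    have h6 := frc_true (h2 n (by omega))
    obtain ⟨h6, h7⟩ := cond_true' h6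
    rw [Nat.blt_eq] at h6
    have l2 := log_two_gt_d9
    refine chk_spec (a0 := 0) (lam := log 2 / 4) h7 (by linarith) hN h5 h4 (by exact_mod_cast h3) ?_
      (h.hl _ (by omega) _ (by positivity) (by linarith)) (Nat.zero_le _) (Nat.zero_le _)
      (fun a _ c X hX c' => h.hu a (by omega) X hX (by linarith)) (fun a _ x hx c => ?_)
      fun j c1 c2 s hs => ?_
    · have : log (2 ^ (z ^ 4).log2) ≤ log (z ^ 4) := log_le_log (by positivity)
        (by exact_mod_cast Nat.log2_self_le (by positivity))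
      rw [log_pow, log_pow] at this
      push_cast at this
      linarith
    · rw [mul_assoc]
      exact h.hV.trans (mul_le_mul_of_nonneg_left (pw_spec hx (by linarith)) (V_pos z).le)
    · rw [hCT j (by omega)]
      exact cum_mid h5 hz h.hlow s hs

/-- the main loop -/
noncomputable def run (O O' CT : ℕ) (k : ℕ → ℕ → ℕ → ℕ → ℕ → ℕ → ℕ → Bool) (f : ℕ) :
    ℕ → ℕ → ℕ → ℕ → ℕ → ℕ → ℕ → ℕ → ℕ → Bool :=
  Nat.rec (fun _ i0 u l t W low C _ => k i0 u l t W low C)
    (fun _ ih n i0 u l t W low C r => frc (Nat.succ n) fun n' => cond (isP n)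
      (frc (8 * Nat.log2 (n ^ 4) - i0) fun m => frc (i0 + m) fun i1 =>
        cond (cks CT n u l W low i0 m) (stp O O' n u l t W low C r (ih n' i1)) false)
      (ih n' i0 u l t W low C r)) f

theorem run_spec {O O' CT : ℕ} (hO : Ones O 520) (hO' : Ones O' 720) (hCT : ∀ j < 440, gt CT j = cumT j)
    (k : ℕ → ℕ → ℕ → ℕ → ℕ → ℕ → ℕ → Bool) (f : ℕ) : ∀ n i0 u l t W low C r, 5 ≤ n →
    n + f = 1024 → DI n u l t W low C → Done i0 → run O O' CT k f n i0 u l t W low C r = true →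
    ∃ i0 u l t W low C, DI 1024 u l t W low C ∧ Done i0 ∧ k i0 u l t W low C = true := by
  induction f with
  | zero =>
    intro n i0 u l t W low C r _ h1 h2 h3 h4
    obtain rfl : n = 1024 := h1
    exact ⟨_, _, _, _, _, _, _, h2, h3, h4⟩
  | succ f ih =>
    intro n i0 u l t W low C r h0 h1 h2 h3 h4
    replace h4 := frc_true h4
    have h5 := isP_iff (n := n) (by omega)
    cases h6 : isP n <;> rw [h6] at h4 h5
    · exact ih _ _ _ _ _ _ _ _ _ (Nat.le_succ_of_le h0) (by omega)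
        (h2.skip fun hp => by simpa using h5.2 ⟨hp, h0⟩) h3 h4
    · rw [cond_true] at h4
      iterate 2 replace h4 := frc_true h4
      obtain ⟨h7, h8⟩ := cond_true' h4
      obtain ⟨u', l', t', W', low', C', r', h9, h10⟩ := stp_spec hO hO' (h5.1 rfl).1 h0 h2 h8
      exact ih _ _ _ _ _ _ _ _ _ (Nat.le_succ_of_le h0) (by omega) h9
        (cks_spec hCT h0 (by omega) h2 h3 h7) h10

/-- the whole computation below `1024` -/
noncomputable def runAll (k : ℕ → ℕ → ℕ → ℕ → ℕ → ℕ → Bool) : Bool :=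
  bld cumT (fun CT => ini fun O O' u t => run O O' CT (fun i0 u l t W low C =>
    cond (cks CT 1024 u l W low i0 (440 - i0)) (k CT u l t W C) false)
    1019 5 14 u u t SC 0 4 2) 440 0

theorem Done.mono {i j : ℕ} (h : Done i) (hj : j ≤ i) : Done j := fun N h1 h2 =>
  h N h1 (h2.trans_le (mul_le_mul_of_nonneg_right (by exact_mod_cast hj)
    (by linarith [log_two_gt_d9])))

theorem runAll_spec {k : ℕ → ℕ → ℕ → ℕ → ℕ → ℕ → Bool} (h : runAll k = true) :
    Done 440 ∧ ∃ CT u l t W low C, (∀ j < 440, gt CT j = cumT j) ∧ DI 1024 u l t W low C ∧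
      k CT u l t W C = true := by
  obtain ⟨CT, h, -, hCT, -⟩ := bld_spec h
  obtain ⟨O, O', u, t, o1, o2, h1, h⟩ := ini_spec h
  obtain ⟨i0, u, l, t, W, low, C, h2, h3, h⟩ :=
    run_spec o1 o2 hCT _ _ _ _ _ _ _ _ _ _ _ le_rfl rfl h1 Done_14 h
  obtain ⟨h4, h5⟩ := cond_true' h
  exact ⟨(cks_spec hCT (by norm_num) le_rfl h2 h3 h4).mono (by omega), CT, u, l, t, W, low, C,
    hCT, h2, h5⟩

end Pool.Agent.P.MP_e94e4b_nt
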