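import Pool.Agent.P.MP_e94e4b_nt.HKp

/-! The prime by prime dynamic programme for the sieving levels below `1024`. -/

namespace Pool.Agent.P.MP_e94e4b_nt

open Finset Real

/-- the scale -/
def SC : ℕ := 1125899906842624

theorem SC_pos : (0 : ℝ) < SC := by norm_num [SC]

/-- entry `i` of a packed table -/
def gt (T i : ℕ) : ℕ :=
  Nat.land (Nat.shiftRight T (Nat.mul 128 i)) 340282366920938463463374607431768211455

theorem gt_eq (T i : ℕ) : gt T i = T / 2 ^ (128 * i) % 2 ^ 128 := by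
  rw [← Nat.shiftRight_eq_div_pow, ← Nat.and_two_pow_sub_one_eq_mod]; rfl

theorem gt_bit (T i k : ℕ) : (gt T i).testBit k = (decide (k < 128) && T.testBit (k + 128 * i)) := by
  rw [gt_eq, Nat.testBit_mod_two_pow, Nat.testBit_div_two_pow]

theorem gt_land (A B i : ℕ) : gt (Nat.land A B) i = gt A i &&& gt B i :=
  Nat.eq_of_testBit_eq fun k => by
    rw [Nat.testBit_and, gt_bit, gt_bit, gt_bit, show Nat.land A B = A &&& B from rfl,
      Nat.testBit_and]
    cases decide (k < 128) <;> simp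

/-- the fields below `s` come from `B`, the others from `A` shifted -/
def sft (A B s : ℕ) : ℕ := Nat.lor (Nat.shiftLeft A (Nat.mul 128 s)) (Nat.mod B (Nat.pow 2 (Nat.mul 128 s)))

theorem gt_sft (A B s i : ℕ) : gt (sft A B s) i = if s ≤ i then gt A (i - s) else gt B i :=
  Nat.eq_of_testBit_eq fun k => by
    rw [gt_bit, show sft A B s = A <<< (128 * s) ||| B % 2 ^ (128 * s) from rfl, Nat.testBit_or,
      Nat.testBit_shiftLeft, Nat.testBit_mod_two_pow]
    by_cases hk : k < 128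
    · split_ifs with h
      · rw [gt_bit, decide_eq_true (by omega : k + 128 * i ≥ 128 * s),
          decide_eq_false (by omega : ¬ k + 128 * i < 128 * s),
          show k + 128 * i - 128 * s = k + 128 * (i - s) by omega]
        simp
      · rw [gt_bit, decide_eq_false (by omega : ¬ k + 128 * i ≥ 128 * s),
          decide_eq_true (by omega : k + 128 * i < 128 * s)]
        simp
    · split_ifs <;> simp [gt_bit, hk]

theorem gt_shr (A s i : ℕ) : gt (Nat.shiftRight A (Nat.mul 128 s)) i = gt A (i + s) :=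
  Nat.eq_of_testBit_eq fun k => by
    rw [gt_bit, gt_bit, show Nat.shiftRight A (Nat.mul 128 s) = A >>> (128 * s) from rfl,
      Nat.testBit_shiftRight]
    congr 2
    omega

theorem gt_div (A i : ℕ) : gt (Nat.shiftRight A 50) i &&& (2 ^ 78 - 1) = gt A i / 2 ^ 50 :=
  Nat.eq_of_testBit_eq fun k => by
    rw [Nat.and_two_pow_sub_one_eq_mod, Nat.testBit_mod_two_pow, Nat.testBit_div_two_pow, gt_bit,
      gt_bit, show Nat.shiftRight A 50 = A >>> 50 from rfl, Nat.testBit_shiftRight,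
      show 50 + (k + 128 * i) = k + 50 + 128 * i by omega]
    by_cases hk : k < 78
    · rw [decide_eq_true hk, decide_eq_true (by omega : k < 128),
        decide_eq_true (by omega : k + 50 < 128)]
      rfl
    · rw [decide_eq_false hk, decide_eq_false (by omega : ¬ k + 50 < 128)]
      rfl

theorem gt_lin {a b A B : ℕ} (h : ∀ i, a * gt A i + b * gt B i < 2 ^ 128) (i : ℕ) :
    gt (a * A + b * B) i = a * gt A i + b * gt B i := by
  induction i generalizing A B with
  | zero =>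
    have := h 0
    simp only [gt_eq, mul_zero, pow_zero, Nat.div_one] at this ⊢
    rw [← Nat.mod_eq_of_lt this]
    exact ((Nat.mod_modEq _ _).mul_left a).symm.add ((Nat.mod_modEq _ _).mul_left b).symm
  | succ i ih =>
    have e : ∀ T j, gt T (j + 1) = gt (T / 2 ^ 128) j := fun T j => by
      rw [gt_eq, gt_eq, Nat.div_div_eq_div_mul, ← pow_add, mul_add, mul_one, add_comm]
    have h0 := h 0
    simp only [gt_eq, mul_zero, pow_zero, Nat.div_one] at h0
    have e2 : (a * A + b * B) / 2 ^ 128 = a * (A / 2 ^ 128) + b * (B / 2 ^ 128) := by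
      have e3 : a * A + b * B = 2 ^ 128 * (a * (A / 2 ^ 128) + b * (B / 2 ^ 128)) +
          (a * (A % 2 ^ 128) + b * (B % 2 ^ 128)) := by
        conv_lhs => rw [← Nat.div_add_mod A (2 ^ 128), ← Nat.div_add_mod B (2 ^ 128)]
        ring
      rw [e3, Nat.mul_add_div (by positivity), Nat.div_eq_of_lt h0, add_zero]
    rw [e, e, e, e2]
    exact ih fun j => by rw [← e, ← e]; exact h _

/-- the table with `n` entries equal to one -/
def Ones (O n : ℕ) : Prop := ∀ i, gt O i = if i < n then 1 else 0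

theorem Ones.mul {O n : ℕ} (h : Ones O n) {c : ℕ} (hc : c < 2 ^ 128) (i : ℕ) :
    gt (Nat.mul c O) i = if i < n then c else 0 := by
  have := gt_lin (a := c) (b := 0) (A := O) (B := 0) (fun j => by
    rw [h j]; split_ifs <;> omega) i
  simp only [zero_mul, add_zero, h i, mul_ite, mul_one, mul_zero] at this
  exact this

/-- all entries are small -/
def Sm (T : ℕ) : Prop := ∀ i, gt T i ≤ 2 ^ 64

theorem Sm.sft {A B : ℕ} (hA : Sm A) (hB : Sm B) (s : ℕ) : Sm (sft A B s) := fun i => by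
  rw [gt_sft]
  split_ifs
  exacts [hA _, hB _]

/-- entrywise upper approximation of `(a * A + b * B) / c` -/
def lin (O a b c A B : ℕ) (k : ℕ → Bool) : Bool :=
  frc (Nat.succ (Nat.div 1125899906842624 c)) fun m =>
  frc (Nat.land (Nat.shiftRight (a * m * A + b * m * B) 50) (Nat.mul 302231454903657293676543 O))
    fun X => cond (Nat.ble (a * m + b * m) 9223372036854775808 &&
      Nat.beq (Nat.land X (Nat.mul 18446744073709551615 O)) X) (frc (1 * X + 1 * O) k) false

theorem lin_spec {O n a b c A B : ℕ} {k : ℕ → Bool} (hO : Ones O n) (hA : Sm A) (hB : Sm B)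
    (hc : 0 < c) (h : lin O a b c A B k = true) :
    ∃ T, k T = true ∧ Sm T ∧ ∀ i < n, a * gt A i + b * gt B i ≤ gt T i * c := by
  iterate 2 replace h := frc_true h
  obtain ⟨h1, h2⟩ := cond_true' h
  rw [Bool.and_eq_true, Nat.ble_eq, Nat.beq_eq] at h1
  have m1 : 2 ^ 50 ≤ c * Nat.succ (Nat.div 1125899906842624 c) := (Nat.lt_mul_div_succ _ hc).le
  generalize Nat.succ (Nat.div 1125899906842624 c) = m at *
  obtain ⟨h3, h4⟩ := h1
  have h5 := gt_lin (a := a * m) (b := b * m) (A := A) (B := B) fun i => by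
    have := Nat.mul_le_mul_left (a * m) (hA i)
    have := Nat.mul_le_mul_left (b * m) (hB i)
    omega
  set X := Nat.land (Nat.shiftRight (a * m * A + b * m * B) 50)
    (Nat.mul 302231454903657293676543 O) with hX
  have h6 : ∀ i, gt X i < 2 ^ 64 := fun i => by
    rw [← h4, gt_land, hO.mul (by norm_num)]
    refine Nat.and_lt_two_pow _ ?_
    split_ifs <;> norm_num
  have h7 := gt_lin (a := 1) (b := 1) (A := X) (B := O) fun i => by
    have := h6 i
    rw [hO i]
    split_ifs <;> omega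
  refine ⟨_, frc_true h2, fun i => ?_, fun i hi => ?_⟩
  · have := h6 i
    rw [h7, hO i]
    split_ifs <;> omega
  · rw [h7, hO i, if_pos hi, hX, gt_land, hO.mul (by norm_num), if_pos hi,
      show 302231454903657293676543 = 2 ^ 78 - 1 by norm_num, gt_div, h5, one_mul, one_mul]
    have h8 := (Nat.lt_mul_div_succ (a * m * gt A i + b * m * gt B i) (by positivity : 0 < 2 ^ 50)).le
    generalize (a * m * gt A i + b * m * gt B i) / 2 ^ 50 + 1 = y at *
    refine Nat.le_of_mul_le_mul_left (c := 2 ^ 50) ?_ (by positivity)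
    calc 2 ^ 50 * (a * gt A i + b * gt B i) ≤ c * m * (a * gt A i + b * gt B i) := by gcongr
      _ = c * (a * m * gt A i + b * m * gt B i) := by ring
      _ ≤ c * (2 ^ 50 * y) := by gcongr
      _ = _ := by ring

/-- build a packed table -/
noncomputable def bld (f : ℕ → ℕ) (k : ℕ → Bool) (n : ℕ) : ℕ → Bool :=
  Nat.rec (fun acc => k acc) (fun i ih acc => frc (f i) fun v =>
    cond (Nat.ble v 18446744073709551616) (frc (Nat.add (Nat.shiftLeft acc 128) v) ih) false) n

theorem bld_aux (f : ℕ → ℕ) (k : ℕ → Bool) (n : ℕ) : ∀ acc, bld f k n acc = true →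
    ∃ T, k T = true ∧ T / 2 ^ (128 * n) = acc ∧ ∀ i < n, gt T i = f i ∧ f i ≤ 2 ^ 64 := by
  induction n with
  | zero => exact fun acc h => ⟨acc, h, by simp, by simp⟩
  | succ n ih =>
    intro acc h
    replace h := frc_true h
    obtain ⟨h1, h2⟩ := cond_true' h
    obtain ⟨T, h3, h4, h5⟩ := ih _ (frc_true h2)
    have h6 := Nat.le_of_ble_eq_true h1
    have h7 : T / 2 ^ (128 * n) = acc * 2 ^ 128 + f n := by
      rw [h4, ← Nat.shiftLeft_eq]; rfl
    refine ⟨T, h3, ?_, fun i hi => ?_⟩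
    · rw [mul_add, pow_add, ← Nat.div_div_eq_div_mul, h7]; omega
    · rcases Nat.lt_or_ge i n with h8 | h8
      · exact h5 i h8
      · obtain rfl : i = n := by omega
        rw [gt_eq, h7]; omega

theorem bld_spec {f : ℕ → ℕ} {k : ℕ → Bool} {n : ℕ} (h : bld f k n 0 = true) :
    ∃ T, k T = true ∧ Sm T ∧ (∀ i < n, gt T i = f i) ∧ ∀ i, n ≤ i → gt T i = 0 := by
  obtain ⟨T, h1, h2, h3⟩ := bld_aux _ _ _ _ h
  have h4 : ∀ i, n ≤ i → gt T i = 0 := fun i hi => by
    obtain ⟨j, rfl⟩ := Nat.exists_eq_add_of_le hi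
    rw [gt_eq, mul_add, pow_add, ← Nat.div_div_eq_div_mul, h2]; simp
  refine ⟨T, h1, fun i => ?_, fun i hi => (h3 i hi).1, h4⟩
  rcases Nat.lt_or_ge i n with h5 | h5
  · exact (h3 i h5).1.trans_le (h3 i h5).2
  · exact (h4 i h5).trans_le (Nat.zero_le _)

/-- test all `i < n` -/
noncomputable def allTo (p : ℕ → Bool) (n : ℕ) : Bool :=
  Nat.rec true (fun i ih => cond (p i) ih false) n

theorem allTo_spec {p : ℕ → Bool} {n : ℕ} (h : allTo p n = true) : ∀ i < n, p i = true := by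
  induction n with
  | zero => simp
  | succ n ih =>
    obtain ⟨h1, h2⟩ := cond_true' h
    intro i hi
    rcases Nat.lt_or_ge i n with h8 | h8
    · exact ih h2 i h8
    · obtain rfl : i = n := by omega
      exact h1

/-- sum over all `i < n` -/
noncomputable def sumTo (f : ℕ → ℕ) (n : ℕ) : ℕ := Nat.rec 0 (fun i ih => Nat.add ih (f i)) n

theorem sumTo_eq (f : ℕ → ℕ) (n : ℕ) : sumTo f n = ∑ i ∈ range n, f i := by
  induction n with
  | zero => rfl
  | succ n ih => rw [sum_range_succ, ← ih]; rfl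

def mn (a b : ℕ) : ℕ := cond (Nat.ble a b) a b

theorem mn_cases (a b : ℕ) : mn a b = a ∧ a ≤ b ∨ mn a b = b ∧ b ≤ a := by
  unfold mn
  cases h : Nat.ble a b
  · exact Or.inr ⟨rfl, (Nat.lt_of_not_le fun h' : a ≤ b => by
      rw [Nat.ble_eq_true_of_le h'] at h; cases h).le⟩
  · exact Or.inl ⟨rfl, Nat.le_of_ble_eq_true h⟩

/-- upper approximation of `SC * 2 ^ (-a / 4)` -/
def pw (a : ℕ) : ℕ := Nat.succ (Nat.shiftRight
  (gt 0x260dfc14636e300000000000000000002d413cccfe77a000000000000000000035d13f32b5a7600000000000000000004000000000000 (Nat.mod a 4))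
  (Nat.div a 4))

theorem pw_spec {a : ℕ} {x : ℝ} (hx : 0 < x) (h : a * log 2 ≤ 4 * log x) : SC ≤ pw a * x := by
  have h1 : (2 : ℝ) ^ a ≤ x ^ 4 := by
    rw [← log_le_log_iff (by positivity) (by positivity), log_pow, log_pow]; exact_mod_cast h
  have h2 : SC ^ 4 ≤ pw a ^ 4 * 2 ^ a := by
    set R := gt 0x260dfc14636e300000000000000000002d413cccfe77a000000000000000000035d13f32b5a7600000000000000000004000000000000 (a % 4) with hR
    have a1 : SC ^ 4 ≤ R ^ 4 * 2 ^ (a % 4) := by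
      have : a % 4 < 4 := Nat.mod_lt _ (by norm_num)
      rw [hR]
      generalize a % 4 = r at *
      interval_cases r <;> decide +kernel
    have a2 : R ≤ pw a * 2 ^ (a / 4) := by
      rw [show pw a = R / 2 ^ (a / 4) + 1 by rw [← Nat.shiftRight_eq_div_pow]; rfl, mul_comm]
      exact (Nat.lt_mul_div_succ _ (by positivity)).le
    calc SC ^ 4 ≤ R ^ 4 * 2 ^ (a % 4) := a1
      _ ≤ (pw a * 2 ^ (a / 4)) ^ 4 * 2 ^ (a % 4) := by gcongr
      _ = pw a ^ 4 * 2 ^ (a / 4 * 4 + a % 4) := by ring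
      _ = _ := by rw [Nat.div_add_mod']
  refine le_of_pow_le_pow_left₀ (n := 4) (by norm_num) (by positivity) ?_
  have h3 : (SC : ℝ) ^ 4 ≤ pw a ^ 4 * 2 ^ a := by exact_mod_cast h2
  rw [mul_pow]
  exact h3.trans (mul_le_mul_of_nonneg_left h1 (by positivity))

/-- primality test for `5 ≤ n < 1024` -/
def isP (n : ℕ) : Bool := cond (Nat.ble 32 n) (Nat.beq (Nat.gcd n 8222838654177922817725562880000000) 1)
  (Nat.beq (Nat.land (Nat.shiftRight 2693408928 n) 1) 1)

theorem isP_iff {n : ℕ} (h : n < 1024) : isP n = true ↔ n.Prime ∧ 5 ≤ n := by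
  rcases Nat.lt_or_ge n 32 with h1 | h1
  · interval_cases n <;> decide +kernel
  rw [isP, Nat.ble_eq_true_of_le h1, cond_true, Nat.beq_eq,
    show 8222838654177922817725562880000000 = Nat.factorial 31 by decide +kernel]
  constructor
  · intro h2
    refine ⟨?_, by omega⟩
    by_contra hp
    have a1 := Nat.minFac_sq_le_self (by omega) hp
    have a2 := Nat.minFac_prime (n := n) (by omega)
    have a3 : n.minFac ∣ Nat.factorial 31 := a2.dvd_factorial.2 (by nlinarith)
    have := Nat.dvd_gcd (Nat.minFac_dvd n) a3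
    rw [h2] at this
    exact a2.one_lt.ne' (Nat.dvd_one.1 this)
  · exact fun hp => (Nat.Prime.coprime_iff_not_dvd hp.1).2 fun h => by
      have := (hp.1.dvd_factorial).1 h; omega

theorem UX_step {q : ℕ} (hp : q.Prime) (h5 : 5 ≤ q) {X e φ e' : ℝ} (h1 : UX q X e)
    (h2 : LX q (X / q) φ) (h0 : 0 ≤ X) (he : q * e + 2 * φ ≤ e' * (q - 2)) : UX (q + 1) X e' := by
  intro Y α β x hY ho
  have a1 := up_step h5 (fun _ => h2) hY ho x
  have a2 := h1 Y α β x hY (ho.mono (Nat.le_succ q))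
  have q5 : (5 : ℝ) ≤ q := by exact_mod_cast h5
  have a3 := mul_le_mul_of_nonneg_left he (show 0 ≤ Y * V q / q from
    div_nonneg (mul_nonneg (by linarith) (V_pos q).le) (by linarith))
  rw [V_succ_of_prime hp h5] at *
  have e1 : Y * V q / q * (q * e + 2 * φ) = Y * V q * e + (Y * V q - Y * (V q * (1 - 2 / q))) * φ := by
    field_simp; ring
  have e2 : Y * V q / q * (e' * (q - 2)) = Y * (V q * (1 - 2 / q)) * e' := by field_simp
  linarith

theorem LX_step {q : ℕ} (hp : q.Prime) (h5 : 5 ≤ q) {X e φ e' : ℝ} (h1 : LX q X e)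
    (h2 : UX q (X / q) φ) (h0 : 0 ≤ X) (he : q * e + 2 * φ ≤ e' * (q - 2)) : LX (q + 1) X e' := by
  intro Y α β x hY ho
  have a1 := lo_step h5 (fun _ => h2) hY ho x
  have a2 := h1 Y α β x hY (ho.mono (Nat.le_succ q))
  have q5 : (5 : ℝ) ≤ q := by exact_mod_cast h5
  have a3 := mul_le_mul_of_nonneg_left he (show 0 ≤ Y * V q / q from
    div_nonneg (mul_nonneg (by linarith) (V_pos q).le) (by linarith))
  rw [V_succ_of_prime hp h5] at *
  have e1 : Y * V q / q * (q * e + 2 * φ) = Y * V q * e + (Y * V q - Y * (V q * (1 - 2 / q))) * φ := by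
    field_simp; ring
  have e2 : Y * V q / q * (e' * (q - 2)) = Y * (V q * (1 - 2 / q)) * e' := by field_simp
  linarith

theorem TX_step {q : ℕ} (hp : q.Prime) (h5 : 5 ≤ q) {X e φ e' : ℝ} (h1 : TX q X e)
    (h2 : TX q (X / q ^ 2) φ) (he : (q - 2) * e + 2 * φ ≤ e' * q) : TX (q + 1) X e' := by
  intro Q h0 hQ
  have a1 := G_step h5 (fun _ => h2) h0 hQ
  have a2 := h1 Q h0 hQ
  have q5 : (5 : ℝ) ≤ q := by exact_mod_cast h5
  have q2 : (q : ℝ) - 2 ≠ 0 := by linarith
  have hV := V_pos q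
  have a3 := mul_le_mul_of_nonneg_left he (show 0 ≤ 1 / V q / (q - 2) from
    div_nonneg (by positivity) (by linarith))
  rw [V_succ_of_prime hp h5] at *
  have e1 : 1 / V q / (q - 2) * ((q - 2) * e + 2 * φ) =
      e / V q + (-(1 / V q) - -(1 / (V q * (1 - 2 / q)))) * φ := by field_simp; ring
  have e2 : 1 / V q / (q - 2) * (e' * q) = e' / (V q * (1 - 2 / q)) := by field_simp
  rw [sub_div] at *
  linarith

/-- the Rankin type bound -/
def RK (z : ℕ) (C : ℝ) : Prop :=
  1 ≤ C ∧ ∀ ρ X : ℝ, 1 ≤ ρ → ρ ^ 3 ≤ X → UX z X (C / ρ) ∧ LX z X (C / ρ)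

theorem RK_five : RK 5 4 := ⟨by norm_num, fun ρ X h1 h2 => by
  have : ρ ≤ X := (le_self_pow₀ h1 (by norm_num)).trans h2
  have h3 : 25 / 8 ≤ X * (4 / ρ) := by
    rw [← mul_div_assoc, le_div_iff₀ (by linarith)]; linarith
  exact ⟨UX_five (by linarith) h3, LX_five (by linarith) h3⟩⟩

theorem RK.step {q : ℕ} (hp : q.Prime) (h5 : 5 ≤ q) {C C' r : ℝ} (h : RK q C) (r1 : 1 ≤ r)
    (h1 : q ≤ r ^ 3) (h2 : r ≤ C') (h3 : C * (q + 2 * r) ≤ C' * (q - 2)) : RK (q + 1) C' := by
  refine ⟨r1.trans h2, fun ρ X a1 a2 => ?_⟩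
  have q5 : (5 : ℝ) ≤ q := by exact_mod_cast h5
  obtain ⟨a3, a4⟩ := h.2 ρ X a1 a2
  have X0 : 0 ≤ X := le_trans (by positivity) a2
  have he : q * (C / ρ) + 2 * (C / (ρ / r)) ≤ C' / ρ * (q - 2) := by
    refine le_trans (le_of_eq ?_) ((div_le_div_of_nonneg_right h3 (by linarith : 0 ≤ ρ)).trans
      (le_of_eq (by ring)))
    field_simp
  rcases le_total r ρ with a5 | a5
  · obtain ⟨a6, a7⟩ := h.2 (ρ / r) (X / q) ((one_le_div (by linarith)).2 a5) (by
      rw [div_pow]; gcongr)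
    exact ⟨UX_step hp h5 a3 a7 X0 he, LX_step hp h5 a4 a6 X0 he⟩
  · refine ⟨UX_step hp h5 a3 (LX_triv _ (by positivity) ?_) X0 he,
      LX_triv _ X0 ((one_le_div (by linarith)).2 (a5.trans h2))⟩
    rw [one_le_div (by positivity)]
    exact ((div_le_one (by linarith)).2 a5).trans h.1

/-- the sum of `2 / p` over the sieving primes -/
noncomputable def SP (z : ℕ) : ℝ := ∑ p ∈ PZ z, 2 / (p : ℝ)

/-- the invariant of the dynamic programme -/
structure DI (z u l t W low C : ℕ) : Prop where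
  hu : ∀ i : ℕ, i < 520 → ∀ X : ℝ, 0 < X → i * log 2 ≤ 4 * log X → UX z X (gt u i / SC)
  hl : ∀ i : ℕ, i < 520 → ∀ X : ℝ, 0 < X → i * log 2 ≤ 4 * log X → LX z X (gt l i / SC)
  ht : ∀ i : ℕ, i < 720 → ∀ X : ℝ, 0 < X → i * log 2 ≤ 4 * log X → TX z X (gt t i / SC)
  hV : W ≤ V z * SC
  hlow : low ≤ SP z * SC
  hC : RK z C
  su : Sm u
  sl : Sm l
  st : Sm t

theorem DI.skip {z u l t W low C : ℕ} (h : DI z u l t W low C) (hp : ¬ z.Prime) :
    DI (z + 1) u l t W low C := by
  obtain ⟨h1, h2, h3, h4, h5, h6, h7, h8, h9⟩ := h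
  have e := PZ_succ_of_not hp
  constructor <;> simp only [RK, UX, LX, TX, V, G, SP, Sv, SS, Ok, Sif, e] at * <;> assumption

theorem shift {q k sh i : ℕ} (hq : 0 < q) (h : q ^ (4 * k) ≤ 2 ^ sh) (hi : sh ≤ i) {X : ℝ}
    (hX : 0 < X) (h1 : i * log 2 ≤ 4 * log X) : (i - sh : ℕ) * log 2 ≤ 4 * log (X / q ^ k) := by
  have : log (q ^ (4 * k)) ≤ log (2 ^ sh) := log_le_log (by positivity) (by exact_mod_cast h)
  rw [log_pow, log_pow] at this
  rw [log_div hX.ne' (by positivity), log_pow, Nat.cast_sub hi]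
  push_cast at this
  linarith

theorem step_num {a c x y w : ℕ} (h : a * x + 2 * y ≤ w * c) :
    a * ((x : ℝ) / SC) + 2 * (y / SC) ≤ w / SC * c := by
  rw [← mul_div_assoc, ← mul_div_assoc, ← add_div, div_mul_eq_mul_div]
  exact div_le_div_of_nonneg_right (by exact_mod_cast h) SC_pos.le

/-- unverified search for the first entry below `SC` -/
noncomputable def adv (X : ℕ) (f : ℕ) : ℕ → ℕ :=
  Nat.rec (fun i => i) (fun _ ih i => cond (Nat.ble (gt X i) SC) i (ih (Nat.succ i))) f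

/-- one prime -/
noncomputable def stp (O O' q u l t W low C r : ℕ) (k : ℕ → ℕ → ℕ → ℕ → ℕ → ℕ → ℕ → Bool) : Bool :=
  frc (Nat.succ (Nat.log2 (q ^ 4))) fun sh => frc (Nat.succ (Nat.log2 (q ^ 8))) fun sh2 =>
  lin O q 2 (q - 2) u (sft l (Nat.mul SC O) sh) fun u' =>
  lin O q 2 (q - 2) l (sft u (Nat.mul SC O) sh) fun X => frc (sh + adv (X >>> (128 * sh)) 200 0) fun c =>
  frc (sft (Nat.shiftRight X (Nat.mul 128 c)) (Nat.mul SC O) c) fun l' =>
  lin O' (q - 2) 2 q t (sft t (Nat.mul SC O') sh2) fun t' =>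
    frc (W * (q - 2) / q) fun W' => frc (low + 2 * SC / q) fun low' =>
    frc (cond (Nat.ble q (r ^ 3)) r (r + 1)) fun r' =>
    frc (C * (q + 2 * r') / (q - 2) + 1) fun C' =>
    cond (Nat.ble q (r' ^ 3) && Nat.ble r' C') (k u' l' t' W' low' C' r') false

theorem stp_spec {O O' q u l t W low C r : ℕ} {k : ℕ → ℕ → ℕ → ℕ → ℕ → ℕ → ℕ → Bool}
    (hO : Ones O 520) (hO' : Ones O' 720) (hp : q.Prime) (h5 : 5 ≤ q) (h : DI q u l t W low C)
    (h' : stp O O' q u l t W low C r k = true) :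
    ∃ u' l' t' W' low' C' r', DI (q + 1) u' l' t' W' low' C' ∧ k u' l' t' W' low' C' r' = true := by
  have o1 := hO.mul (c := SC) (by norm_num [SC])
  have o2 := hO'.mul (c := SC) (by norm_num [SC])
  have o3 : Sm (Nat.mul SC O) := fun i => by rw [o1]; split_ifs <;> norm_num [SC]
  have o4 : Sm (Nat.mul SC O') := fun i => by rw [o2]; split_ifs <;> norm_num [SC]
  iterate 2 replace h' := frc_true h'
  obtain ⟨u', h', su, hu⟩ := lin_spec hO h.su (h.sl.sft o3 _) (by omega) h'
  obtain ⟨X, h', sX, hl⟩ := lin_spec hO h.sl (h.su.sft o3 _) (by omega) h'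
  iterate 2 replace h' := frc_true h'
  obtain ⟨t', h', st, ht⟩ := lin_spec hO' h.st (h.st.sft o4 _) hp.pos h'
  iterate 4 replace h' := frc_true h'
  obtain ⟨h1, h2⟩ := cond_true' h'
  refine ⟨_, _, _, _, _, _, _, ?_, h2⟩
  clear h' h2
  have s1 : q ^ (4 * 1) ≤ 2 ^ (q ^ 4).log2.succ := Nat.lt_log2_self.le
  have s2 : q ^ (4 * 2) ≤ 2 ^ (q ^ 8).log2.succ := Nat.lt_log2_self.le
  generalize (q ^ 4).log2.succ = sh at *
  generalize (q ^ 8).log2.succ = sh2 at *
  generalize cond (Nat.ble q (r ^ 3)) r (r + 1) = r' at *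
  generalize adv (X >>> (128 * sh)) 200 0 = c
  have q5 : (5 : ℝ) ≤ q := by exact_mod_cast h5
  have q2 : ((q - 2 : ℕ) : ℝ) = q - 2 := by rw [Nat.cast_sub (by omega)]; rfl
  have S2 : (1 : ℝ) ≤ (SC : ℕ) / SC := (div_self SC_pos.ne').ge
  refine ⟨fun i hi Y hX h3 => ?_, fun i hi Y hX h3 => ?_, fun i hi Y hX h3 => ?_, ?_, ?_, ?_, su,
    Sm.sft (fun i => gt_shr X _ i ▸ sX _) o3 _, st⟩
  · refine UX_step hp h5 (h.hu i hi Y hX h3) ?_ hX.le (q2 ▸ step_num (hu i hi))
    rw [gt_sft]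
    split_ifs with h4
    · simpa using h.hl (i - sh) (by omega) _ (by positivity) (shift hp.pos s1 h4 hX h3)
    · rw [o1, if_pos hi]
      exact LX_triv _ (by positivity) S2
  · rw [gt_sft]
    split_ifs with h4
    · rw [gt_shr, Nat.sub_add_cancel h4]
      refine LX_step hp h5 (h.hl i hi Y hX h3) ?_ hX.le (q2 ▸ step_num (hl i hi))
      rw [gt_sft, if_pos (by omega)]
      simpa using h.hu (i - sh) (by omega) _ (by positivity) (shift hp.pos s1 (by omega) hX h3)
    · rw [o1, if_pos hi]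
      exact LX_triv _ hX.le S2
  · refine TX_step hp h5 (h.ht i hi Y hX h3) ?_ (q2 ▸ step_num (ht i hi))
    rw [gt_sft]
    split_ifs with h4
    · exact h.ht (i - sh2) (by omega) _ (by positivity) (shift hp.pos s2 h4 hX h3)
    · rw [o2, if_pos hi]
      exact TX_triv _ S2
  · refine Nat.cast_div_le.trans ?_
    rw [Nat.cast_mul, q2, V_succ_of_prime hp h5, mul_right_comm, mul_div_assoc, sub_div,
      div_self (by linarith)]
    exact mul_le_mul_of_nonneg_right h.hV (one_sub_pos h5).le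
  · have := h.hlow
    have h3 : ((2 * SC / q : ℕ) : ℝ) ≤ 2 / q * SC := Nat.cast_div_le.trans (le_of_eq (by
      push_cast; ring))
    rw [SP, PZ_succ_of_prime hp h5, sum_insert (self_notMem_PZ q), ← SP, Nat.cast_add]
    linarith
  · rw [Bool.and_eq_true, Nat.ble_eq, Nat.ble_eq] at h1
    have r1 : 1 ≤ r' := by
      rcases r' with _ | r'
      · have := h1.1; simp at this; omega
      · omega
    refine h.hC.step hp h5 (r := r') (by exact_mod_cast r1) (by exact_mod_cast h1.1)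
      (by exact_mod_cast h1.2) ?_
    have := cast_div_lt (C * (q + 2 * r')) (by omega : 0 < q - 2)
    rw [q2, div_le_iff₀ (by linarith)] at this
    simpa using this

/-- the starting tables -/
noncomputable def ini (k : ℕ → ℕ → ℕ → ℕ → Bool) : Bool :=
  bld (fun _ => 1) (fun O => bld (fun _ => 1) (fun O' =>
    bld (fun i => 25 * pw i / 8 + 1) (fun u => bld (fun i => cond (Nat.ble 40 i) 0 SC)
      (fun t => k O O' u t) 720 0) 520 0) 720 0) 520 0

theorem ini_spec {k : ℕ → ℕ → ℕ → ℕ → Bool} (h : ini k = true) :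
    ∃ O O' u t, Ones O 520 ∧ Ones O' 720 ∧ DI 5 u u t SC 0 4 ∧ k O O' u t = true := by
  obtain ⟨O, h, -, o1, o2⟩ := bld_spec h
  obtain ⟨O', h, -, o3, o4⟩ := bld_spec h
  obtain ⟨u, h, su, hu, -⟩ := bld_spec h
  obtain ⟨t, h, st, ht, -⟩ := bld_spec h
  have a1 : ∀ i : ℕ, i < 520 → ∀ X : ℝ, 0 < X → i * log 2 ≤ 4 * log X → 25 / 8 ≤ X * (gt u i / SC) := by
    intro i hi X hX h3
    have b1 := pw_spec hX h3
    have b2 := cast_div_lt (25 * pw i) (by norm_num : 0 < 8)
    rw [hu i hi, ← mul_div_assoc, le_div_iff₀ SC_pos]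
    push_cast at b2 ⊢
    nlinarith
  refine ⟨O, O', u, t, fun i => by split_ifs with h; exacts [o1 i h, o2 i (not_lt.1 h)],
    fun i => by split_ifs with h; exacts [o3 i h, o4 i (not_lt.1 h)],
    ⟨fun i hi X hX h3 => UX_five hX (a1 i hi X hX h3),
    fun i hi X hX h3 => LX_five hX (a1 i hi X hX h3), fun i hi X hX h3 => ?_, by simp [V_five],
    by simp [SP, PZ_five], by simpa using RK_five, su, su, st⟩, h⟩
  rw [ht i hi]
  cases h4 : Nat.ble 40 i
  · exact TX_triv _ (div_self SC_pos.ne').ge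
  · have : (40 : ℝ) ≤ i := by exact_mod_cast Nat.le_of_ble_eq_true h4
    have h5 : log (2 ^ 10) ≤ log X := by
      rw [log_pow]; push_cast; nlinarith [log_two_gt_d9]
    rw [log_le_log_iff (by norm_num) hX] at h5
    simpa using TX_five (by linarith)

end Pool.Agent.P.MP_e94e4b_nt
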