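import Pool.Agent.P.MP_e94e4b_nt.Asym
import Pool.Agent.P.MP_e94e4b_nt.Mert

/-! The dimension condition with constant `17 / 16`. -/

namespace Pool.Agent.P.MP_e94e4b_nt

open Finset Real
open ArithmeticFunction (vonMangoldt vonMangoldt_nonneg vonMangoldt_apply_prime)

theorem logV_succ {q : ℕ} (hp : q.Prime) (h5 : 5 ≤ q) :
    2 / (q : ℝ) ≤ log (V q) - log (V (q + 1)) ∧ log (V q) - log (V (q + 1)) ≤ 2 / (q - 2) := by
  have q5 : (5 : ℝ) ≤ q := by exact_mod_cast h5
  have h1 := one_sub_pos h5
  rw [V_succ_of_prime hp h5, log_mul (V_pos q).ne' h1.ne']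
  have h2 := log_le_sub_one_of_pos h1
  have h3 := one_sub_inv_le_log_of_pos h1
  have e : (1 - 2 / (q : ℝ))⁻¹ = 1 + 2 / (q - 2) := by
    have : (q : ℝ) - 2 ≠ 0 := by linarith
    field_simp
    ring
  constructor <;> linarith

theorem an_log {s n : ℕ} (hs : 65535 ≤ s) (hn : s ≤ n) :
    log (V (s + 1)) - log (V (n + 1)) - 2 * ((Mv n - Mv s) / log n) -
      2 * (log (log n) + (log s - 0.314) / log n) + 4 / (n - 1) ≤
      -2 * (log (log s) + (log s - 0.314) / log s) + 4 / (s - 1) := by
  induction n, hn using Nat.le_induction with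
  | base => simp
  | succ n hn ih =>
    have n0 : (65535 : ℝ) ≤ n := by exact_mod_cast hs.trans hn
    have L0 := log_nat_pos (w := n) (by omega)
    have L1 : log n ≤ log (n + 1 : ℕ) := log_le_log (by linarith) (by push_cast; linarith)
    set L := log n
    set L' := log (n + 1 : ℕ) with hL'
    have L2 : 0 < L' := by linarith
    have h1 : log (V (n + 1)) - log (V (n + 1 + 1)) ≤
        2 * (vonMangoldt (n + 1) / (n + 1 : ℕ) / L') + 4 / (n - 1) - 4 / n := by
      have a1 : 4 / (n : ℝ) ≤ 4 / (n - 1) := div_le_div_of_nonneg_left (by norm_num) (by linarith)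
        (by linarith)
      by_cases hp : (n + 1).Prime
      · refine (logV_succ hp (by omega)).2.trans ?_
        rw [vonMangoldt_apply_prime hp, ← hL', div_right_comm, div_self L2.ne']
        push_cast
        have : (n : ℝ) - 1 ≠ 0 := by linarith
        rw [show (n : ℝ) + 1 - 2 = n - 1 by ring, ← sub_nonneg]
        have e : 2 * (1 / ((n : ℝ) + 1)) + 4 / (n - 1) - 4 / n - 2 / (n - 1) =
            4 / ((n - 1) * n * (n + 1)) := by field_simp; ring
        rw [e]
        exact div_nonneg (by norm_num) (mul_nonneg (mul_nonneg (by linarith) (by linarith))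
          (by linarith))
      · rw [V_succ_of_not hp]
        have : 0 ≤ vonMangoldt (n + 1) / (n + 1 : ℕ) / L' :=
          div_nonneg (div_nonneg vonMangoldt_nonneg (by positivity)) L2.le
        linarith
    have h2 : Mv (n + 1) = Mv n + vonMangoldt (n + 1) / (n + 1 : ℕ) := by
      rw [Mv, sum_Ioc_succ_top (Nat.zero_le _), Mv]
    have h3 := mul_le_mul_of_nonneg_right (Mv_win hs hn)
      (sub_nonneg.2 (one_div_le_one_div_of_le L0 L1))
    have h4 := one_sub_inv_le_log_of_pos (div_pos L2 L0)
    rw [log_div L2.ne' L0.ne', inv_div] at h4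
    have e1 : (L - log s + 0.314) * (1 / L - 1 / L') =
        1 - L / L' - (log s - 0.314) / L + (log s - 0.314) / L' := by field_simp; ring
    have e2 : (Mv n - Mv s) * (1 / L - 1 / L') = (Mv n - Mv s) / L - (Mv n - Mv s) / L' := by ring
    have e3 : (Mv (n + 1) - Mv s) / L' =
        (Mv n - Mv s) / L' + vonMangoldt (n + 1) / (n + 1 : ℕ) / L' := by rw [h2]; ring
    have e4 : ((n + 1 : ℕ) : ℝ) - 1 = n := by push_cast; ring
    rw [e3, e4]
    linarith

theorem an {s n : ℕ} (hs : 65535 ≤ s) (hn : s ≤ n) :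
    V (s + 1) * log s ^ 2 ≤ 1.0602 * V (n + 1) * log n ^ 2 := by
  have h1 := an_log hs hn
  have s0 : (65535 : ℝ) ≤ s := by exact_mod_cast hs
  have n0 : (s : ℝ) ≤ n := by exact_mod_cast hn
  have l1 : 11.09 ≤ log s := log_B.1.trans (log_le_log (by norm_num) s0)
  have L0 := log_nat_pos (w := n) (by omega)
  have h2 := div_le_div_of_nonneg_right (Mv_win hs hn) L0.le
  have e1 : (log n - log s + 0.314) / log n = 1 - (log s - 0.314) / log n := by field_simp; ring
  have e2 : (log s - 0.314) / log s = 1 - 0.314 / log s := by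
    have : log s ≠ 0 := by linarith
    field_simp
  have h3 : 0.314 / log s ≤ 0.314 / 11.09 := div_le_div_of_nonneg_left (by norm_num) (by norm_num) l1
  have h4 : 4 / ((s : ℝ) - 1) ≤ 4 / 65534 := div_le_div_of_nonneg_left (by norm_num) (by norm_num)
    (by linarith)
  have h5 : 0 ≤ 4 / ((n : ℝ) - 1) := div_nonneg (by norm_num) (by linarith)
  have h6 := one_sub_inv_le_log_of_pos (x := 1.0602) (by norm_num)
  have V1 := V_pos (s + 1)
  have V2 := V_pos (n + 1)
  rw [← log_le_log_iff (by positivity) (by positivity), log_mul (by positivity) (by positivity),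
    log_mul (by positivity) (by positivity), log_mul (by positivity) (by positivity), log_pow,
    log_pow]
  norm_num at *
  linarith

/-- the ratio bound at `n`, scale `2 ^ 40` -/
def RB (E : ℝ) (n : ℕ) : Prop :=
  ∀ w, 1024 ≤ w → w ≤ n → V w * log w ^ 2 * 1099511627776 ≤ E * (V (n + 1) * log n ^ 2)

theorem RB.mono {E E' : ℝ} {n : ℕ} (h : RB E n) (hE : E ≤ E') : RB E' n := fun w h1 h2 =>
  (h w h1 h2).trans (mul_le_mul_of_nonneg_right hE (mul_nonneg (V_pos _).le (sq_nonneg _)))

noncomputable def goE (F : ℕ) (f : ℕ) : ℕ → ℕ → ℕ → Bool :=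
  Nat.rec (fun _ _ E => Nat.ble E 1099841000000)
    (fun _ ih n L E =>
      frc (Nat.add L (Nat.succ (Nat.div 1099511627776 n))) fun L' =>
      frc (Nat.sub 1099511627776
        (Nat.div 2417851639229258349412352 (Nat.mul (Nat.succ (Nat.mul 2 n)) L'))) fun r =>
      frc (Nat.succ (Nat.div (Nat.mul E (Nat.mul r r)) 1208925819614629174706176)) fun E0 =>
      frc (cond (Nat.ble E0 1099511627776) 1099511627776 E0) fun E1 =>
      frc (cond (Nat.beq (Nat.gcd (Nat.succ n) F) 1)
        (Nat.succ (Nat.div (Nat.mul E1 (Nat.succ n)) (Nat.sub n 1))) E1) fun E2 =>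
      frc (Nat.add n 1) fun n' => cond (Nat.ble E2 1110506744053) (ih n' L' E2) false) f

theorem RB.step {E L n L' r E1 E2 : ℕ} (hn : 1024 ≤ n) (h : RB E n)
    (hL : log n * 1099511627776 ≤ L) (h1 : L' = L + (1099511627776 / n + 1))
    (h2 : r = 1099511627776 - 2417851639229258349412352 / ((2 * n + 1) * L'))
    (h3 : E * (r * r) / 1208925819614629174706176 + 1 ≤ E1) (h4 : 1099511627776 ≤ E1)
    (h5 : E2 = cond (Nat.beq (Nat.gcd (n + 1) (Nat.factorial 256)) 1)
      (E1 * (n + 1) / (n - 1) + 1) E1) :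
    log (n + 1 : ℕ) * 1099511627776 ≤ L' ∧ RB E2 (n + 1) := by
  have n0 : (1024 : ℝ) ≤ n := by exact_mod_cast hn
  have L0 := log_nat_pos (w := n) (by omega)
  have a1 := log_succ_lo (x := n) (by linarith)
  have a2 := log_succ_up (x := n) (by linarith)
  have a3 : 1 / ((n : ℝ) + 1) ≤ 1 / n := one_div_le_one_div_of_le (by linarith) (by linarith)
  have e : log (n + 1 : ℕ) = log (n + 1) := by push_cast; rfl
  have a0 : 0 < 2 / (2 * (n : ℝ) + 1) := by positivity
  have a4 : log (n + 1) * 1099511627776 ≤ L' := by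
    have := cast_div_lt 1099511627776 (by omega : 0 < n)
    rw [h1, div_eq_mul_one_div] at *
    simp only [Nat.cast_add, Nat.cast_ofNat, Nat.cast_one] at this ⊢
    linarith
  have L1 : 0 < log ((n : ℝ) + 1) := by linarith
  have L2 : (0 : ℝ) < L' := by linarith
  have a5 : log n * 1099511627776 ≤ r * log (n + 1) := by
    have b1 := cast_sub_ge 1099511627776 (2417851639229258349412352 / ((2 * n + 1) * L'))
    have b2 : ((2417851639229258349412352 / ((2 * n + 1) * L') : ℕ) : ℝ) ≤
        2417851639229258349412352 / ((2 * n + 1) * L') := Nat.cast_div_le.trans (by push_cast; rfl)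
    rw [← h2] at b1
    have b3 : 2417851639229258349412352 / ((2 * (n : ℝ) + 1) * L') * log (n + 1) ≤
        2 / (2 * n + 1) * 1099511627776 := by
      rw [div_mul_eq_mul_div, div_mul_eq_mul_div, div_le_div_iff₀ (by positivity) (by positivity)]
      nlinarith
    push_cast at b1
    nlinarith [mul_le_mul_of_nonneg_right (b1.trans' (sub_le_sub_left b2 _)) L1.le]
  have a6 : E * log n ^ 2 ≤ E1 * log (n + 1) ^ 2 := by
    have b1 := pow_le_pow_left₀ (by positivity) a5 2
    have b2 := (cast_div_lt (E * (r * r)) (by norm_num : 0 < 1208925819614629174706176)).trans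
      (show _ ≤ (E1 : ℝ) by exact_mod_cast h3)
    rw [div_le_iff₀ (by positivity)] at b2
    push_cast at b2
    have b3 := mul_le_mul_of_nonneg_left b1 (Nat.cast_nonneg (α := ℝ) E)
    have b4 := mul_le_mul_of_nonneg_right b2 (sq_nonneg (log (n + 1)))
    nlinarith
  have V1 := V_pos (n + 1)
  have a7 : E1 * V (n + 1) ≤ E2 * V (n + 1 + 1) := by
    by_cases hp : (n + 1).Prime
    · have : Nat.gcd (n + 1) (Nat.factorial 256) = 1 :=
        (Nat.Prime.coprime_iff_not_dvd hp).2 fun h => by
          have := (hp.dvd_factorial).1 h; omega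
      rw [this] at h5
      have b1 := cast_div_lt (E1 * (n + 1)) (by omega : 0 < n - 1)
      rw [Nat.cast_sub (by omega), div_le_iff₀ (by push_cast; linarith)] at b1
      have b2 : (E2 : ℝ) = (E1 * (n + 1) / (n - 1) : ℕ) + 1 := by rw [h5]; simp
      rw [← b2] at b1
      rw [V_succ_of_prime hp (by omega), mul_left_comm, mul_comm]
      refine mul_le_mul_of_nonneg_left ?_ V1.le
      push_cast at b1 ⊢
      rw [one_sub_div (by positivity), ← mul_div_assoc, le_div_iff₀ (by positivity)]
      linarith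
    · rw [V_succ_of_not hp]
      refine mul_le_mul_of_nonneg_right (Nat.cast_le.2 ?_) V1.le
      rw [h5]
      cases Nat.beq _ 1
      · exact le_rfl
      · exact ((Nat.le_div_iff_mul_le (by omega)).2 (Nat.mul_le_mul_left _ (by omega))).trans
          (Nat.le_succ _)
  rw [e]
  refine ⟨a4, fun w h6 h7 => ?_⟩
  rw [e, ← mul_assoc]
  refine le_trans ?_ (mul_le_mul_of_nonneg_right a7 (sq_nonneg _))
  rcases Nat.lt_or_ge n w with h8 | h8
  · obtain rfl : w = n + 1 := by omega
    have : (1099511627776 : ℝ) ≤ E1 := by exact_mod_cast h4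
    rw [e, mul_comm, mul_assoc]
    exact mul_le_mul_of_nonneg_right this (mul_nonneg V1.le (sq_nonneg _))
  · nlinarith [h w h6 h8, mul_le_mul_of_nonneg_left a6 V1.le]

theorem cond_true' {a b : Bool} (h : cond a b false = true) : a = true ∧ b = true := by
  cases a <;> simp_all

theorem cond_max (a b : ℕ) : a ≤ cond (Nat.ble a b) b a ∧ b ≤ cond (Nat.ble a b) b a := by
  cases h : Nat.ble a b
  · exact ⟨le_rfl, (Nat.lt_of_not_le fun h' : a ≤ b => by
      rw [Nat.ble_eq_true_of_le h'] at h; cases h).le⟩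
  · exact ⟨Nat.le_of_ble_eq_true h, le_rfl⟩

theorem goE_spec (f : ℕ) : ∀ n L E : ℕ, 1024 ≤ n → log n * 1099511627776 ≤ L → RB E n →
    goE (Nat.factorial 256) f n L E = true →
    (∀ m, n < m → m ≤ n + f → RB 1110506744053 m) ∧ RB 1099841000000 (n + f) := by
  induction f with
  | zero =>
    intro n L E _ _ h h'
    exact ⟨fun m _ _ => by omega, h.mono (by exact_mod_cast Nat.le_of_ble_eq_true h')⟩
  | succ f ih =>
    intro n L E hn hL h h'
    iterate 6 replace h' := frc_true h'
    obtain ⟨h1, h2⟩ := cond_true' h'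
    obtain ⟨h3, h4⟩ := h.step hn hL rfl rfl (cond_max _ _).1 (cond_max _ _).2 rfl
    obtain ⟨h5, h6⟩ := ih _ _ _ (Nat.le_succ_of_le hn) h3 h4 h2
    refine ⟨fun m h7 h8 => ?_, by rwa [← add_assoc, add_right_comm]⟩
    rcases Nat.lt_or_ge (n + 1) m with h9 | h9
    · exact h5 m h9 (by omega)
    · obtain rfl : m = n + 1 := by omega
      exact h4.mono (by exact_mod_cast Nat.le_of_ble_eq_true h1)

theorem goE_true : frc (Nat.factorial 256)
    (fun F => goE F 64511 1024 7621300000000 1099511627776) = true := by decide +kernel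

theorem hK : HK (17 / 16) := by
  have b0 : RB (1099511627776 : ℕ) 1024 := fun w h1 h2 => by
    obtain rfl : w = 1024 := by omega
    rw [V_succ_of_not (z := 1024) (by norm_num), mul_comm]
    exact le_of_eq (by norm_num)
  have b1 := frc_true goE_true
  beta_reduce at b1
  obtain ⟨h1, h2⟩ := goE_spec 64511 1024 7621300000000 1099511627776 le_rfl (by
    rw [show ((1024 : ℕ) : ℝ) = 2 ^ 10 by norm_num, log_pow]
    have := log_two_lt_d9
    push_cast
    linarith) b0 b1
  intro w z hw hz
  have p : ∀ n : ℕ, 0 ≤ V (n + 1) * log n ^ 2 := fun n => mul_nonneg (V_pos _).le (sq_nonneg _)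
  have p1 := p z
  rw [mul_assoc]
  rcases Nat.lt_or_ge z 65535 with h | h
  · rcases Nat.lt_or_ge 1024 z with h' | h'
    · linarith [h1 z h' (by omega) w hw hz]
    · obtain rfl : z = 1024 := by omega
      have := b0 w hw hz
      push_cast at this p1 ⊢
      linarith
  rcases Nat.lt_or_ge w 65535 with h' | h'
  · have a1 := h2 w hw h'.le
    have a2 := an le_rfl h
    rw [mul_assoc] at a2
    have a3 := a1.trans (mul_le_mul_of_nonneg_left a2 (by norm_num))
    linarith
  · have a2 := an h' hz
    rw [mul_assoc] at a2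
    have w0 : (65535 : ℝ) ≤ w := by exact_mod_cast h'
    have a3 : V w ≤ 1.0001 * V (w + 1) := by
      have := V_pos w
      by_cases hp : w.Prime
      · have : 2 / (w : ℝ) ≤ 2 / 65535 := div_le_div_of_nonneg_left (by norm_num) (by norm_num) w0
        rw [V_succ_of_prime hp (by omega)]
        nlinarith
      · rw [V_succ_of_not hp]; linarith
    nlinarith [mul_le_mul_of_nonneg_right a3 (sq_nonneg (log w))]

end Pool.Agent.P.MP_e94e4b_nt
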