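import Mathlib

/-! A two-dimensional sieve on intervals of integers: two residue classes are removed for every
prime `p` with `5 ≤ p < z`. Basic definitions and the Buchstab step. -/

namespace Pool.Agent.P.MP_e94e4b_nt

open Finset

/-- the sieving primes -/
def PZ (z : ℕ) : Finset ℕ := (Ico 5 z).filter Nat.Prime

theorem mem_PZ {z p : ℕ} : p ∈ PZ z ↔ p.Prime ∧ 5 ≤ p ∧ p < z := by
  simp only [PZ, mem_filter, mem_Ico]; tauto

theorem PZ_succ_of_prime {z : ℕ} (hp : z.Prime) (h5 : 5 ≤ z) : PZ (z + 1) = insert z (PZ z) := by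
  ext p
  simp only [mem_insert, mem_PZ]
  constructor
  · rintro ⟨h1, h2, h3⟩
    rcases Nat.lt_succ_iff_lt_or_eq.1 h3 with h | h
    · exact Or.inr ⟨h1, h2, h⟩
    · exact Or.inl h
  · rintro (rfl | ⟨h1, h2, h3⟩)
    · exact ⟨hp, h5, by omega⟩
    · exact ⟨h1, h2, by omega⟩

theorem PZ_succ_of_not {z : ℕ} (hp : ¬ z.Prime) : PZ (z + 1) = PZ z := by
  ext p
  simp only [mem_PZ]
  constructor
  · rintro ⟨h1, h2, h3⟩
    refine ⟨h1, h2, ?_⟩
    rcases Nat.lt_succ_iff_lt_or_eq.1 h3 with h | h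
    · exact h
    · exact absurd (h ▸ h1) hp
  · rintro ⟨h1, h2, h3⟩
    exact ⟨h1, h2, by omega⟩

theorem self_notMem_PZ (z : ℕ) : z ∉ PZ z := fun h => lt_irrefl _ (mem_PZ.1 h).2.2

theorem PZ_mono {w z : ℕ} (h : w ≤ z) : PZ w ⊆ PZ z := fun _ hp =>
  mem_PZ.2 ⟨(mem_PZ.1 hp).1, (mem_PZ.1 hp).2.1, (mem_PZ.1 hp).2.2.trans_le h⟩

theorem PZ_five : PZ 5 = ∅ := by simp [PZ]

/-- the density of the sifted set -/
noncomputable def V (z : ℕ) : ℝ := ∏ p ∈ PZ z, (1 - 2 / (p : ℝ))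

theorem one_sub_pos {p : ℕ} (h : 5 ≤ p) : 0 < 1 - 2 / (p : ℝ) := by
  have : (5 : ℝ) ≤ p := by exact_mod_cast h
  rw [sub_pos, div_lt_one (by linarith)]; linarith

theorem V_pos (z : ℕ) : 0 < V z := prod_pos fun _ hp => one_sub_pos (mem_PZ.1 hp).2.1

theorem V_five : V 5 = 1 := by simp [V, PZ_five]

theorem V_succ_of_prime {z : ℕ} (hp : z.Prime) (h5 : 5 ≤ z) : V (z + 1) = V z * (1 - 2 / z) := by
  rw [V, PZ_succ_of_prime hp h5, prod_insert (self_notMem_PZ z), mul_comm]; rfl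

theorem V_succ_of_not {z : ℕ} (hp : ¬ z.Prime) : V (z + 1) = V z := by
  rw [V, PZ_succ_of_not hp]; rfl

theorem V_succ_le {z : ℕ} (h5 : 5 ≤ z) : V (z + 1) ≤ V z := by
  by_cases hp : z.Prime
  · rw [V_succ_of_prime hp h5]
    have : (0 : ℝ) ≤ 2 / z := by positivity
    nlinarith [V_pos z]
  · exact (V_succ_of_not hp).le

theorem V_anti {w z : ℕ} (h5 : 5 ≤ w) (h : w ≤ z) : V z ≤ V w := by
  induction z, h using Nat.le_induction with
  | base => exact le_rfl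
  | succ n hn ih => exact (V_succ_le (by omega)).trans ih

theorem V_le_one {z : ℕ} (h5 : 5 ≤ z) : V z ≤ 1 := V_five ▸ V_anti le_rfl h5

/-- the integers in `[x, x + Y)` -/
noncomputable def seg (x Y : ℝ) : Finset ℤ := Ico ⌈x⌉ ⌈x + Y⌉

theorem mem_seg {x Y : ℝ} {t : ℤ} : t ∈ seg x Y ↔ x ≤ t ∧ (t : ℝ) < x + Y := by
  simp [seg, Int.ceil_le, Int.lt_ceil]

theorem card_seg_le (x : ℝ) {Y : ℝ} (hY : 0 ≤ Y) : ((seg x Y).card : ℝ) ≤ Y + 1 := by
  have h1 := Int.le_ceil x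
  have h2 := Int.ceil_lt_add_one (x + Y)
  have h3 : ⌈x⌉ ≤ ⌈x + Y⌉ := Int.ceil_mono (by linarith)
  have h4 : ((seg x Y).card : ℤ) = ⌈x + Y⌉ - ⌈x⌉ := by
    rw [seg, Int.card_Ico, Int.toNat_of_nonneg (by omega)]
  have h5 : ((seg x Y).card : ℝ) = ⌈x + Y⌉ - ⌈x⌉ := by exact_mod_cast h4
  linarith

theorem le_card_seg (x : ℝ) {Y : ℝ} (hY : 0 ≤ Y) : Y - 1 ≤ ((seg x Y).card : ℝ) := by
  have h1 := Int.le_ceil (x + Y)
  have h2 := Int.ceil_lt_add_one x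
  have h3 : ⌈x⌉ ≤ ⌈x + Y⌉ := Int.ceil_mono (by linarith)
  have h4 : ((seg x Y).card : ℤ) = ⌈x + Y⌉ - ⌈x⌉ := by
    rw [seg, Int.card_Ico, Int.toNat_of_nonneg (by omega)]
  have h5 : ((seg x Y).card : ℝ) = ⌈x + Y⌉ - ⌈x⌉ := by exact_mod_cast h4
  linarith

/-- `t` avoids the two classes `α p`, `β p` for all sieving primes -/
def Sif (z : ℕ) (α β : ℕ → ℤ) (t : ℤ) : Prop :=
  ∀ p ∈ PZ z, ¬ (p : ℤ) ∣ t - α p ∧ ¬ (p : ℤ) ∣ t - β p

/-- the two classes are distinct -/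
def Ok (z : ℕ) (α β : ℕ → ℤ) : Prop := ∀ p ∈ PZ z, ¬ (p : ℤ) ∣ α p - β p

theorem Ok.mono {w z : ℕ} {α β : ℕ → ℤ} (h : Ok z α β) (hw : w ≤ z) : Ok w α β :=
  fun p hp => h p (PZ_mono hw hp)

open Classical in
/-- the sifted set -/
noncomputable def SS (z : ℕ) (α β : ℕ → ℤ) (x Y : ℝ) : Finset ℤ := (seg x Y).filter (Sif z α β)

/-- the sifting function -/
noncomputable def Sv (z : ℕ) (α β : ℕ → ℤ) (x Y : ℝ) : ℝ := (SS z α β x Y).card

theorem mem_SS {z : ℕ} {α β : ℕ → ℤ} {x Y : ℝ} {t : ℤ} :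
    t ∈ SS z α β x Y ↔ t ∈ seg x Y ∧ Sif z α β t := by
  classical
  unfold SS
  exact mem_filter

theorem Sv_nonneg (z : ℕ) (α β : ℕ → ℤ) (x Y : ℝ) : 0 ≤ Sv z α β x Y := Nat.cast_nonneg _

theorem Sv_le (z : ℕ) (α β : ℕ → ℤ) (x : ℝ) {Y : ℝ} (hY : 0 ≤ Y) : Sv z α β x Y ≤ Y + 1 := by
  refine le_trans ?_ (card_seg_le x hY)
  unfold Sv
  exact_mod_cast card_le_card fun t ht => (mem_SS.1 ht).1

theorem Sv_five (α β : ℕ → ℤ) (x Y : ℝ) : Sv 5 α β x Y = (seg x Y).card := by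
  unfold Sv
  congr 2
  ext t
  simp [mem_SS, Sif, PZ_five]

theorem exists_class {n B : ℤ} (h : IsCoprime B n) (A : ℤ) :
    ∃ c : ℤ, ∀ t : ℤ, n ∣ A + B * t ↔ n ∣ t - c := by
  obtain ⟨u, v, huv⟩ := h
  refine ⟨-A * u, fun t => ⟨fun h => ?_, fun h => ?_⟩⟩
  · have : t - -A * u = u * (A + B * t) + v * n * t := by linear_combination (-t) * huv
    rw [this]
    exact dvd_add (h.mul_left _) ((dvd_mul_left n v).mul_right _)
  · have : A + B * t = B * (t - -A * u) + v * n * A := by linear_combination (-A) * huv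
    rw [this]
    exact dvd_add (h.mul_left _) ((dvd_mul_left n v).mul_right _)

/-- the sifted elements of a residue class form a sifted set of a shorter interval -/
theorem class_count {z q : ℕ} (hq : 0 < q) (hc : ∀ p ∈ PZ z, Nat.Coprime q p) {α β : ℕ → ℤ}
    (h : Ok z α β) (c : ℤ) (x Y : ℝ) :
    ∃ (α' β' : ℕ → ℤ) (x' : ℝ), Ok z α' β' ∧
      (((SS z α β x Y).filter fun t => (q : ℤ) ∣ t - c).card : ℝ) = Sv z α' β' x' (Y / q) := by
  have key : ∀ γ : ℕ → ℤ, ∃ γ' : ℕ → ℤ, ∀ p ∈ PZ z, ∀ t : ℤ,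
      (p : ℤ) ∣ c + q * t - γ p ↔ (p : ℤ) ∣ t - γ' p := by
    intro γ
    have : ∀ p : ℕ, ∃ a : ℤ, p ∈ PZ z → ∀ t : ℤ, (p : ℤ) ∣ c + q * t - γ p ↔ (p : ℤ) ∣ t - a := by
      intro p
      by_cases hp : p ∈ PZ z
      · obtain ⟨a, ha⟩ := exists_class (Nat.isCoprime_iff_coprime.2 (hc p hp)) (c - γ p)
        exact ⟨a, fun _ t => by rw [← ha t]; congr! 1; ring⟩
      · exact ⟨0, fun h => absurd h hp⟩
    choose γ' h using this
    exact ⟨γ', h⟩
  obtain ⟨α', hα⟩ := key α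
  obtain ⟨β', hβ⟩ := key β
  have hq' : (0 : ℝ) < q := by exact_mod_cast hq
  refine ⟨α', β', (x - c) / q, fun p hp hd => h p hp ?_, ?_⟩
  · have h1 := (hα p hp (α' p)).2 (by simp)
    have h2 := (hβ p hp (α' p)).2 hd
    have := dvd_sub h2 h1
    rwa [show c + q * α' p - β p - (c + q * α' p - α p) = α p - β p by ring] at this
  · unfold Sv
    congr 1
    symm
    refine card_bij (fun t _ => c + q * t) (fun t ht => ?_) (fun t _ t' _ h => ?_) fun s hs => ?_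
    · obtain ⟨h1, h2⟩ := mem_SS.1 ht
      obtain ⟨h3, h4⟩ := mem_seg.1 h1
      rw [div_le_iff₀ hq'] at h3
      rw [← add_div, lt_div_iff₀ hq'] at h4
      refine mem_filter.2 ⟨mem_SS.2 ⟨mem_seg.2 ⟨?_, ?_⟩, fun p hp => ?_⟩, by simp⟩
      · push_cast; linarith
      · push_cast; linarith
      · rw [hα p hp, hβ p hp]; exact h2 p hp
    · have : (q : ℤ) ≠ 0 := by exact_mod_cast hq.ne'
      exact mul_left_cancel₀ this (add_left_cancel h)
    · obtain ⟨h1, t, ht⟩ := mem_filter.1 hs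
      obtain rfl : s = c + q * t := by linarith
      obtain ⟨h1, h2⟩ := mem_SS.1 h1
      obtain ⟨h3, h4⟩ := mem_seg.1 h1
      push_cast at h3 h4
      refine ⟨t, mem_SS.2 ⟨mem_seg.2 ⟨?_, ?_⟩, fun p hp => ?_⟩, rfl⟩
      · rw [div_le_iff₀ hq']; linarith
      · rw [← add_div, lt_div_iff₀ hq']; linarith
      · rw [← hα p hp, ← hβ p hp]; exact h2 p hp

theorem coprime_of_prime_le {z q : ℕ} (hq : q.Prime) (hz : z ≤ q) : ∀ p ∈ PZ z, Nat.Coprime q p :=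
  fun p hp => (Nat.coprime_primes hq (mem_PZ.1 hp).1).2 (by have := (mem_PZ.1 hp).2.2; omega)

/-- Buchstab step -/
theorem buchstab {q : ℕ} (hq : q.Prime) (h5 : 5 ≤ q) {α β : ℕ → ℤ} (h : Ok (q + 1) α β)
    (x Y : ℝ) :
    ∃ (α₁ β₁ α₂ β₂ : ℕ → ℤ) (x₁ x₂ : ℝ), Ok q α₁ β₁ ∧ Ok q α₂ β₂ ∧
      Sv (q + 1) α β x Y = Sv q α β x Y - Sv q α₁ β₁ x₁ (Y / q) - Sv q α₂ β₂ x₂ (Y / q) := by
  classical
  have h' := h.mono (Nat.le_succ q)
  obtain ⟨α₁, β₁, x₁, o1, e1⟩ := class_count hq.pos (coprime_of_prime_le hq le_rfl) h' (α q) x Y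
  obtain ⟨α₂, β₂, x₂, o2, e2⟩ := class_count hq.pos (coprime_of_prime_le hq le_rfl) h' (β q) x Y
  refine ⟨α₁, β₁, α₂, β₂, x₁, x₂, o1, o2, ?_⟩
  rw [← e1, ← e2]
  have hm : q ∈ PZ (q + 1) := mem_PZ.2 ⟨hq, h5, by omega⟩
  have e3 : SS (q + 1) α β x Y = (SS q α β x Y).filter
      fun t => ¬ ((q : ℤ) ∣ t - α q ∨ (q : ℤ) ∣ t - β q) := by
    ext t
    simp only [mem_filter, mem_SS, Sif, PZ_succ_of_prime hq h5, forall_mem_insert, not_or]
    tauto
  have e4 := card_filter_add_card_filter_not (s := SS q α β x Y)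
    fun t => (q : ℤ) ∣ t - α q ∨ (q : ℤ) ∣ t - β q
  rw [filter_or, card_union_of_disjoint] at e4
  · unfold Sv
    rw [e3, ← e4]
    push_cast
    ring
  · rw [disjoint_filter]
    intro t _ h1 h2
    refine h q hm ?_
    have := dvd_sub h2 h1
    rwa [show t - β q - (t - α q) = α q - β q by ring] at this

/-- upper bound with relative error `e` for all intervals of length at least `8 X / 25` -/
def UX (z : ℕ) (X e : ℝ) : Prop :=
  ∀ Y α β x, X ≤ 25 / 8 * Y → Ok z α β → Sv z α β x Y ≤ Y * V z * (1 + e)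

/-- lower bound with relative error `e` for all intervals of length at least `8 X / 25` -/
def LX (z : ℕ) (X e : ℝ) : Prop :=
  ∀ Y α β x, X ≤ 25 / 8 * Y → Ok z α β → Y * V z * (1 - e) ≤ Sv z α β x Y

theorem UX.mono {z : ℕ} {X X' e e' : ℝ} (h : UX z X e) (h0 : 0 ≤ X') (hX : X ≤ X') (he : e ≤ e') :
    UX z X' e' := fun Y α β x hY ho =>
  (h Y α β x (hX.trans hY) ho).trans
    (mul_le_mul_of_nonneg_left (by linarith) (mul_nonneg (by linarith) (V_pos z).le))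

theorem LX.mono {z : ℕ} {X X' e e' : ℝ} (h : LX z X e) (h0 : 0 ≤ X') (hX : X ≤ X') (he : e ≤ e') :
    LX z X' e' := fun Y α β x hY ho =>
  le_trans (mul_le_mul_of_nonneg_left (by linarith) (mul_nonneg (by linarith) (V_pos z).le))
    (h Y α β x (hX.trans hY) ho)

theorem LX_triv (z : ℕ) {X e : ℝ} (h0 : 0 ≤ X) (he : 1 ≤ e) : LX z X e := fun Y α β x hY _ =>
  le_trans (mul_nonpos_of_nonneg_of_nonpos (mul_nonneg (by linarith) (V_pos z).le) (by linarith))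
    (Sv_nonneg _ _ _ _ _)

theorem UX_triv (z : ℕ) {X e : ℝ} (h0 : 1 ≤ X) (he : 33 / 8 ≤ V z * (1 + e)) : UX z X e :=
  fun Y α β x hY _ => by
    refine (Sv_le z α β x (by linarith)).trans ?_
    rw [mul_assoc]
    nlinarith

theorem UX_five {X e : ℝ} (h0 : 0 < X) (he : 25 / 8 ≤ X * e) : UX 5 X e := fun Y α β x hY _ => by
  refine (Sv_le 5 α β x (by linarith)).trans ?_
  have : 0 < e := by by_contra h; nlinarith
  rw [V_five]
  nlinarith

theorem LX_five {X e : ℝ} (h0 : 0 < X) (he : 25 / 8 ≤ X * e) : LX 5 X e := fun Y α β x hY _ => by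
  rw [Sv_five]
  refine le_trans ?_ (le_card_seg x (by linarith))
  have : 0 < e := by by_contra h; nlinarith
  rw [V_five]
  nlinarith

theorem up_step {w : ℕ} (h5 : 5 ≤ w) {X φ : ℝ} (hφ : w.Prime → LX w (X / w) φ)
    {Y : ℝ} (hY : X ≤ 25 / 8 * Y) {α β : ℕ → ℤ} (ho : Ok (w + 1) α β) (x : ℝ) :
    Sv (w + 1) α β x Y - Y * V (w + 1) ≤
      Sv w α β x Y - Y * V w + (Y * V w - Y * V (w + 1)) * φ := by
  by_cases hp : w.Prime
  · obtain ⟨α₁, β₁, α₂, β₂, x₁, x₂, o1, o2, e⟩ := buchstab hp h5 ho x Y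
    have hw : (0 : ℝ) < w := by exact_mod_cast hp.pos
    have hY' : X / w ≤ 25 / 8 * (Y / w) := by rw [← mul_div_assoc]; gcongr
    have h1 := hφ hp _ _ _ x₁ hY' o1
    have h2 := hφ hp _ _ _ x₂ hY' o2
    rw [e, V_succ_of_prime hp h5]
    have : Y / w * V w * (1 - φ) = (Y * V w - Y * (V w * (1 - 2 / w))) * (1 - φ) / 2 := by ring
    linarith
  · have : SS (w + 1) α β x Y = SS w α β x Y := by
      ext t; simp only [mem_SS, Sif, PZ_succ_of_not hp]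
    rw [V_succ_of_not hp, Sv, this, Sv]
    linarith

theorem lo_step {w : ℕ} (h5 : 5 ≤ w) {X φ : ℝ} (hφ : w.Prime → UX w (X / w) φ)
    {Y : ℝ} (hY : X ≤ 25 / 8 * Y) {α β : ℕ → ℤ} (ho : Ok (w + 1) α β) (x : ℝ) :
    Y * V (w + 1) - Sv (w + 1) α β x Y ≤
      Y * V w - Sv w α β x Y + (Y * V w - Y * V (w + 1)) * φ := by
  by_cases hp : w.Prime
  · obtain ⟨α₁, β₁, α₂, β₂, x₁, x₂, o1, o2, e⟩ := buchstab hp h5 ho x Y
    have hw : (0 : ℝ) < w := by exact_mod_cast hp.pos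
    have hY' : X / w ≤ 25 / 8 * (Y / w) := by rw [← mul_div_assoc]; gcongr
    have h1 := hφ hp _ _ _ x₁ hY' o1
    have h2 := hφ hp _ _ _ x₂ hY' o2
    rw [e, V_succ_of_prime hp h5]
    have : Y / w * V w * (1 + φ) = (Y * V w - Y * (V w * (1 - 2 / w))) * (1 + φ) / 2 := by ring
    linarith
  · have : SS (w + 1) α β x Y = SS w α β x Y := by
      ext t; simp only [mem_SS, Sif, PZ_succ_of_not hp]
    rw [V_succ_of_not hp, Sv, this, Sv]
    linarith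

/-- the sum in the large sieve bound -/
noncomputable def G (z : ℕ) (Q : ℝ) : ℝ :=
  ∑ S ∈ (PZ z).powerset, if ∏ p ∈ S, (p : ℝ) ≤ Q then ∏ p ∈ S, 2 / ((p : ℝ) - 2) else 0

theorem h_pos {p : ℕ} (h : 5 ≤ p) : 0 < 2 / ((p : ℝ) - 2) := by
  have : (5 : ℝ) ≤ p := by exact_mod_cast h
  exact div_pos two_pos (by linarith)

theorem G_nonneg (z : ℕ) (Q : ℝ) : 0 ≤ G z Q := sum_nonneg fun S hS => by
  split_ifs
  · exact prod_nonneg fun p hp => (h_pos (mem_PZ.1 (mem_powerset.1 hS hp)).2.1).le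
  · exact le_rfl

theorem G_succ_of_prime {z : ℕ} (hp : z.Prime) (h5 : 5 ≤ z) (Q : ℝ) :
    G (z + 1) Q = G z Q + 2 / ((z : ℝ) - 2) * G z (Q / z) := by
  have hz : (0 : ℝ) < z := by exact_mod_cast hp.pos
  rw [G, PZ_succ_of_prime hp h5, sum_powerset_insert (self_notMem_PZ z), G, G, mul_sum]
  congr 1
  refine sum_congr rfl fun S hS => ?_
  have hn : z ∉ S := fun h => self_notMem_PZ z (mem_powerset.1 hS h)
  simp only [prod_insert hn, le_div_iff₀ hz, mul_comm (z : ℝ)]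
  split_ifs <;> simp

theorem G_succ_of_not {z : ℕ} (hp : ¬ z.Prime) (Q : ℝ) : G (z + 1) Q = G z Q := by
  rw [G, PZ_succ_of_not hp]; rfl

/-- lower bound for the large sieve sum -/
def TX (z : ℕ) (X e : ℝ) : Prop := ∀ Q : ℝ, 0 ≤ Q → X ≤ 1024 * Q ^ 2 → (1 - e) / V z ≤ G z Q

theorem TX.mono {z : ℕ} {X X' e e' : ℝ} (h : TX z X e) (hX : X ≤ X') (he : e ≤ e') :
    TX z X' e' := fun Q h0 hQ =>
  le_trans (div_le_div_of_nonneg_right (by linarith) (V_pos z).le) (h Q h0 (hX.trans hQ))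

theorem TX_triv (z : ℕ) {X e : ℝ} (he : 1 ≤ e) : TX z X e := fun Q _ _ =>
  le_trans (div_nonpos_of_nonpos_of_nonneg (by linarith) (V_pos z).le) (G_nonneg z Q)

theorem TX_five {X : ℝ} (h : 1024 ≤ X) : TX 5 X 0 := fun Q h0 hQ => by
  have : 1 ≤ Q := by by_contra h; nlinarith
  simp [G, PZ_five, V_five, this]

theorem G_step {w : ℕ} (h5 : 5 ≤ w) {X φ : ℝ} (hφ : w.Prime → TX w (X / w ^ 2) φ)
    {Q : ℝ} (h0 : 0 ≤ Q) (hQ : X ≤ 1024 * Q ^ 2) :
    1 / V (w + 1) - G (w + 1) Q ≤ 1 / V w - G w Q + (-(1 / V w) - -(1 / V (w + 1))) * φ := by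
  by_cases hp : w.Prime
  · have hw : (5 : ℝ) ≤ w := by exact_mod_cast h5
    have h1 := hφ hp (Q / w) (by positivity) (by rw [div_pow, ← mul_div_assoc]; gcongr)
    have h2 := mul_le_mul_of_nonneg_left h1 (h_pos h5).le
    rw [G_succ_of_prime hp h5, V_succ_of_prime hp h5]
    have hV := (V_pos w).ne'
    have : (w : ℝ) - 2 ≠ 0 := by linarith
    have e : 1 / (V w * (1 - 2 / w)) = 1 / V w + 2 / (w - 2) * (1 / V w) := by
      field_simp; ring
    rw [e]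
    have e2 : 2 / ((w : ℝ) - 2) * ((1 - φ) / V w) = 2 / (w - 2) * (1 / V w) * (1 - φ) := by ring
    linarith
  · rw [V_succ_of_not hp, G_succ_of_not hp]
    linarith

/-- summation by parts with a potential -/
theorem abel {a b : ℕ} (hab : a ≤ b) (e A φ P : ℕ → ℝ)
    (h1 : ∀ w, a ≤ w → w < b → e (w + 1) ≤ e w + (A w - A (w + 1)) * φ w)
    (h2 : ∀ w, a ≤ w → w < b → A (w + 1) * (φ (w + 1) - φ w) ≤ P (w + 1) - P w) :
    e b + A b * φ b - P b ≤ e a + A a * φ a - P a := by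
  induction b, hab using Nat.le_induction with
  | base => exact le_rfl
  | succ n hn ih =>
    have := ih (fun w h h' => h1 w h (by omega)) fun w h h' => h2 w h (by omega)
    have := h1 n hn (by omega)
    have := h2 n hn (by omega)
    nlinarith

end Pool.Agent.P.MP_e94e4b_nt
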