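import Pool.Agent.P.MP_e94e4b_nt.Chk

/-! The tables of the scale invariant induction. -/

namespace Pool.Agent.P.MP_e94e4b_nt

open Finset Real

/-- a finite table continued by a geometric tail -/
noncomputable def tl (T : ℕ → ℕ) (n b : ℕ) (θ : ℝ) (i : ℕ) : ℝ :=
  if i ≤ n then T i / SC else b / SC + (T n - b) / SC * θ ^ (i - n)

theorem tl_le {T : ℕ → ℕ} {n b i : ℕ} {θ : ℝ} (h : i ≤ n) : tl T n b θ i = T i / SC := if_pos h

theorem tl_ge {T : ℕ → ℕ} {n b i : ℕ} {θ : ℝ} (h : n ≤ i) :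
    tl T n b θ i = b / SC + (T n - b) / SC * θ ^ (i - n) := by
  rcases h.eq_or_lt with rfl | h
  · rw [tl_le le_rfl, Nat.sub_self]; ring
  · exact if_neg (not_le.2 h)

theorem tl_anti {T : ℕ → ℕ} {n b : ℕ} {θ : ℝ} (h : ∀ i < n, T (i + 1) ≤ T i) (hb : b ≤ T n)
    (h0 : 0 ≤ θ) (h1 : θ ≤ 1) (i : ℕ) : tl T n b θ (i + 1) ≤ tl T n b θ i := by
  rcases Nat.lt_or_ge i n with h2 | h2
  · rw [tl_le h2, tl_le h2.le]
    exact div_le_div_of_nonneg_right (Nat.cast_le.2 (h i h2)) SC_pos.le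
  · rw [tl_ge h2, tl_ge (h2.trans (Nat.le_succ i))]
    exact add_le_add_right (mul_le_mul_of_nonneg_left (pow_le_pow_of_le_one h0 h1 (by omega))
      (div_nonneg (sub_nonneg.2 (Nat.cast_le.2 hb)) SC_pos.le)) _

theorem tl_nonneg {T : ℕ → ℕ} {n : ℕ} {θ : ℝ} (h0 : 0 ≤ θ) (i : ℕ) : 0 ≤ tl T n 0 θ i := by
  unfold tl
  simp only [Nat.cast_zero, zero_div, zero_add, sub_zero]
  split_ifs <;> positivity

/-- lower approximation of `tl` -/
def lo (T : ℕ → ℕ) (n b a d i : ℕ) : ℕ :=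
  cond (Nat.ble i n) (T i) (b + (T n - b) * a ^ (i - n) / d ^ (i - n))

theorem lo_le {T : ℕ → ℕ} {n b : ℕ} (a d : ℕ) (hb : b ≤ T n) (i : ℕ) :
    (lo T n b a d i : ℝ) / SC ≤ tl T n b (a / d) i := by
  unfold lo
  cases h : Nat.ble i n
  · rw [cond_false, tl_ge (Nat.lt_of_not_le fun h' : i ≤ n => by
      rw [Nat.ble_eq_true_of_le h'] at h; cases h).le, Nat.cast_add, add_div]
    refine add_le_add_right ((div_le_div_of_nonneg_right Nat.cast_div_le SC_pos.le).trans
      (le_of_eq ?_)) _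
    rw [Nat.cast_mul, Nat.cast_sub hb, div_pow]
    push_cast
    ring
  · rw [cond_true, tl_le (Nat.le_of_ble_eq_true h)]

/-- unverified construction of a table -/
noncomputable def mkT (f : ℕ → ℕ → ℕ) (k : ℕ → Bool) (n : ℕ) : ℕ → ℕ → Bool :=
  Nat.rec (fun acc _ => k acc) (fun i ih acc prev => frc (f i prev) fun v =>
    frc (Nat.add (Nat.shiftLeft acc 128) v) fun acc' => ih acc' v) n

theorem mkT_spec (f : ℕ → ℕ → ℕ) (k : ℕ → Bool) (n : ℕ) : ∀ acc prev,
    mkT f k n acc prev = true → ∃ T, k T = true := by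
  induction n with
  | zero => exact fun acc _ h => ⟨acc, h⟩
  | succ n ih =>
    intro acc prev h
    iterate 2 replace h := frc_true h
    exact ih _ _ h

noncomputable def ckU (a : ℕ) (P Q B M : ℕ → ℕ) (C : ℕ) (alt : ℕ → Bool) : Bool :=
  allTo (fun k => frc (a + k) fun j => Nat.ble (P (j - 40) + B j) (M j) &&
    Nat.ble ((j + 2) ^ 2 * M (j + 1) + (j + 1) ^ 2 * P (j - 40))
      ((j + 1) ^ 2 * M j + (j + 1) ^ 2 * P (j + 1 - 40)) &&
    (Nat.ble (17 * (j + 1) ^ 2 * M j) (16 * j ^ 2 * (lo Q 480 0 26 27 j + P (j - 40))) || alt j))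
    (520 - a) &&
  Nat.ble (P 480 + C * 128) (M 520) &&
  Nat.ble (522 ^ 2 * 26 * M 520 + 521 ^ 2 * P 480) (521 ^ 2 * 27 * M 520) &&
  Nat.ble (17 * 521 ^ 2 * 27 ^ 40 * M 520) (16 * 520 ^ 2 * (26 ^ 40 * Q 480 + 27 ^ 40 * P 480))

/-- the bound at level `1024` -/
noncomputable def b0 (B : ℕ → ℕ) (C : ℕ) (j : ℕ) : ℝ :=
  if j < 520 then B j / SC else C / 2 ^ 43 * (26 / 27) ^ (j - 520)

theorem sq_ratio {x n : ℝ} (h : n ≤ x) (hn : 0 ≤ n) :
    (n + 1) ^ 2 * (x + 2) ^ 2 ≤ (n + 2) ^ 2 * (x + 1) ^ 2 := by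
  rw [← mul_pow, ← mul_pow]
  exact pow_le_pow_left₀ (by nlinarith) (by nlinarith) 2

theorem ckU_spec {a C : ℕ} {P Q B M : ℕ → ℕ} {alt : ℕ → Bool} (ha : a ≤ 520)
    (h : ckU a P Q B M C alt = true) (j : ℕ) (hj : a ≤ j) :
    tl P 480 0 (26 / 27) (j - 40) + b0 B C j ≤ tl M 520 0 (26 / 27) j ∧
    (j + 2) ^ 2 * tl M 520 0 (26 / 27) (j + 1) + (j + 1) ^ 2 * (tl P 480 0 (26 / 27) (j - 40) -
      tl P 480 0 (26 / 27) (j + 1 - 40)) ≤ (j + 1) ^ 2 * tl M 520 0 (26 / 27) j ∧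
    (17 / 16 * (j + 1) ^ 2 * tl M 520 0 (26 / 27) j ≤
      (j : ℝ) ^ 2 * (tl Q 480 0 (26 / 27) j + tl P 480 0 (26 / 27) (j - 40)) ∨
      (j < 520 ∧ alt j = true)) := by
  simp only [ckU, Bool.and_eq_true, Nat.ble_eq] at h
  obtain ⟨⟨⟨h, t1⟩, t2⟩, t3⟩ := h
  have S0 := SC_pos
  rcases Nat.lt_or_ge j 520 with h1 | h1
  · have h2 := frc_true (allTo_spec h (j - a) (by omega))
    simp only [Nat.add_sub_cancel' hj, Bool.and_eq_true, Bool.or_eq_true, Nat.ble_eq] at h2
    obtain ⟨⟨m1, m2⟩, m3⟩ := h2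
    rw [tl_le (i := j - 40) (by omega), tl_le (i := j + 1 - 40) (by omega), tl_le h1.le,
      tl_le (i := j + 1) h1,
      b0, if_pos h1]
    refine ⟨?_, ?_, m3.imp (fun m3 => ?_) fun m3 => ⟨h1, m3⟩⟩
    · rw [← add_div]
      exact div_le_div_of_nonneg_right (by exact_mod_cast m1) S0.le
    · have := div_le_div_of_nonneg_right ((Nat.cast_le (α := ℝ)).2 m2) S0.le
      simp only [add_div, mul_div_assoc, Nat.cast_add, Nat.cast_mul, Nat.cast_pow, Nat.cast_ofNat,
        Nat.cast_one] at this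
      linarith
    · have h3 := div_le_div_of_nonneg_right ((Nat.cast_le (α := ℝ)).2 m3) S0.le
      have h4 := mul_le_mul_of_nonneg_left (lo_le (T := Q) (n := 480) 26 27 (Nat.zero_le _) j)
        (sq_nonneg (j : ℝ))
      push_cast at h3 h4
      simp only [add_div, mul_div_assoc, mul_add] at h3 ⊢
      linarith
  · obtain ⟨k, rfl⟩ := Nat.exists_eq_add_of_le h1
    rw [tl_ge (i := 520 + k - 40) (by omega), tl_ge (i := 520 + k + 1 - 40) (by omega), tl_ge h1,
      tl_ge (i := 520 + k + 1) (by omega), tl_ge (i := 520 + k) (by omega), b0, if_neg (by omega),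
      show 520 + k - 40 - 480 = k by omega, show 520 + k + 1 - 40 - 480 = k + 1 by omega,
      show 520 + k - 520 = k by omega, show 520 + k + 1 - 520 = k + 1 by omega,
      show 520 + k - 480 = 40 + k by omega, pow_add, pow_add]
    simp only [Nat.cast_zero, zero_div, zero_add, sub_zero, pow_one]
    have x0 : (520 : ℝ) ≤ (520 + k : ℕ) := by exact_mod_cast h1
    generalize ((520 + k : ℕ) : ℝ) = x at *
    have y0 : (0 : ℝ) ≤ (26 / 27) ^ k := by positivity
    generalize ((26 : ℝ) / 27) ^ k = y at *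
    have s1 := div_le_div_of_nonneg_right ((Nat.cast_le (α := ℝ)).2 t1) S0.le
    have s2 := div_le_div_of_nonneg_right ((Nat.cast_le (α := ℝ)).2 t2) S0.le
    have s3 := div_le_div_of_nonneg_right ((Nat.cast_le (α := ℝ)).2 t3) S0.le
    have e : (C : ℝ) * 128 / SC = C / 2 ^ 43 := by rw [SC]; push_cast; ring
    simp only [Nat.cast_add, Nat.cast_mul, Nat.cast_ofNat, add_div, e] at s1
    simp only [Nat.cast_add, Nat.cast_mul, Nat.cast_pow, Nat.cast_ofNat, add_div, mul_div_assoc,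
      mul_add] at s2 s3
    have m0 : (0 : ℝ) ≤ M 520 / SC := by positivity
    have p0 : (0 : ℝ) ≤ P 480 / SC := by positivity
    have q0 : (0 : ℝ) ≤ Q 480 / SC := by positivity
    generalize (M 520 : ℝ) / SC = m at *
    generalize (P 480 : ℝ) / SC = p at *
    generalize (Q 480 : ℝ) / SC = q at *
    refine ⟨by nlinarith, ?_, Or.inl ?_⟩
    · have r1 := mul_le_mul_of_nonneg_right (sq_ratio x0 (by norm_num)) m0
      have r2 := mul_le_mul_of_nonneg_left s2 (sq_nonneg (x + 1))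
      have r3 : (x + 2) ^ 2 * (m * (26 / 27)) + (x + 1) ^ 2 * (p - p * (26 / 27)) ≤
          (x + 1) ^ 2 * m := by linarith
      linarith [mul_le_mul_of_nonneg_right r3 y0]
    · have r1 := mul_le_mul_of_nonneg_right (sq_ratio (x := x - 1) (n := 519) (by linarith)
        (by norm_num)) m0
      have r2 := mul_le_mul_of_nonneg_left s3 (sq_nonneg x)
      have r3 : 17 / 16 * (x + 1) ^ 2 * m ≤ x ^ 2 * (q * (26 / 27) ^ 40 + p) := by linarith
      linarith [mul_le_mul_of_nonneg_right r3 y0]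

noncomputable def ckN (T B M : ℕ → ℕ) : Bool :=
  allTo (fun j => Nat.ble (M j + B j) (T (j - 80)) &&
    Nat.ble ((j + 2) ^ 2 * M j + (j + 2) ^ 2 * T (j + 1 - 80))
      ((j + 1) ^ 2 * M (j + 1) + (j + 2) ^ 2 * T (j - 80)) &&
    Nat.ble (17 * (j + 1) ^ 2 * T (j - 80))
      (17 * (j + 1) ^ 2 * lo T 640 (B 719) 57 58 j + 16 * j ^ 2 * M j)) 720 &&
  Nat.ble (M 720 + B 719) (T 640) &&
  Nat.ble (722 ^ 2 * 58 * M 720) (721 ^ 2 * 57 * M 720 + 722 ^ 2 * (T 640 - B 719)) &&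
  Nat.ble (17 * 721 ^ 2 * 58 ^ 80 * (T 640 - B 719))
    (17 * 721 ^ 2 * 57 ^ 80 * (T 640 - B 719) + 16 * 720 ^ 2 * 58 ^ 80 * M 720)

theorem ckN_spec {T B M : ℕ → ℕ} (h : ckN T B M = true) : B 719 ≤ T 640 ∧ ∀ j : ℕ,
    tl M 720 0 (57 / 58) j + B (min j 719) / SC ≤ tl T 640 (B 719) (57 / 58) (j - 80) ∧
    (j + 2) ^ 2 * tl M 720 0 (57 / 58) j ≤ (j + 1) ^ 2 * tl M 720 0 (57 / 58) (j + 1) +
      (j + 2) ^ 2 * (tl T 640 (B 719) (57 / 58) (j - 80) - tl T 640 (B 719) (57 / 58) (j + 1 - 80)) ∧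
    17 / 16 * (j + 1) ^ 2 * tl T 640 (B 719) (57 / 58) (j - 80) ≤
      17 / 16 * (j + 1) ^ 2 * tl T 640 (B 719) (57 / 58) j + (j : ℝ) ^ 2 * tl M 720 0 (57 / 58) j := by
  simp only [ckN, Bool.and_eq_true, Nat.ble_eq] at h
  obtain ⟨⟨⟨h, t1⟩, t2⟩, t3⟩ := h
  have S0 := SC_pos
  have hb : B 719 ≤ T 640 := by omega
  refine ⟨hb, fun j => ?_⟩
  rcases Nat.lt_or_ge j 720 with h1 | h1
  · have h2 := allTo_spec h j h1
    simp only [Bool.and_eq_true, Nat.ble_eq] at h2
    obtain ⟨⟨m1, m2⟩, m3⟩ := h2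
    rw [tl_le (i := j - 80) (by omega), tl_le (i := j + 1 - 80) (by omega), tl_le h1.le,
      tl_le (i := j + 1) h1,
      min_eq_left (by omega)]
    refine ⟨?_, ?_, ?_⟩
    · rw [← add_div]
      exact div_le_div_of_nonneg_right (by exact_mod_cast m1) S0.le
    · have := div_le_div_of_nonneg_right ((Nat.cast_le (α := ℝ)).2 m2) S0.le
      simp only [add_div, mul_div_assoc, Nat.cast_add, Nat.cast_mul, Nat.cast_pow, Nat.cast_ofNat,
        Nat.cast_one] at this
      linarith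
    · have h3 := div_le_div_of_nonneg_right ((Nat.cast_le (α := ℝ)).2 m3) S0.le
      have h4 := mul_le_mul_of_nonneg_left (lo_le 57 58 hb j) (sq_nonneg (j + 1 : ℝ))
      push_cast at h3 h4
      simp only [add_div, mul_div_assoc] at h3
      linarith
  · obtain ⟨k, rfl⟩ := Nat.exists_eq_add_of_le h1
    rw [tl_ge (i := 720 + k - 80) (by omega), tl_ge (i := 720 + k + 1 - 80) (by omega), tl_ge h1,
      tl_ge (i := 720 + k + 1) (by omega), tl_ge (i := 720 + k) (by omega),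
      min_eq_right (by omega),
      show 720 + k - 80 - 640 = k by omega, show 720 + k + 1 - 80 - 640 = k + 1 by omega,
      show 720 + k - 720 = k by omega, show 720 + k + 1 - 720 = k + 1 by omega,
      show 720 + k - 640 = 80 + k by omega, pow_add, pow_add]
    simp only [Nat.cast_zero, zero_div, zero_add, sub_zero, pow_one]
    have x0 : (720 : ℝ) ≤ (720 + k : ℕ) := by exact_mod_cast h1
    generalize ((720 + k : ℕ) : ℝ) = x at *
    have y0 : (0 : ℝ) ≤ (57 / 58) ^ k := by positivity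
    generalize ((57 : ℝ) / 58) ^ k = y at *
    have s1 : (M 720 : ℝ) / SC ≤ (T 640 - B 719) / SC :=
      div_le_div_of_nonneg_right (le_sub_iff_add_le.2 (by exact_mod_cast t1)) S0.le
    have s2 := div_le_div_of_nonneg_right ((Nat.cast_le (α := ℝ)).2 t2) S0.le
    have s3 := div_le_div_of_nonneg_right ((Nat.cast_le (α := ℝ)).2 t3) S0.le
    simp only [Nat.cast_add, Nat.cast_mul, Nat.cast_pow, Nat.cast_ofNat, add_div, mul_div_assoc,
      Nat.cast_sub hb] at s2 s3
    have m0 : (0 : ℝ) ≤ M 720 / SC := by positivity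
    generalize (M 720 : ℝ) / SC = m at *
    generalize ((T 640 : ℝ) - B 719) / SC = p at *
    refine ⟨by nlinarith, ?_, ?_⟩
    · have r1 := mul_le_mul_of_nonneg_right (sq_ratio x0 (by norm_num)) m0
      have r2 := mul_le_mul_of_nonneg_left s2 (sq_nonneg (x + 2))
      have r3 : (x + 2) ^ 2 * m ≤ (x + 1) ^ 2 * (m * (57 / 58)) +
        (x + 2) ^ 2 * (p - p * (57 / 58)) := by linarith
      linarith [mul_le_mul_of_nonneg_right r3 y0]
    · have r1 := mul_le_mul_of_nonneg_right (sq_ratio (x := x - 1) (n := 719) (by linarith)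
        (by norm_num)) m0
      have r2 := mul_le_mul_of_nonneg_left s3 (sq_nonneg (x + 1))
      have r3 : 17 / 16 * (x + 1) ^ 2 * p ≤
        17 / 16 * (x + 1) ^ 2 * (p * (57 / 58) ^ 80) + x ^ 2 * m := by linarith
      linarith [mul_le_mul_of_nonneg_right r3 y0]

theorem RK.tail {C : ℝ} (h : RK 1024 C) {J : ℕ} (hJ : 520 ≤ J) {X : ℝ} (hX : 0 < X)
    (h1 : J * log 2 ≤ 4 * log X) : UX 1024 X (C / 2 ^ 43 * (26 / 27) ^ (J - 520)) ∧
      LX 1024 X (C / 2 ^ 43 * (26 / 27) ^ (J - 520)) := by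
  obtain ⟨k, rfl⟩ := Nat.exists_eq_add_of_le hJ
  have e : C / 2 ^ 43 * (26 / 27) ^ (520 + k - 520) = C / (2 ^ 43 * (27 / 26) ^ k) := by
    rw [Nat.add_sub_cancel_left, div_pow, div_pow]; field_simp
  rw [e]
  refine h.2 _ X (one_le_mul_of_one_le_of_one_le (by norm_num) (one_le_pow₀ (by norm_num))) ?_
  rw [← log_le_log_iff (by positivity) hX, log_pow, log_mul (by positivity) (by positivity),
    log_pow, log_pow]
  have h2 := log_le_sub_one_of_pos (x := 27 / 26) (by norm_num)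
  have h3 := log_two_gt_d9
  have h4 := mul_le_mul_of_nonneg_left h2 (Nat.cast_nonneg (α := ℝ) k)
  have h5 := mul_le_mul_of_nonneg_left h3.le (Nat.cast_nonneg (α := ℝ) k)
  push_cast at *
  linarith [Nat.cast_nonneg (α := ℝ) k]

theorem hA_asym {z W a : ℕ} (z3 : 1024 ≤ z) (hW : W ≤ V 1024 * SC) (h1 : 40 ≤ a) {x : ℝ}
    (hx : 0 < x) (h2 : a * (log z / 40) ≤ log x) : (W * 16 / 17 : ℕ) ≤ V z * pw a * x := by
  have z4 : (1024 : ℝ) ≤ z := by exact_mod_cast z3
  have b1 : (40 : ℝ) ≤ a := by exact_mod_cast h1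
  have b2 : log 1024 ≤ log z := log_le_log (by norm_num) z4
  have e := log_1024
  have b4 := hK 1024 z le_rfl z3
  rw [Nat.cast_ofNat] at e b4
  have b3 := pw_spec (a := a) (x := x * 1024 / z) (by positivity) (by
    rw [log_div (by positivity) (by positivity), log_mul (by positivity) (by positivity)]
    nlinarith)
  have c1 : 2 ≤ log 1024 := two_le_log (by norm_num)
  have b5 : log z ^ 2 * 1024 ≤ z * log 1024 ^ 2 := by
    have c2 := add_one_le_exp ((log z - log 1024) / 2)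
    have c3 : exp ((log z - log 1024) / 2) ^ 2 = z / 1024 := by
      rw [← exp_nat_mul, Nat.cast_ofNat, mul_div_cancel₀ _ two_ne_zero, exp_sub,
        exp_log (by linarith), exp_log (by norm_num)]
    have c4 : log z ≤ exp ((log z - log 1024) / 2) * log 1024 := by nlinarith
    have c5 := pow_le_pow_left₀ (by linarith) c4 2
    rw [mul_pow, c3] at c5
    linarith
  generalize V 1024 = v at *
  have b6 : ((W * 16 / 17 : ℕ) : ℝ) ≤ v * SC * (16 / 17) := Nat.cast_div_le.trans (by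
    push_cast; linarith)
  have b7 : v * 1024 ≤ 17 / 16 * V z * z := by
    have c1 := V_succ_le (z := z) (by omega)
    have c2 := V_pos z
    refine le_of_mul_le_mul_right ?_ (show 0 < log 1024 ^ 2 by positivity)
    nlinarith [mul_le_mul_of_nonneg_left b5 c2.le, mul_le_mul_of_nonneg_right c1 (sq_nonneg (log z))]
  rw [← mul_div_assoc, le_div_iff₀ (by linarith)] at b3
  nlinarith [mul_le_mul_of_nonneg_left b3 (V_pos z).le, mul_le_mul_of_nonneg_right b7 SC_pos.le]

/-- entry of a literal table -/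
def g40 (T i : ℕ) : ℕ := Nat.mul (Nat.land (Nat.shiftRight T (Nat.mul 40 i)) 1099511627775) 262144

def fM (a : ℕ) (P B : ℕ → ℕ) (j prev : ℕ) : ℕ := cond (Nat.ble a j)
  (max (P (j - 40) + B j) ((j + 2) ^ 2 * prev / (j + 1) ^ 2 + 1 + P (j - 40) - P (j - 39))) 0

def fN (T B : ℕ → ℕ) (j prev : ℕ) : ℕ :=
  mn (T (j - 80) - B j) ((j + 1) ^ 2 * prev / (j + 2) ^ 2 + T (j - 80) - T (j + 1 - 80))

/-- the final check -/
noncomputable def finC (U L T : ℕ → ℕ) (CT u l t W C : ℕ) : Bool :=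
  frc (U 480 * 113 / 100) fun c => frc ((T 640 - gt t 719) * 86 / 100) fun c' =>
  mkT (fM 40 L (gt u)) (fun MU => mkT (fM 80 U (gt l)) (fun ML =>
    mkT (fN T fun j => mn SC (gt t j)) (fun NU =>
      allTo (fun i => Nat.ble (U (i + 1)) (U i) && Nat.ble (L (i + 1)) (L i)) 480 &&
      allTo (fun i => Nat.ble (T (i + 1)) (T i)) 640 &&
      allTo (fun i => Nat.ble SC (L i)) 80 && Nat.ble SC (T 0) &&
      ckU 40 L U (gt u) (gt MU) C (fun j => Nat.blt (T j) SC &&
        Nat.ble (8267 * SC * SC) (8192 * (SC + lo U 480 0 26 27 j) * (SC - T j))) &&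
      ckU 80 U L (gt l) (gt ML) C (fun j => Nat.ble SC (lo L 480 0 26 27 j)) &&
      ckN T (fun j => mn SC (gt t j)) (gt NU) &&
      chk U (L 440) (W * 16 / 17) (fun j => gt CT j - gt CT 39) 40 440 380)
      720 c' c') 520 c c) 520 c c

theorem finC_spec {U L T : ℕ → ℕ} {CT u l t W low C : ℕ} (h : finC U L T CT u l t W C = true)
    (hCT : ∀ j < 440, gt CT j = cumT j) (hD : DI 1024 u l t W low C) {N : ℕ}
    (hN : 2 ^ 110 ≤ N + 1) : Good N := by
  iterate 2 replace h := frc_true h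
  obtain ⟨MU, h⟩ := mkT_spec _ _ _ _ _ h
  obtain ⟨ML, h⟩ := mkT_spec _ _ _ _ _ h
  obtain ⟨NU, h⟩ := mkT_spec _ _ _ _ _ h
  simp only [Bool.and_eq_true] at h
  obtain ⟨⟨⟨⟨⟨⟨⟨a1, a2⟩, a3⟩, a4⟩, a5⟩, a6⟩, a7⟩, a8⟩ := h
  replace a1 := allTo_spec a1
  replace a2 := allTo_spec a2
  replace a3 := allTo_spec a3
  simp only [Bool.and_eq_true, Nat.ble_eq] at a1 a2 a3 a4
  replace a5 := ckU_spec (by norm_num) a5
  replace a6 := ckU_spec (by norm_num) a6
  obtain ⟨a7, a9⟩ := ckN_spec a7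
  have S0 := SC_pos
  have tb : Tabs (17 / 16) (tl U 480 0 (26 / 27)) (tl L 480 0 (26 / 27))
      (tl T 640 (mn SC (gt t 719)) (57 / 58)) (tl (gt MU) 520 0 (26 / 27))
      (tl (gt ML) 520 0 (26 / 27)) (tl (gt NU) 720 0 (57 / 58)) (b0 (gt u) C) (b0 (gt l) C)
      fun j => mn SC (gt t (min j 719)) / SC := by
    refine ⟨fun J X hX hJ => ?_, fun J X hX hJ => ?_, fun J X hX hJ => ?_,
      tl_anti (fun i hi => (a1 i hi).1) (Nat.zero_le _) (by norm_num) (by norm_num),
      tl_anti (fun i hi => (a1 i hi).2) (Nat.zero_le _) (by norm_num) (by norm_num),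
      tl_anti a2 a7 (by norm_num) (by norm_num), ?_, ?_, tl_nonneg (by norm_num),
      fun j hj => (a5 j hj).1, fun j hj => (a5 j hj).2.1,
      fun j hj => (a5 j hj).2.2.imp id fun h => ?_, tl_nonneg (by norm_num),
      fun j hj => (a6 j hj).1, fun j hj => (a6 j hj).2.1, fun j => ?_, tl_nonneg (by norm_num),
      fun j => (a9 j).1, fun j => (a9 j).2.1, fun j => (a9 j).2.2⟩
    · unfold b0
      split_ifs with h
      exacts [hD.hu J h X hX hJ, (hD.hC.tail (not_lt.1 h) hX hJ).1]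
    · unfold b0
      split_ifs with h
      exacts [hD.hl J h X hX hJ, (hD.hC.tail (not_lt.1 h) hX hJ).2]
    · rcases mn_cases SC (gt t (min J 719)) with h | h <;> rw [h.1]
      · exact TX_triv _ (div_self S0.ne').ge
      · refine hD.ht _ (by omega) X hX (le_trans ?_ hJ)
        exact mul_le_mul_of_nonneg_right (Nat.cast_le.2 (min_le_left _ _))
          (by linarith [log_two_gt_d9])
    · rw [tl_le (Nat.zero_le _), one_le_div S0]; exact_mod_cast a3 0 (by norm_num)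
    · rw [tl_le (Nat.zero_le _), one_le_div S0]; exact_mod_cast a4
    · obtain ⟨h1, h2⟩ := h
      rw [Bool.and_eq_true, Nat.blt_eq, Nat.ble_eq] at h2
      have h3 : (T j : ℝ) / SC < 1 := (div_lt_one S0).2 (by exact_mod_cast h2.1)
      rw [tl_le (i := j) (n := 640) (by omega)]
      refine ⟨h3, le_trans ?_ (mul_le_mul_of_nonneg_right (add_le_add_right (by
        simpa using lo_le (T := U) (n := 480) 26 27 (Nat.zero_le _) j) 1) (by linarith))⟩
      have h4 := (Nat.cast_le (α := ℝ)).2 h2.2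
      rw [Nat.cast_mul, Nat.cast_mul, Nat.cast_mul, Nat.cast_mul, Nat.cast_sub h2.1.le] at h4
      push_cast at h4
      rw [one_add_div S0.ne', one_sub_div S0.ne', div_mul_div_comm, le_div_iff₀ (by positivity)]
      linarith
    · rcases Nat.lt_or_ge j 80 with h | h
      · left
        rw [tl_le (by omega), one_le_div S0]; exact_mod_cast a3 j h
      · refine ((a6 j h).2.2.imp (fun h' => ⟨h, h'⟩) fun h' => ?_).symm
        refine le_trans ?_ (by simpa using lo_le (T := L) (n := 480) 26 27 (Nat.zero_le _) j)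
        rw [one_le_div S0]; exact_mod_cast Nat.le_of_ble_eq_true h'.2
  set z := Nat.nthRoot 11 (N + 1) with hz
  have z1 : z ^ 11 ≤ N + 1 := Nat.pow_nthRoot_le (Or.inl (by norm_num))
  have z2 : N + 1 < (z + 1) ^ 11 := Nat.lt_pow_nthRoot_add_one (by norm_num) _
  have z3 : 1024 ≤ z := Nat.lt_succ_iff.1 (lt_of_pow_lt_pow_left₀ 11 (by positivity)
    (lt_of_le_of_lt (le_trans (by norm_num) hN) z2))
  have z4 : (1024 : ℝ) ≤ z := by exact_mod_cast z3
  have l2 := two_le_log (x := z) (by linarith)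
  have l3 : log (z ^ 11) ≤ log (N + 1) := log_le_log (by positivity) (by exact_mod_cast z1)
  have l4 : log (N + 1) < log ((z + 1) ^ 11) := log_lt_log (by positivity) (by exact_mod_cast z2)
  have l5 := log_succ_up (x := z) (by linarith)
  have l6 : 1 / (z : ℝ) ≤ 1 / 1024 := one_div_le_one_div_of_le (by norm_num) z4
  have l7 : 1 / (z + 1 : ℝ) ≤ 1 / 1024 := one_div_le_one_div_of_le (by norm_num) (by linarith)
  rw [log_pow] at l3 l4
  have as := fun (X : ℝ) (hX : 0 < X) (i : ℕ) => asym hK (by norm_num) tb z3 hX (i := i)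
  refine chk_spec (z := z) (a0 := 40) (lam := log z / 40) a8 (by linarith) (by omega) (by omega)
    (by push_cast at *; linarith) (by push_cast at *; linarith) (by push_cast; linarith) ?_ le_rfl
    (by norm_num) (fun a h1 h2 X hX h3 => ?_) (fun a h1 x hx h2 => ?_) fun j h1 h2 s hs => ?_
  · have := (as (N + 1) (by positivity) 440 (by push_cast at *; linarith)).1
    rwa [tl_le (by norm_num)] at this
  · have := (as X hX a (by linarith)).2 h1
    rwa [tl_le (by omega)] at this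
  · exact hA_asym z3 hD.hV h1 hx h2
  · have b1 := cum_big z3 (lam := log z / 40) (by ring) (by omega : 39 ≤ j) (by omega) le_rfl s hs
    rw [hCT j (by omega), hCT 39 (by norm_num), cumT, Nat.ble_eq_true_of_le h1, cond_true, cumT,
      show Nat.ble 40 39 = false from rfl, cond_false, Nat.add_sub_cancel_left, le_div_iff₀ S0]
    rwa [add_sub_cancel_right] at b1

end Pool.Agent.P.MP_e94e4b_nt
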